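import Pool.Agent.Work.MP_52820d_nt.Core
import Pool.Agent.Lib.ANT.Mertens
import Pool.Agent.Lib.ANT.PNT

/-!
# The sieve primes
-/

noncomputable section

open Finset Filter

namespace Pool.Agent.Work.MP_52820d_nt

open Pool.Agent.Lib.ANT

/-- the sieve primes -/
def SP (Z z p₁ : ℕ) : Finset ℕ := ((Ioc Z z).filter Nat.Prime).erase p₁

lemma mem_SP {Z z p₁ p : ℕ} : p ∈ SP Z z p₁ ↔ p ≠ p₁ ∧ (Z < p ∧ p ≤ z) ∧ p.Prime := by simp [SP]

lemma sum_sq_SP {Z : ℕ} (hZ : 0 < Z) (z p₁ : ℕ) : ∑ p ∈ SP Z z p₁, ((p : ℝ)⁻¹) ^ 2 ≤ (Z : ℝ)⁻¹ := by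
  have h := sum_Ioc_inv_sq_le_sub (α := ℝ) hZ.ne' (le_max_left Z z)
  refine le_trans ?_ (h.trans (sub_le_self _ (by positivity)))
  simp_rw [inv_pow]
  refine sum_le_sum_of_subset_of_nonneg (fun p hp => ?_) fun _ _ _ => by positivity
  obtain ⟨-, h, -⟩ := mem_SP.1 hp
  exact mem_Ioc.2 ⟨h.1, h.2.trans (le_max_right _ _)⟩

lemma VV_SP {Z z zs : ℕ} (p₁ : ℕ) (hZ : 51 ≤ Real.log Z) (hZz : Z ≤ z) (hz : z ≤ zs) :
    Real.log z / Real.log Z / 3 ≤ VV (Subtype.val : SP Z zs p₁ → ℕ) z ∧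
      VV (Subtype.val : SP Z zs p₁ → ℕ) z ≤ 3 * (Real.log z / Real.log Z) := by
  have hZ1 : (52 : ℝ) ≤ Z := by
    rcases Nat.eq_zero_or_pos Z with rfl | h
    · norm_num at hZ
    · linarith only [hZ, h, Real.log_le_sub_one_of_pos (show (0 : ℝ) < Z by exact_mod_cast h)]
  have hZ2 : 52 ≤ Z := by exact_mod_cast hZ1
  have hlz : Real.log Z ≤ Real.log z := Lib.LargeSieve.log_nat_mono hZz
  have e : VV (Subtype.val : SP Z zs p₁ → ℕ) z = ∏ p ∈ SP Z z p₁, (1 + (p : ℝ)⁻¹) := by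
    rw [VV, prod_filter, prod_coe_sort _ fun p : ℕ => if p ≤ z then 1 + (p : ℝ)⁻¹ else 1,
      ← prod_filter]
    refine prod_congr (ext fun p => ?_) fun _ _ => rfl
    simp only [mem_filter, mem_SP]
    exact ⟨fun h => ⟨h.1.1, ⟨h.1.2.1.1, h.2⟩, h.1.2.2⟩,
      fun h => ⟨⟨h.1, ⟨h.2.1.1, h.2.1.2.trans hz⟩, h.2.2⟩, h.2.1.2⟩⟩
  have hM := abs_le.1 (abs_sum_inv_prime_Ioc_sub_le Z z (by omega) hZz)
  have h48 : 48 / Real.log Z ≤ 48 / 51 := by gcongr
  have hZi : (Z : ℝ)⁻¹ ≤ 1 / 52 := by rw [one_div]; exact inv_anti₀ (by norm_num) hZ1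
  have e2 : Real.exp (Real.log (Real.log z) - Real.log (Real.log Z)) = Real.log z / Real.log Z := by
    rw [Real.exp_sub, Real.exp_log (by linarith only [hZ, hlz]), Real.exp_log (by linarith only [hZ])]
  have h0 : 0 ≤ Real.log z / Real.log Z := div_nonneg (by linarith only [hZ, hlz]) (by linarith only [hZ])
  have h3 := Real.exp_one_lt_three.le
  rw [e]
  constructor
  · have h1 : ∑ p ∈ (Ioc Z z).filter Nat.Prime, (p : ℝ)⁻¹ ≤ ∑ p ∈ SP Z z p₁, (p : ℝ)⁻¹ + 1 / 52 := by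
      by_cases h : p₁ ∈ (Ioc Z z).filter Nat.Prime
      · rw [← sum_erase_add _ _ h]
        refine add_le_add le_rfl (le_trans (inv_anti₀ (by linarith only [hZ1]) ?_) hZi)
        exact_mod_cast (mem_Ioc.1 (mem_filter.1 h).1).1.le
      · rw [SP, erase_eq_of_notMem h]; linarith only []
    calc _ ≤ Real.log z / Real.log Z / Real.exp 1 := by gcongr
      _ = Real.exp (Real.log (Real.log z) - Real.log (Real.log Z) - 1) := by
          rw [Real.exp_sub _ 1, e2]
      _ ≤ Real.exp (∑ p ∈ SP Z z p₁, ((p : ℝ)⁻¹ - ((p : ℝ)⁻¹) ^ 2)) := by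
          rw [sum_sub_distrib]
          exact Real.exp_le_exp.2 (by linarith only [hM, h48, hZi, h1, hZ2, sum_sq_SP (by omega : 0 < Z) z p₁])
      _ ≤ _ := by
          rw [Real.exp_sum]
          refine prod_le_prod (fun _ _ => (Real.exp_pos _).le) fun p _ => ?_
          have ht : (0 : ℝ) ≤ (p : ℝ)⁻¹ := by positivity
          generalize (p : ℝ)⁻¹ = t at ht
          have := Real.add_one_le_exp (-(t - t ^ 2))
          rw [Real.exp_neg, ← one_div, le_div_iff₀ (Real.exp_pos _)] at this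
          nlinarith only [this, ht, Real.exp_pos (t - t ^ 2), mul_nonneg (pow_nonneg ht 3)
            (Real.exp_pos (t - t ^ 2)).le]
  · calc _ ≤ Real.exp (∑ p ∈ SP Z z p₁, (p : ℝ)⁻¹) := by
          rw [Real.exp_sum]
          exact prod_le_prod (fun _ _ => by positivity) fun p _ => by
            linarith only [Real.add_one_le_exp (p : ℝ)⁻¹]
      _ ≤ Real.exp (1 + (Real.log (Real.log z) - Real.log (Real.log Z))) := by
          have := sum_le_sum_of_subset_of_nonneg (f := fun p : ℕ => (p : ℝ)⁻¹)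
            (erase_subset p₁ ((Ioc Z z).filter Nat.Prime)) fun _ _ _ => by positivity
          exact Real.exp_le_exp.2 (by rw [SP]; linarith only [hM, h48, this])
      _ ≤ _ := by rw [Real.exp_add, e2]; gcongr

lemma LL_SP {Z z zs p₁ m : ℕ} (hm : 0 < m) (h : z ≤ m ∨ zs ≤ m) :
    LL (Subtype.val : SP Z zs p₁ → ℕ) z ≤ Real.log m + 14 := by
  have := (abs_le.1 (abs_sum_log_div_prime_sub_log_le m hm)).2
  rw [LL, sum_filter, sum_coe_sort _ fun p : ℕ => if p ≤ z then Real.log p / p else 0,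
    ← sum_filter]
  refine le_trans (sum_le_sum_of_subset_of_nonneg (fun p hp => ?_) fun p _ _ =>
    div_nonneg (Real.log_natCast_nonneg p) (Nat.cast_nonneg p)) (by linarith only [this])
  simp only [mem_filter, mem_SP, mem_Ioc] at hp ⊢
  exact ⟨⟨hp.1.2.2.pos, by omega⟩, hp.1.2.2⟩

lemma ev_theta : ∀ᶠ x : ℕ in atTop, ∀ h ≤ x,
    (x : ℝ) / 2 ≤ ∑ n ∈ Ioc (x + h) (x + x + h), th n := by
  obtain ⟨X, hX⟩ := eventually_atTop.1 (tendsto_natCast_atTop_atTop.eventually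
    (tendsto_theta_div.eventually (Icc_mem_nhds (a := 9 / 10) (b := 11 / 10) (by norm_num)
      (by norm_num))))
  filter_upwards [eventually_ge_atTop X, eventually_gt_atTop 0] with x hx h0 h hh
  have e : ∀ m : ℕ, Chebyshev.theta m = ∑ n ∈ Ioc 0 m, th n := fun m => by
    rw [Chebyshev.theta, Nat.floor_natCast, sum_filter]; rfl
  have a1 := (div_le_iff₀ (by positivity)).1 (hX (x + h) (by omega)).2
  have a2 := (le_div_iff₀ (by positivity)).1 (hX (x + x + h) (by omega)).1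
  rw [e] at a1 a2
  rw [← sum_Ioc_consecutive _ (Nat.zero_le (x + h)) (by omega)] at a2
  have : (h : ℝ) ≤ x := by exact_mod_cast hh
  push_cast at a1 a2
  linarith only [this, a1, a2]

lemma ev_pi : ∀ᶠ w : ℕ in atTop, ((21 * w).primeCounting : ℝ) ≤ 42 * w / Real.log w := by
  have h21 : Tendsto (fun w : ℕ => ((21 * w : ℕ) : ℝ)) atTop atTop :=
    tendsto_natCast_atTop_atTop.comp (tendsto_id.const_mul_atTop' (by norm_num))
  filter_upwards [h21.eventually (tendsto_primeCounting_mul_log_div.eventually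
    (eventually_le_nhds one_lt_two)), eventually_gt_atTop 1] with w h hw
  rw [Nat.floor_natCast, div_le_iff₀ (by positivity)] at h
  rw [le_div_iff₀ (Real.log_pos (by exact_mod_cast hw))]
  have := mul_le_mul_of_nonneg_left (Lib.LargeSieve.log_nat_mono (by omega : w ≤ 21 * w))
    (Nat.cast_nonneg (21 * w).primeCounting)
  push_cast at h this
  linarith

end Pool.Agent.Work.MP_52820d_nt
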