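import Pool.Agent.Work.MP_52820d_nt.BV
import Pool.Agent.Lib.ANT.Mertens
import Pool.Agent.Work.MP_52820d_nt.Primes
import Mathlib
import Pool.Agent.Lib.ANT.SiegelWalfisz

-- merged part: Pool.Agent.Work.MP_52820d_nt.Step
section
-- merged part: Pool.Agent.Work.MP_52820d_nt.Cover
section
/-!
# Choice of the modulus `W` and of the residue class
-/

noncomputable section

open Finset

namespace Pool.Agent.Work.MP_52820d_nt

open Pool.Agent.Lib.ANT Pool.Agent.Lib.LargeSieve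

lemma exists_res {p r : ℕ} (hp : p.Prime) (hr : ¬ p ∣ r) (J : Finset ℕ) (hJ : ∀ j ∈ J, ¬ p ∣ j)
    (ω : ℕ → ℝ) (hω : ∀ j, 0 ≤ ω j) :
    ∃ c, ¬ p ∣ c ∧ ∑ j ∈ J, ω j * (if p ∣ r * c + j then (p : ℝ)⁻¹ else 1)
      ≤ (1 - (p : ℝ)⁻¹) * ∑ j ∈ J, ω j := by
  have hp1 : (1 : ℝ) < p := by exact_mod_cast hp.one_lt
  obtain ⟨c, hc, h⟩ := exists_le_of_sum_le (s := Ico 1 p) ⟨1, mem_Ico.2 ⟨le_rfl, hp.one_lt⟩⟩
    (f := fun c => ∑ j ∈ J, ω j * (if p ∣ r * c + j then (p : ℝ)⁻¹ else 1))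
    (g := fun _ => (1 - (p : ℝ)⁻¹) * ∑ j ∈ J, ω j) (by
      simp_rw [mul_sum]
      rw [sum_comm, sum_comm (s := Ico 1 p)]
      refine sum_le_sum fun j hj => ?_
      obtain ⟨c₀, hc₀⟩ := exists_root hp hr j
      have h1 : p ∣ r * (c₀ % p) + j := (hc₀ _).2 (Nat.mod_modEq _ _)
      have h2 : c₀ % p ∈ Ico 1 p := mem_Ico.2 ⟨Nat.pos_of_ne_zero fun h =>
        hJ j hj (by simpa [h] using h1), Nat.mod_lt _ hp.pos⟩
      rw [← mul_sum, ← sum_mul, mul_comm]
      refine mul_le_mul_of_nonneg_right ?_ (hω j)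
      rw [← add_sum_erase _ _ h2, if_pos h1]
      have h3 := sum_le_card_nsmul ((Ico 1 p).erase (c₀ % p))
        (fun c => if p ∣ r * c + j then (p : ℝ)⁻¹ else 1) 1 fun c _ => by
          split_ifs
          exacts [inv_le_one_of_one_le₀ hp1.le, le_rfl]
      rw [card_erase_of_mem h2, Nat.card_Ico, nsmul_eq_mul, Nat.cast_sub (by have := hp.two_le; omega),
        Nat.cast_sub hp.one_le] at h3
      rw [sum_const, Nat.card_Ico, nsmul_eq_mul, Nat.cast_sub hp.one_le]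
      have : (p : ℝ) * (p : ℝ)⁻¹ = 1 := mul_inv_cancel₀ (by positivity)
      push_cast at h3 ⊢
      linarith only [this, h3])
  rw [mem_Ico] at hc
  exact ⟨c, Nat.not_dvd_of_pos_of_lt hc.1 hc.2, h⟩

lemma exists_res_all {r : ℕ} (S : Finset ℕ) (hS : ∀ p ∈ S, p.Prime ∧ ¬ p ∣ r) (J : Finset ℕ)
    (hJ : ∀ p ∈ S, ∀ j ∈ J, ¬ p ∣ j) :
    ∃ c : ℕ → ℕ, (∀ p, p.Prime → ¬ p ∣ c p) ∧
      ∑ j ∈ J, ∏ p ∈ S, (if p ∣ r * c p + j then (p : ℝ)⁻¹ else 1)
        ≤ (∏ p ∈ S, (1 - (p : ℝ)⁻¹)) * J.card := by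
  induction S using Finset.induction_on with
  | empty => exact ⟨fun _ => 1, fun p hp => hp.not_dvd_one, by simp⟩
  | insert q S hq ih =>
    obtain ⟨c, h1, h2⟩ := ih (fun p hp => hS p (mem_insert_of_mem hp))
      fun p hp => hJ p (mem_insert_of_mem hp)
    obtain ⟨hq1, hq2⟩ := hS q (mem_insert_self _ _)
    obtain ⟨c', h3, h4⟩ := exists_res hq1 hq2 J (hJ q (mem_insert_self _ _))
      (fun j => ∏ p ∈ S, (if p ∣ r * c p + j then (p : ℝ)⁻¹ else 1))
      fun j => prod_nonneg fun _ _ => by split_ifs <;> positivity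
    refine ⟨Function.update c q c', fun p hp => ?_, ?_⟩
    · by_cases h : p = q
      · subst h; simpa using h3
      · rw [Function.update_of_ne h]; exact h1 p hp
    · have h5 : (q : ℝ)⁻¹ ≤ 1 := inv_le_one_of_one_le₀ (by exact_mod_cast hq1.one_le)
      rw [prod_insert hq, mul_assoc]
      refine le_trans (le_of_eq (sum_congr rfl fun j _ => ?_))
        (h4.trans (mul_le_mul_of_nonneg_left h2 (by linarith only [h5])))
      rw [prod_insert hq, Function.update_self, mul_comm]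
      exact congrArg (· * _) (prod_congr rfl fun p hp => by
        rw [Function.update_of_ne (ne_of_mem_of_not_mem hp hq)])

/-- product measure on the subsets of `M` -/
def mu (η : ℝ) (M U : Finset ℕ) : ℝ := (∏ _p ∈ U, (1 - η)) * ∏ _p ∈ M \ U, η

lemma exp_prod (η : ℝ) (M : Finset ℕ) (f g : ℕ → ℝ) :
    ∑ U ∈ M.powerset, mu η M U * ((∏ p ∈ U, f p) * ∏ p ∈ M \ U, g p)
      = ∏ p ∈ M, ((1 - η) * f p + η * g p) := by
  rw [prod_add]
  exact sum_congr rfl fun U _ => by rw [mu, prod_mul_distrib, prod_mul_distrib]; ring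

lemma mu_nonneg {η : ℝ} (h0 : 0 ≤ η) (h1 : η ≤ 1) (M U : Finset ℕ) : 0 ≤ mu η M U :=
  mul_nonneg (prod_nonneg fun _ _ => by linarith) (prod_nonneg fun _ _ => h0)

lemma exists_subset {η : ℝ} (h0 : 0 ≤ η) (h1 : η ≤ 1) (M : Finset ℕ) (A B C : Finset ℕ → ℝ)
    (hA0 : ∀ U ⊆ M, 0 ≤ A U) (hB0 : ∀ U ⊆ M, 0 ≤ B U) (hC0 : ∀ U ⊆ M, 0 ≤ C U) {a b c : ℝ}
    (ha : 0 < a) (hb : 0 < b) (hc : 0 < c) (hA : ∑ U ∈ M.powerset, mu η M U * A U ≤ a)
    (hB : ∑ U ∈ M.powerset, mu η M U * B U ≤ b) (hC : ∑ U ∈ M.powerset, mu η M U * C U ≤ c) :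
    ∃ U ⊆ M, A U ≤ 3 * a ∧ B U ≤ 3 * b ∧ C U ≤ 3 * c := by
  obtain ⟨U, hU, h⟩ := exists_min_image M.powerset (fun U => A U / a + B U / b + C U / c)
    ⟨∅, empty_mem_powerset _⟩
  have h2 : ∑ U ∈ M.powerset, mu η M U = 1 := by simpa using exp_prod η M (fun _ => 1) fun _ => 1
  have h3 : A U / a + B U / b + C U / c ≤ 3 := by
    calc _ = ∑ V ∈ M.powerset, mu η M V * (A U / a + B U / b + C U / c) := by
          rw [← sum_mul, h2, one_mul]
      _ ≤ ∑ V ∈ M.powerset, mu η M V * (A V / a + B V / b + C V / c) :=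
          sum_le_sum fun V hV => mul_le_mul_of_nonneg_left (h V hV) (mu_nonneg h0 h1 _ _)
      _ ≤ _ := by
          simp_rw [mul_add, sum_add_distrib, ← mul_div_assoc, ← sum_div]
          linarith only [ha, hA, hb, hB, hc, hC, (div_le_one ha).2 hA, (div_le_one hb).2 hB, (div_le_one hc).2 hC]
  rw [mem_powerset] at hU
  have a1 := div_nonneg (hA0 U hU) ha.le
  have a2 := div_nonneg (hB0 U hU) hb.le
  have a3 := div_nonneg (hC0 U hU) hc.le
  exact ⟨U, hU, (div_le_iff₀ ha).1 (by linarith only [h3, a2, a3]), (div_le_iff₀ hb).1 (by linarith only [h3, a1, a3]),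
    (div_le_iff₀ hc).1 (by linarith only [h3, a1, a2])⟩

lemma sum_inv_le {M : Finset ℕ} {w : ℕ} (hM : ∀ p ∈ M, p.Prime ∧ p ≤ w) :
    ∑ p ∈ M, (p : ℝ)⁻¹ ≤ 1 + Real.log w := by
  refine le_trans ?_ (HH_le w)
  simp only [HH, one_div]
  exact sum_le_sum_of_subset_of_nonneg (fun p hp => mem_Icc.2 ⟨(hM p hp).1.one_le, (hM p hp).2⟩)
    fun _ _ _ => by positivity

lemma expA {η : ℝ} (h0 : 0 ≤ η) {M : Finset ℕ} {w : ℕ} (hM : ∀ p ∈ M, p.Prime ∧ p ≤ w)
    (hη : η * (1 + Real.log w) ≤ 1 / 2) :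
    ∑ U ∈ M.powerset, mu η M U * ∏ p ∈ M \ U, (1 - (p : ℝ)⁻¹)⁻¹ ≤ 3 := by
  have e := exp_prod η M (fun _ => 1) fun p => (1 - (p : ℝ)⁻¹)⁻¹
  simp only [prod_const_one, one_mul] at e
  rw [e]
  calc _ ≤ ∏ p ∈ M, Real.exp (2 * η * (p : ℝ)⁻¹) := by
        refine prod_le_prod (fun p hp => ?_) fun p hp => le_trans ?_ (Real.add_one_le_exp _)
        all_goals
          have h2 : (2 : ℝ) ≤ p := by exact_mod_cast (hM p hp).1.two_le
          have h3 : (p : ℝ)⁻¹ ≤ 1 / 2 := by rw [one_div]; exact inv_anti₀ (by norm_num) h2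
          have h4 : (0 : ℝ) ≤ (p : ℝ)⁻¹ := by positivity
          have h5 : 1 ≤ (1 - (p : ℝ)⁻¹)⁻¹ := one_le_inv_iff₀.2 ⟨by linarith only [h3], by linarith only [h4]⟩
          have h6 : (1 - (p : ℝ)⁻¹)⁻¹ ≤ 1 + 2 * (p : ℝ)⁻¹ := by
            rw [inv_le_iff_one_le_mul₀ (by linarith only [h3])]; linarith only [h3, h4, mul_nonneg_of_nonpos_of_nonpos (Mathlib.Tactic.Linarith.sub_nonpos_of_le h3) (Mathlib.Tactic.Linarith.sub_nonpos_of_le h4)]
          linarith only [h0, h5, h6, mul_nonneg_of_nonpos_of_nonpos (Mathlib.Tactic.Linarith.sub_nonpos_of_le h0) (Mathlib.Tactic.Linarith.sub_nonpos_of_le h5), mul_nonneg_of_nonpos_of_nonpos (Mathlib.Tactic.Linarith.sub_nonpos_of_le h0) (Mathlib.Tactic.Linarith.sub_nonpos_of_le h6)]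
    _ ≤ Real.exp 1 := by
        rw [← Real.exp_sum, ← mul_sum]
        exact Real.exp_le_exp.2 (by linarith only [hη, h0, hM, sum_inv_le hM, mul_nonneg_of_nonpos_of_nonpos (Mathlib.Tactic.Linarith.sub_nonpos_of_le h0) (Mathlib.Tactic.Linarith.sub_nonpos_of_le (sum_inv_le hM))])
    _ ≤ 3 := Real.exp_one_lt_three.le

lemma prod_le_prod_add {η : ℝ} (h0 : 0 ≤ η) (h1 : η ≤ 1) (S : Finset ℕ) (a : ℕ → ℝ)
    (ha0 : ∀ p, 0 ≤ a p) (ha1 : ∀ p, a p ≤ 1) :
    ∏ p ∈ S, ((1 - η) * a p + η) ≤ ∏ p ∈ S, a p + η * S.card := by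
  induction S using Finset.induction_on with
  | empty => simp
  | insert q S hq ih =>
    rw [prod_insert hq, prod_insert hq, card_insert_of_notMem hq]
    have b0 : 0 ≤ ∏ p ∈ S, ((1 - η) * a p + η) :=
      prod_nonneg fun p _ => by linarith only [h0, h1, ha0, ha0 p, mul_nonneg_of_nonpos_of_nonpos (Mathlib.Tactic.Linarith.sub_nonpos_of_le h1) (Mathlib.Tactic.Linarith.sub_nonpos_of_le (ha0 p))]
    have b1 : ∏ p ∈ S, ((1 - η) * a p + η) ≤ 1 :=
      prod_le_one (fun p _ => by linarith only [h0, h1, ha0, ha0 p, mul_nonneg_of_nonpos_of_nonpos (Mathlib.Tactic.Linarith.sub_nonpos_of_le h1) (Mathlib.Tactic.Linarith.sub_nonpos_of_le (ha0 p))]) fun p _ => by linarith only [h1, ha1, ha1 p, mul_nonneg_of_nonpos_of_nonpos (Mathlib.Tactic.Linarith.sub_nonpos_of_le h1) (Mathlib.Tactic.Linarith.sub_nonpos_of_le (ha1 p))]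
    have b2 : 0 ≤ η * S.card := by positivity
    push_cast
    linarith only [ih, ha0, h0, b0, ha1, b2, b1, mul_le_mul_of_nonneg_left ih (ha0 q), mul_nonneg (mul_nonneg h0 (ha0 q)) b0,
      mul_le_mul_of_nonneg_right (ha1 q) b2, mul_le_mul_of_nonneg_left b1 h0]

lemma sum_smooth_le {M : Finset ℕ} {A H : ℕ} (hA : A ≠ 0) (J : Finset ℕ) (hJ : J ⊆ Icc 1 H)
    (hM : ∀ j ∈ J, ∀ q, q.Prime → q ∣ j → q ∣ A ∨ q ∈ M) (hM' : ∀ p ∈ M, p.Prime) :
    ∑ j ∈ J, ∏ p ∈ M with p ∣ j, (p : ℝ)⁻¹ ≤ √H * (A.divisors.card * (1 + Real.log H)) := by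
  have h1 : ∀ j, ∃ x : ℕ × ℕ × ℕ, j ∈ J → x ∈ Icc 1 H.sqrt ×ˢ (A.divisors ×ˢ Icc 1 H) ∧
      j = x.1 ^ 2 * (x.2.1 * x.2.2) ∧ ∏ p ∈ M with p ∣ j, (p : ℝ)⁻¹ ≤ 1 / (x.2.2 : ℝ) := fun j => by
    obtain ⟨a, s, e, ha⟩ := Nat.sq_mul_squarefree j
    obtain ⟨a₂, e₂⟩ := Nat.gcd_dvd_left a A
    refine ⟨(s, a.gcd A, a₂), fun hj => ?_⟩
    obtain ⟨hj1, hj2⟩ := mem_Icc.1 (hJ hj)
    have hs : s ≠ 0 := by rintro rfl; simp at e; omega
    have ha₂ : a₂ ≠ 0 := by rintro rfl; exact ha.ne_zero (by simpa using e₂)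
    have d1 : a₂ ∣ a := e₂ ▸ dvd_mul_left _ _
    have d2 : a ∣ j := e ▸ dvd_mul_left _ _
    refine ⟨?_, by rw [← e₂, e], ?_⟩
    · simp only [mem_product, mem_Icc, Nat.mem_divisors]
      exact ⟨⟨Nat.pos_of_ne_zero hs, Nat.le_sqrt'.2
        ((Nat.le_of_dvd hj1 (e ▸ dvd_mul_right _ _)).trans hj2)⟩,
        ⟨Nat.gcd_dvd_right _ _, hA⟩, Nat.pos_of_ne_zero ha₂, (Nat.le_of_dvd hj1 (d1.trans d2)).trans hj2⟩
    · rw [prod_inv_distrib, one_div, ← Nat.cast_prod]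
      refine inv_anti₀ (by positivity) (Nat.cast_le.2 ?_)
      refine (Nat.prod_primeFactors_of_squarefree (ha.squarefree_of_dvd d1)).symm.le.trans
        (prod_le_prod_of_subset_of_one_le' (t := M.filter (· ∣ j)) (fun q hq => ?_)
          fun p hp _ => (hM' p (mem_filter.1 hp).1).one_le)
      have hq1 := Nat.prime_of_mem_primeFactors hq
      have hq2 := Nat.dvd_of_mem_primeFactors hq
      refine mem_filter.2 ⟨(hM j hj q hq1 (hq2.trans (d1.trans d2))).resolve_left fun h => ?_,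
        hq2.trans (d1.trans d2)⟩
      exact hq1.ne_one (Nat.isUnit_iff.1 (ha q
        (e₂ ▸ mul_dvd_mul (Nat.dvd_gcd (hq2.trans d1) h) hq2)))
  choose φ hφ using h1
  refine (sum_le_of_injOn J _ _ (fun x => 1 / (x.2.2 : ℝ)) φ (fun j hj j' hj' h => ?_)
    (fun j hj => (hφ j hj).1) (fun _ _ => by positivity) fun j hj => (hφ j hj).2.2).trans ?_
  · rw [(hφ j hj).2.1, (hφ j' hj').2.1, h]
  · simp only [sum_product, sum_const, Nat.card_Icc, Nat.add_sub_cancel, nsmul_eq_mul]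
    gcongr
    · exact Real.nat_sqrt_le_real_sqrt
    · exact HH_le H

lemma expB {η : ℝ} (h0 : 0 ≤ η) (h1 : η ≤ 1) {M : Finset ℕ} {w A H : ℕ} (hA : A ≠ 0)
    (J : Finset ℕ) (hJ : J ⊆ Icc 1 H) (hM : ∀ j ∈ J, ∀ q, q.Prime → q ∣ j → q ∣ A ∨ q ∈ M)
    (hM' : ∀ p ∈ M, p.Prime ∧ p ≤ w) :
    ∑ U ∈ M.powerset, mu η M U * ∑ j ∈ J, ∏ p ∈ U, (if p ∣ j then (p : ℝ)⁻¹ else 1)
      ≤ √H * (A.divisors.card * (1 + Real.log H)) + η * (H * (1 + Real.log w)) := by
  simp_rw [mul_sum]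
  rw [sum_comm]
  calc _ ≤ ∑ j ∈ J, (∏ p ∈ M with p ∣ j, (p : ℝ)⁻¹ + η * ∑ p ∈ M, if p ∣ j then 1 else 0) := by
        refine sum_le_sum fun j _ => ?_
        have e := exp_prod η M (fun p => if p ∣ j then (p : ℝ)⁻¹ else 1) fun _ => 1
        simp only [prod_const_one, mul_one] at e
        rw [e, sum_boole]
        refine le_trans (le_of_eq ?_) (prod_le_prod_add h0 h1 _ (fun p => (p : ℝ)⁻¹)
          (fun _ => by positivity) fun p => Nat.cast_inv_le_one p)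
        rw [prod_filter]
        exact prod_congr rfl fun p _ => by split_ifs <;> ring
    _ ≤ _ := by
        rw [sum_add_distrib, ← mul_sum, sum_comm]
        refine add_le_add (sum_smooth_le hA J hJ hM fun p hp => (hM' p hp).1)
          (mul_le_mul_of_nonneg_left (le_trans ?_ (mul_le_mul_of_nonneg_left (sum_inv_le hM')
            (Nat.cast_nonneg _))) h0)
        rw [mul_sum]
        refine sum_le_sum fun p _ => ?_
        rw [sum_boole, ← div_eq_mul_inv]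
        refine le_trans ?_ Nat.cast_div_le
        rw [← Nat.Ioc_filter_dvd_card_eq_div]
        exact_mod_cast card_le_card (filter_subset_filter _ hJ)

variable {α : Type*} [Fintype α] {pr : α → ℕ}

lemma expC {η κ : ℝ} (h0 : 0 ≤ η) (h1 : η ≤ 1) (hκ0 : 0 ≤ κ) (hκ : κ ≤ 1 / 2) {M : Finset ℕ}
    {w P p₁ k : ℕ} (hκη : κ * Real.log w ≤ η) (hM : ∀ p ∈ M, p.Prime ∧ p ≤ w ∧ ¬ p ∣ P)
    (hP : 0 < P) (hp₁ : p₁.Prime) (hp₁P : ¬ p₁ ∣ P) (hp₁M : p₁ ∉ M)
    (hpr : ∀ p, w < pr p ∧ pr p ≠ p₁ ∧ (10 * k) ^ 2 ≤ pr p) (f : ℕ) :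
    ∑ U ∈ M.powerset, mu η M U * beta pr k (P * ∏ p ∈ U, p) f ≤ P * sav p₁ κ f := by
  have hdvd : ∀ U ∈ M.powerset, ∀ q, q.Prime → q ∣ P * ∏ p ∈ U, p → q ∣ P ∨ q ∈ U :=
    fun U hU q hq h => ((Nat.Prime.dvd_mul hq).1 h).imp_right fun h => by
      obtain ⟨p, hp, h'⟩ := (Prime.dvd_finsetProd_iff hq.prime _).1 h
      rwa [(Nat.prime_dvd_prime_iff_eq hq (hM p (mem_powerset.1 hU hp)).1).1 h']
  by_cases h : Squarefree f ∧ ∀ q ∈ f.primeFactors, (q ∣ P ∨ q ∈ M) ∨ ∃ p, pr p = q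
  swap
  · rw [sum_eq_zero]
    · exact mul_nonneg (Nat.cast_nonneg _) (sav_nonneg _ _ _)
    · intro U hU
      rw [beta, if_neg, mul_zero]
      exact fun h' => h ⟨h'.1, fun q hq => (h'.2 q hq).imp_left fun h'' => (hdvd U hU q
        (Nat.prime_of_mem_primeFactors hq) h'').imp_right fun h => mem_powerset.1 hU h⟩
  have hf : ¬ p₁ ∣ f := fun h' => by
    rcases h.2 p₁ (Nat.mem_primeFactors.2 ⟨hp₁, h', h.1.ne_zero⟩) with (h | h) | ⟨p, h⟩
    exacts [hp₁P h, hp₁M h, (hpr p).2.1 h]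
  have hf0 : (0 : ℝ) < f := by exact_mod_cast Nat.pos_of_ne_zero h.1.ne_zero
  have hB : 0 ≤ ∏ p with pr p ∣ f, 10 * k * (pr p : ℝ)⁻¹ := prod_nonneg fun _ _ => by positivity
  have h2 : (f : ℝ) ≤ P * ((∏ p ∈ M with p ∣ f, (p : ℝ)) * ∏ p with pr p ∣ f, (pr p : ℝ)) := by
    rw [← Nat.cast_prod, ← Nat.cast_prod, ← Nat.cast_mul, ← Nat.cast_mul, Nat.cast_le]
    refine Nat.le_of_dvd (Nat.mul_pos hP (Nat.mul_pos (prod_pos fun p hp =>
      (hM p (mem_filter.1 hp).1).1.pos) (prod_pos fun p _ => (Nat.zero_le _).trans_lt (hpr p).1))) ?_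
    refine (Nat.prod_primeFactors_of_squarefree h.1).symm.dvd.trans (prod_primes_dvd _
      (fun q hq => (Nat.prime_of_mem_primeFactors hq).prime) fun q hq => ?_)
    have hq' := Nat.dvd_of_mem_primeFactors hq
    rcases h.2 q hq with (h | h) | ⟨p, rfl⟩
    · exact h.mul_right _
    · exact ((dvd_prod_of_mem _ (mem_filter.2 ⟨h, hq'⟩)).mul_right _).mul_left _
    · exact ((dvd_prod_of_mem pr (mem_filter.2 ⟨mem_univ p, hq'⟩)).mul_left _).mul_left _
  calc _ ≤ ∑ U ∈ M.powerset, mu η M U * ((∏ _p ∈ U, 1) * ∏ p ∈ M \ U, if p ∣ f then 0 else 1)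
        * ∏ p with pr p ∣ f, 10 * k * (pr p : ℝ)⁻¹ := by
        refine sum_le_sum fun U hU => ?_
        rw [mul_assoc]
        refine mul_le_mul_of_nonneg_left ?_ (mu_nonneg h0 h1 _ _)
        unfold beta
        split_ifs with h'
        · rw [prod_const_one, one_mul, prod_eq_one (s := M \ U), one_mul]
          intro p hp
          obtain ⟨hp1, hp2⟩ := mem_sdiff.1 hp
          refine if_neg fun hpf => ?_
          rcases h'.2 p (Nat.mem_primeFactors.2 ⟨(hM p hp1).1, hpf, h.1.ne_zero⟩) with h'' | ⟨q, rfl⟩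
          · exact (hdvd U hU p (hM p hp1).1 h'').elim (hM p hp1).2.2 hp2
          · exact (hpr q).1.not_ge (hM _ hp1).2.1
        · exact mul_nonneg (mul_nonneg (by simp)
            (prod_nonneg fun _ _ => by split_ifs <;> norm_num)) hB
    _ = (∏ p ∈ M with p ∣ f, (1 - η)) * ∏ p with pr p ∣ f, 10 * k * (pr p : ℝ)⁻¹ := by
        rw [← sum_mul, exp_prod, prod_filter (s := M)]
        exact congrArg (· * _) (prod_congr rfl fun p _ => by split_ifs <;> ring)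
    _ ≤ _ := by
        rw [sav, if_pos ⟨h.1, hf⟩, Real.rpow_neg hf0.le, ← div_eq_mul_inv,
          le_div_iff₀ (by positivity)]
        have hA : 0 ≤ ∏ p ∈ M with p ∣ f, (1 - η) := prod_nonneg fun _ _ => by linarith only [h1]
        refine (mul_le_mul_of_nonneg_left (Real.rpow_le_rpow hf0.le h2 hκ0)
          (mul_nonneg hA hB)).trans ?_
        rw [Real.mul_rpow (by positivity) (by positivity),
          Real.mul_rpow (by positivity) (by positivity),
          ← Real.finsetProd_rpow _ _ (fun _ _ => by positivity),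
          ← Real.finsetProd_rpow _ _ (fun _ _ => by positivity), mul_left_comm, mul_mul_mul_comm,
          ← prod_mul_distrib, ← prod_mul_distrib]
        refine le_trans (mul_le_of_le_one_right (by positivity) (mul_le_one₀ (prod_le_one
          (fun _ _ => mul_nonneg (by linarith only [h1]) (by positivity)) fun p hp => ?_)
          (prod_nonneg fun _ _ => by positivity) (prod_le_one
          (fun _ _ => by positivity) fun p _ => ?_))) (Real.rpow_le_self_of_one_le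
            (by exact_mod_cast hP) (by linarith only [hκ]))
        · obtain ⟨b1, b2, -⟩ := hM p (mem_filter.1 hp).1
          have b3 : (p : ℝ) ^ κ ≤ Real.exp η := by
            rw [Real.rpow_def_of_pos (by exact_mod_cast b1.pos)]
            exact Real.exp_le_exp.2 (by linarith only [hκη, hκ0, b2, log_nat_mono b2, mul_nonneg_of_nonpos_of_nonpos (Mathlib.Tactic.Linarith.sub_nonpos_of_le hκ0) (Mathlib.Tactic.Linarith.sub_nonpos_of_le (log_nat_mono b2))])
          calc _ ≤ Real.exp (-η) * Real.exp η := by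
                gcongr; linarith only [Real.add_one_le_exp (-η)]
            _ = 1 := by rw [← Real.exp_add]; simp
        · obtain ⟨b1, -, b2⟩ := hpr p
          have b0 : (1 : ℝ) ≤ pr p := by exact_mod_cast (by omega)
          have b3 : (pr p : ℝ) ^ κ ≤ √(pr p) := by
            rw [Real.sqrt_eq_rpow]; exact Real.rpow_le_rpow_of_exponent_le b0 hκ
          have b4 : (10 * k : ℝ) ≤ √(pr p) := Real.le_sqrt_of_sq_le (by exact_mod_cast b2)
          calc _ ≤ √(pr p) * (pr p : ℝ)⁻¹ * √(pr p) := by gcongr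
            _ = 1 := by rw [mul_right_comm, Real.mul_self_sqrt (by positivity)]; field_simp

lemma one_le_eul {p : ℕ} (hp : p.Prime) : 1 ≤ (1 - (p : ℝ)⁻¹)⁻¹ ∧ (1 - (p : ℝ)⁻¹)⁻¹ ≤ 2 := by
  have h2 : (2 : ℝ) ≤ p := by exact_mod_cast hp.two_le
  have h3 : (p : ℝ)⁻¹ ≤ 1 / 2 := by rw [one_div]; exact inv_anti₀ (by norm_num) h2
  have h4 : (0 : ℝ) ≤ (p : ℝ)⁻¹ := by positivity
  exact ⟨one_le_inv_iff₀.2 ⟨by linarith only [h3], by linarith only [h4]⟩,
    by rw [inv_le_iff_one_le_mul₀ (by linarith only [h3])]; linarith only [h3]⟩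

lemma log_le_eul {w : ℕ} {s t : Finset ℕ} (hs : ∀ p ∈ s, p.Prime) (ht : ∀ p ∈ t, p.Prime)
    (h : ∀ p, p.Prime → p ≤ w → p ∈ s ∨ p ∈ t) :
    Real.log w * ∏ p ∈ s, (1 - (p : ℝ)⁻¹) ≤ ∏ p ∈ t, (1 - (p : ℝ)⁻¹)⁻¹ := by
  have h1 : Real.log w ≤ (∏ p ∈ s, (1 - (p : ℝ)⁻¹)⁻¹) * ∏ p ∈ t, (1 - (p : ℝ)⁻¹)⁻¹ := by
    rw [← prod_union_inter]
    refine ((log_le_prod_one_sub_inv_prime_inv w).trans (prod_le_prod_of_subset_of_one_le
      (fun p hp => ?_) (fun p hp => ?_) fun p hp _ => ?_)).trans (le_mul_of_one_le_right ?_ ?_)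
    · simp only [mem_filter, mem_Ioc] at hp
      exact mem_union.2 (h p hp.2 hp.1.2)
    · exact zero_le_one.trans (one_le_eul (mem_filter.1 hp).2).1
    · exact (one_le_eul ((mem_union.1 hp).elim (hs p) (ht p))).1
    · exact prod_nonneg fun p hp =>
        zero_le_one.trans (one_le_eul ((mem_union.1 hp).elim (hs p) (ht p))).1
    · exact one_le_prod fun p hp => (one_le_eul (hs p (mem_inter.1 hp).1)).1
  have h2 : 0 < ∏ p ∈ s, (1 - (p : ℝ)⁻¹) :=
    prod_pos fun p hp => inv_pos.1 (zero_lt_one.trans_le (one_le_eul (hs p hp)).1)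
  rwa [prod_inv_distrib, mul_comm, ← div_eq_mul_inv, le_div_iff₀ h2] at h1

theorem cover {η κ E : ℝ} (h0 : 0 ≤ η) (hκ0 : 0 ≤ κ) (hκ : κ ≤ 1 / 2) {y w H p₁ k r F : ℕ}
    (hκη : κ * Real.log w ≤ η) (hη : η * (1 + Real.log w) ≤ 1 / 2) (hy : 1 < y) (hyw : y ≤ w)
    (hH0 : 0 < H) (hH : H ≤ 21 * w) (hr : r.Prime) (hp₁ : p₁.Prime) (hyp : y < p₁)
    (hpr : ∀ p, w < pr p ∧ pr p ≠ p₁ ∧ (10 * k) ^ 2 ≤ pr p) (Ψ : ℕ → ℝ) (hΨ : ∀ f, 0 ≤ Ψ f)
    (hE0 : 0 < E) (hE : ∑ f ∈ Icc 2 F, Ψ f * sav p₁ κ f ≤ E) :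
    ∃ W b : ℕ, ∃ d : ℕ → ℕ, W ∣ primorial w ∧ (∀ i, Nat.Coprime (b + primorial y ^ (i + 1)) W) ∧
      Real.log w * W.totient ≤ 18 * W ∧ (∀ j n, n ≡ b [MOD W] → d j ∣ r * n + j) ∧
      (∀ j q, q.Prime → q ∣ d j → q ≤ w) ∧
      ∑ j ∈ Icc 1 H, (d j : ℝ)⁻¹ ≤ 2 ^ 23 / Real.log y * (21 * H.primeCounting)
        + 3 * (√H * (2 * primorial y * (1 + Real.log H)) + η * (H * (1 + Real.log w))) ∧
      ∑ f ∈ Icc 2 F, Ψ f * beta pr k W f ≤ 3 * (primorial y * E) := by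
  classical
  set P := primorial y with hP
  have hP0 : 0 < P := primorial_pos y
  have hPd : ∀ {p}, p.Prime → (p ∣ P ↔ p ≤ y) := fun hp => hp.dvd_primorial_iff
  have hl := Real.log_natCast_nonneg w
  have hlH := Real.log_natCast_nonneg H
  have h1 : η ≤ 1 := by linarith only [hη, h0, hl, mul_nonneg_of_nonpos_of_nonpos (Mathlib.Tactic.Linarith.sub_nonpos_of_le h0) (Mathlib.Tactic.Linarith.sub_nonpos_of_le hl)]
  set M := ((Ioc y w).filter Nat.Prime).erase p₁ with hM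
  have hMm : ∀ p, p ∈ M ↔ p ≠ p₁ ∧ (y < p ∧ p ≤ w) ∧ p.Prime := fun p => by simp [hM]
  have hM' : ∀ p ∈ M, p.Prime ∧ p ≤ w := fun p hp => ⟨((hMm p).1 hp).2.2, ((hMm p).1 hp).2.1.2⟩
  set big : ℕ → Prop := fun j => ∃ q, q.Prime ∧ w < q ∧ q ∣ j with hbig
  obtain ⟨U, hU, hA, hB, hC⟩ := exists_subset h0 h1 M (fun U => ∏ p ∈ M \ U, (1 - (p : ℝ)⁻¹)⁻¹)
    (fun U => ∑ j ∈ Icc 1 H with ¬ big j, ∏ p ∈ U, (if p ∣ j then (p : ℝ)⁻¹ else 1))
    (fun U => ∑ f ∈ Icc 2 F, Ψ f * beta pr k (P * ∏ p ∈ U, p) f)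
    (fun U _ => prod_nonneg fun p hp => zero_le_one.trans (one_le_eul (hM' p (mem_sdiff.1 hp).1).1).1)
    (fun U _ => sum_nonneg fun _ _ => prod_nonneg fun _ _ => by split_ifs <;> positivity)
    (fun U _ => sum_nonneg fun _ _ => mul_nonneg (hΨ _) (beta_nonneg _ _ _))
    (a := 3) (b := √H * (2 * P * (1 + Real.log H)) + η * (H * (1 + Real.log w))) (c := P * E)
    (by norm_num) (by positivity) (by positivity) (expA h0 hM' hη)
    ((expB h0 h1 (mul_ne_zero hp₁.ne_zero hP0.ne') _ (filter_subset _ _) (fun j hj q hq hqj => by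
      by_cases a1 : q = p₁
      · exact Or.inl (a1 ▸ dvd_mul_right _ _)
      by_cases a2 : q ≤ y
      · exact Or.inl (((hPd hq).2 a2).mul_left _)
      exact Or.inr ((hMm q).2 ⟨a1, ⟨not_le.1 a2, not_lt.1 fun a3 =>
        (mem_filter.1 hj).2 ⟨q, hq, a3, hqj⟩⟩, hq⟩)) hM').trans (by
      clear * - H p₁ P η w hp₁ hH0
      gcongr
      rw [Nat.divisors_mul, hp₁.divisors]
      exact_mod_cast card_mul_le.trans (Nat.mul_le_mul card_le_two (Nat.card_divisors_le_self P))))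
    (by
      simp_rw [mul_sum]
      rw [sum_comm]
      refine le_trans (sum_le_sum fun f _ => ?_) ((mul_sum _ _ _).symm.trans_le
        (mul_le_mul_of_nonneg_left hE (Nat.cast_nonneg P)))
      simp_rw [mul_left_comm _ (Ψ f)]
      rw [← mul_sum]
      exact mul_le_mul_of_nonneg_left (expC h0 h1 hκ0 hκ hκη (fun p hp => ⟨(hM' p hp).1,
        (hM' p hp).2, fun h => ((hMm p).1 hp).2.1.1.not_ge ((hPd (hM' p hp).1).1 h)⟩) hP0 hp₁
        (fun h => hyp.not_ge ((hPd hp₁).1 h)) (notMem_erase _ _) hpr f) (hΨ f))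
  set S := ((Ioc 21 y).filter Nat.Prime).erase r with hS
  have hSm : ∀ p, p ∈ S ↔ p ≠ r ∧ (21 < p ∧ p ≤ y) ∧ p.Prime := fun p => by simp [hS]
  have hcof : ∀ j ∈ (Icc 1 H).filter big, ∃ a q, q.Prime ∧ w < q ∧ j = a * q ∧ 1 ≤ a ∧ a ≤ 21 := by
    clear * - big H w y hH hy hyw
    intro j hj
    obtain ⟨hj1, q, hq, hwq, a, rfl⟩ := mem_filter.1 hj
    rw [mem_Icc] at hj1
    exact ⟨a, q, hq, hwq, mul_comm _ _, Nat.pos_of_ne_zero (by rintro rfl; simp at hj1),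
      by nlinarith only [hy, hyw, hH, hwq, hj1]⟩
  obtain ⟨c, hc1, hc2⟩ := exists_res_all (r := r) S (fun p hp => ⟨((hSm p).1 hp).2.2, fun h =>
    ((hSm p).1 hp).1 ((Nat.prime_dvd_prime_iff_eq ((hSm p).1 hp).2.2 hr).1 h)⟩)
    ((Icc 1 H).filter big) fun p hp j hj h => by
      obtain ⟨a, q, hq, hwq, rfl, a1, a2⟩ := hcof j hj
      obtain ⟨-, ⟨b1, b2⟩, b3⟩ := (hSm p).1 hp
      rcases (Nat.Prime.dvd_mul b3).1 h with h | h
      · have := Nat.le_of_dvd a1 h; omega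
      · have := (Nat.prime_dvd_prime_iff_eq b3 hq).1 h; omega
  obtain ⟨b, hb⟩ := Nat.chineseRemainderOfFinset (fun p => if p ≤ y then c p else 0) id
    (Nat.primesLE w) (fun p hp => (Nat.prime_of_mem_primesLE hp).ne_zero) fun p hp q hq h =>
      (Nat.coprime_primes (Nat.prime_of_mem_primesLE hp) (Nat.prime_of_mem_primesLE hq)).2 h
  have hb1 : ∀ p, p.Prime → p ≤ y → b ≡ c p [MOD p] := fun p hp h => by
    simpa [h] using hb p (Nat.mem_primesLE.2 ⟨h.trans hyw, hp⟩)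
  have hb2 : ∀ p ∈ U, p ∣ b := fun p hp => by
    obtain ⟨-, ⟨b1, b2⟩, b3⟩ := (hMm p).1 (hU hp)
    simpa [b1.not_ge, Nat.modEq_zero_iff_dvd] using hb p (Nat.mem_primesLE.2 ⟨b2, b3⟩)
  have hW : P * ∏ p ∈ U, p = ∏ p ∈ Nat.primesLE y ∪ U, p := by
    rw [prod_union (disjoint_left.2 fun p h h' =>
      ((hMm p).1 (hU h')).2.1.1.not_ge (Nat.le_of_mem_primesLE h))]; rfl
  have hWp : ∀ p ∈ Nat.primesLE y ∪ U, p.Prime := fun p hp =>
    (mem_union.1 hp).elim Nat.prime_of_mem_primesLE fun h => (hM' p (hU h)).1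
  have hW0 : P * ∏ p ∈ U, p ≠ 0 := hW ▸ prod_ne_zero_iff.2 fun p hp => (hWp p hp).ne_zero
  refine ⟨P * ∏ p ∈ U, p, b, fun j => if big j then ∏ p ∈ S with p ∣ r * c p + j, p
    else ∏ p ∈ U with p ∣ j, p, ?_, fun i => ?_, ?_, fun j n hn => ?_, fun j q hq h => ?_, ?_, hC⟩
  · rw [hW]
    exact prod_dvd_prod_of_subset _ _ _ fun p hp => Nat.mem_primesLE.2 ⟨(mem_union.1 hp).elim
      (fun h => (Nat.le_of_mem_primesLE h).trans hyw) fun h => (hM' p (hU h)).2, hWp p hp⟩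
  · refine Nat.coprime_of_dvd fun p hp h h' => ?_
    have h2 := Nat.mem_primeFactors.2 ⟨hp, h', hW0⟩
    rw [hW, Nat.primeFactors_prod hWp, mem_union] at h2
    rcases h2 with h2 | h2
    · have h3 := Nat.le_of_mem_primesLE h2
      exact hc1 p hp (((hb1 p hp h3).dvd_iff dvd_rfl).1
        ((Nat.dvd_add_left (dvd_pow ((hPd hp).2 h3) (by omega))).1 h))
    · exact ((hMm p).1 (hU h2)).2.1.1.not_ge
        ((hPd hp).1 (hp.dvd_of_dvd_pow ((Nat.dvd_add_right (hb2 p h2)).1 h)))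
  · have e := congrArg (Rat.cast : ℚ → ℝ) (Nat.totient_eq_mul_prod_factors (P * ∏ p ∈ U, p))
    simp only [Rat.cast_natCast, Rat.cast_mul, Rat.cast_prod, Rat.cast_sub, Rat.cast_one,
      Rat.cast_inv] at e
    rw [e, mul_left_comm, mul_comm 18]
    refine mul_le_mul_of_nonneg_left ?_ (Nat.cast_nonneg _)
    rw [hW, Nat.primeFactors_prod hWp]
    have h3 : p₁ ∉ M \ U := fun h => notMem_erase _ _ (mem_sdiff.1 h).1
    refine (log_le_eul (t := insert p₁ (M \ U)) hWp (fun p hp => (mem_insert.1 hp).elim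
      (fun h => h ▸ hp₁) fun h => (hM' p (mem_sdiff.1 h).1).1) fun p hp hpw => ?_).trans ?_
    · simp only [mem_union, mem_insert, mem_sdiff, hMm, Nat.mem_primesLE]
      by_cases a1 : p ≤ y
      · exact Or.inl (Or.inl ⟨a1, hp⟩)
      · have := not_le.1 a1
        clear * - p y U p₁ w this hpw hp; tauto
    · rw [prod_insert h3]
      clear * - p₁ M U hA hp₁ hM'; linarith only [hA, hp₁, one_le_eul hp₁, one_le_prod (s := M \ U) (f := fun p : ℕ => (1 - (p : ℝ)⁻¹)⁻¹)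
        fun p hp => (one_le_eul (hM' p (mem_sdiff.1 hp).1).1).1, mul_nonneg_of_nonpos_of_nonpos (Mathlib.Tactic.Linarith.sub_nonpos_of_le hA) (Mathlib.Tactic.Linarith.sub_nonpos_of_le (one_le_eul hp₁).left)]
  · beta_reduce
    split_ifs
    · refine prod_primes_dvd _ (fun p hp => ((hSm p).1 (mem_filter.1 hp).1).2.2.prime)
        fun p hp => ?_
      obtain ⟨a1, a2⟩ := mem_filter.1 hp
      obtain ⟨-, ⟨-, b2⟩, b3⟩ := (hSm p).1 a1
      exact (((((hn.of_dvd (((hPd b3).2 b2).mul_right _)).trans (hb1 p b3 b2)).mul_left r).add_right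
        j).dvd_iff dvd_rfl).2 a2
    · refine prod_primes_dvd _ (fun p hp => (hM' p (hU (mem_filter.1 hp).1)).1.prime)
        fun p hp => ?_
      obtain ⟨a1, a2⟩ := mem_filter.1 hp
      exact dvd_add ((((hn.of_dvd ((dvd_prod_of_mem _ a1).mul_left _)).dvd_iff dvd_rfl).2
        (hb2 p a1)).mul_left _) a2
  · beta_reduce at h
    split_ifs at h
    · obtain ⟨p, hp, h'⟩ := (Prime.dvd_finsetProd_iff hq.prime _).1 h
      obtain ⟨-, ⟨-, b2⟩, b3⟩ := (hSm p).1 (mem_filter.1 hp).1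
      exact (Nat.le_of_dvd b3.pos h').trans (b2.trans hyw)
    · obtain ⟨p, hp, h'⟩ := (Prime.dvd_finsetProd_iff hq.prime _).1 h
      obtain ⟨b3, b2⟩ := hM' p (hU (mem_filter.1 hp).1)
      exact (Nat.le_of_dvd b3.pos h').trans b2
  · rw [← sum_filter_add_sum_filter_not _ big]
    refine add_le_add (le_trans (le_of_eq (sum_congr rfl fun j hj => ?_)) (hc2.trans ?_))
      (le_trans (le_of_eq (sum_congr rfl fun j hj => ?_)) hB)
    · beta_reduce
      rw [if_pos (mem_filter.1 hj).2, Nat.cast_prod, ← prod_inv_distrib, prod_filter]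
    · have hly : 0 < Real.log y := Real.log_pos (by exact_mod_cast hy)
      refine mul_le_mul ?_ ?_ (Nat.cast_nonneg _) (by positivity)
      · rw [le_div_iff₀' hly]
        refine (log_le_eul (t := (insert r (range 22)).filter Nat.Prime)
          (fun p hp => ((hSm p).1 hp).2.2) (fun p hp => (mem_filter.1 hp).2)
          fun p hp hpy => ?_).trans ?_
        · simp only [hSm, mem_filter, mem_insert, mem_range, hp, and_true]
          omega
        · refine (prod_le_prod (g := fun _ => (2 : ℝ)) (fun p hp => zero_le_one.trans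
            (one_le_eul (mem_filter.1 hp).2).1) fun p hp => (one_le_eul (mem_filter.1 hp).2).2).trans ?_
          rw [prod_const]
          exact pow_le_pow_right₀ one_le_two ((card_filter_le _ _).trans
            ((card_insert_le _ _).trans (by simp)))
      · have : (Icc 1 H).filter big ⊆ image₂ (· * ·) (Icc 1 21) (Nat.primesLE H) := fun j hj => by
          obtain ⟨a, q, hq, -, rfl, a1, a2⟩ := hcof j hj
          exact mem_image₂_of_mem (mem_Icc.2 ⟨a1, a2⟩) (Nat.mem_primesLE.2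
            ⟨(Nat.le_mul_of_pos_left _ a1).trans (mem_Icc.1 (mem_filter.1 hj).1).2, hq⟩)
        exact_mod_cast (card_le_card this).trans ((card_image₂_le _ _ _).trans (by simp))
    · beta_reduce
      rw [if_neg (mem_filter.1 hj).2, Nat.cast_prod, ← prod_inv_distrib, prod_filter]

end Pool.Agent.Work.MP_52820d_nt
end
end

-- merged part: Pool.Agent.Work.MP_52820d_nt.Step
section
/-!
# The sieve argument with explicit parameters
-/

noncomputable section

open Finset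

namespace Pool.Agent.Work.MP_52820d_nt

open Pool.Agent.Lib.ANT

lemma log_two_pow (m : ℕ) : Real.log ((2 ^ m : ℕ) : ℝ) = m * Real.log 2 := by
  rw [Nat.cast_pow, Real.log_pow]; rfl

lemma num_basic {w : ℕ} (c1 : 10 ^ 8 ≤ Real.log w) (c9 : Real.log w ^ 200 ≤ w) :
    (∀ m ≤ 200, Real.log w ^ m ≤ w) ∧ (10 : ℝ) ^ 8 ≤ w ∧ Real.exp (Real.log w ^ 2) ≤ 2 ^ w ∧
      ∀ m : ℕ, m ≤ Real.log w → (w : ℝ) ^ m ≤ Real.exp (Real.log w ^ 2) := by
  have h1 : ∀ m ≤ 200, Real.log w ^ m ≤ w := fun m hm =>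
    (pow_le_pow_right₀ (by linarith only [c1]) hm).trans c9
  have h2 : (10 : ℝ) ^ 8 ≤ w := c1.trans (by simpa using h1 1 (by norm_num))
  refine ⟨h1, h2, ?_, fun m hm => ?_⟩
  · rw [← Real.exp_log (show (0 : ℝ) < 2 ^ w by positivity), Real.log_pow]
    refine Real.exp_le_exp.2 ?_
    linarith only [h2, h1, c1, h1 3 (by norm_num), Real.log_two_gt_d9, sq_nonneg (Real.log w), mul_nonneg_of_nonpos_of_nonpos (Mathlib.Tactic.Linarith.sub_nonpos_of_le (sq_nonneg (Real.log ↑w))) (Mathlib.Tactic.Linarith.sub_nonpos_of_le c1), mul_nonneg_of_nonpos_of_nonpos (Mathlib.Tactic.Linarith.sub_nonpos_of_le (Mathlib.Tactic.Linarith.natCast_nonneg ℝ w)) (le_of_lt (Mathlib.Tactic.Linarith.sub_neg_of_lt Real.log_two_gt_d9))]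
  · rw [← Real.exp_log (show (0 : ℝ) < w ^ m by positivity), Real.log_pow, sq]
    exact Real.exp_le_exp.2 (by gcongr)

lemma bv' {w Q p₁ h : ℕ} (c1 : 10 ^ 8 ≤ Real.log w) (c9 : Real.log w ^ 200 ≤ w) (hh : h ≤ w)
    (hQ1 : Real.exp (Real.log w ^ 6) ≤ Q) (hQ2 : Q ≤ Real.exp (2 * Real.log w ^ 6))
    (hSW : ∀ f : ℕ, 1 < f → f ≤ Q → Squarefree f → ¬ p₁ ∣ f → ∀ χ : DirichletCharacter ℂ f,
      χ.IsPrimitive → ∀ X : ℕ, Real.log Q ^ 26 ≤ Real.log X → Real.log X ≤ Q →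
        ‖∑ n ∈ range (X + 1), χ n * ArithmeticFunction.vonMangoldt n‖ ≤ X / Q ^ 3) :
    Real.log (2 ^ (28 * w) + 2 ^ (28 * w) + h : ℕ) ≤ 29 * w * Real.log 2 ∧
    ∑ f ∈ Icc 2 (2 ^ (4 * w)), Psi (2 ^ (28 * w) + h) (2 ^ (28 * w) + 2 ^ (28 * w) + h) f
      * sav p₁ (Real.log w ^ 4)⁻¹ f
        ≤ (2 ^ (28 * w) : ℕ) * w ^ 5 / Real.exp (Real.log w ^ 2) := by
  obtain ⟨h1, h2, h3, h4⟩ := num_basic c1 c9
  have hw : 10 ^ 8 ≤ w := by exact_mod_cast h2
  have hx : w ≤ 2 ^ (28 * w) := (Nat.lt_two_pow_self.le).trans (Nat.pow_le_pow_right two_pos (by omega))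
  have hb : 2 ^ (28 * w) + 2 ^ (28 * w) + h ≤ 2 ^ (29 * w) := by
    have : 2 ^ (28 * w) * 2 ^ 2 ≤ 2 ^ (29 * w) := by
      rw [← pow_add]; exact Nat.pow_le_pow_right two_pos (by omega)
    omega
  have hl : Real.log (2 ^ (28 * w) + 2 ^ (28 * w) + h : ℕ) ≤ 29 * w * Real.log 2 := by
    simpa using (Lib.LargeSieve.log_nat_mono hb).trans_eq (log_two_pow _)
  refine ⟨hl, ?_⟩
  have hl' : Real.log (2 ^ (28 * w) + 2 ^ (28 * w) + h : ℕ) ≤ 21 * w := by
    linarith only [h2, hl, Real.log_two_lt_d9, mul_nonneg_of_nonpos_of_nonpos (Mathlib.Tactic.Linarith.sub_nonpos_of_le (Mathlib.Tactic.Linarith.natCast_nonneg ℝ w)) (le_of_lt (Mathlib.Tactic.Linarith.sub_neg_of_lt Real.log_two_lt_d9))]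
  have hQ0 : (0 : ℝ) < Q := (Real.exp_pos _).trans_le hQ1
  have hQ3 : Real.exp (Real.log w ^ 2) ≤ Q := le_trans (Real.exp_le_exp.2
    (pow_le_pow_right₀ (by linarith only [c1]) (by norm_num))) hQ1
  refine (bv (by positivity) (by omega) (by omega) (by rw [← pow_mul]; ring_nf; omega)
    (by exact_mod_cast hQ0) hSW ?_ ?_).trans ?_
  · have a1 : Real.log Q ≤ Real.log w ^ 7 := ((Real.log_le_iff_le_exp hQ0).2 hQ2).trans (by
      rw [pow_succ' _ 6]; gcongr; linarith only [c1])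
    calc _ ≤ (Real.log w ^ 7) ^ 26 := by gcongr
      _ ≤ w := by rw [← pow_mul]; exact h1 _ (by norm_num)
      _ ≤ (28 * w : ℕ) * Real.log 2 := by push_cast; linarith only [h2, Real.log_two_gt_d9, mul_nonneg_of_nonpos_of_nonpos (Mathlib.Tactic.Linarith.sub_nonpos_of_le (Mathlib.Tactic.Linarith.natCast_nonneg ℝ w)) (le_of_lt (Mathlib.Tactic.Linarith.sub_neg_of_lt Real.log_two_gt_d9))]
      _ ≤ _ := (log_two_pow _).ge.trans (Lib.LargeSieve.log_nat_mono (Nat.le_add_right _ _))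
  · exact hl'.trans (le_trans (by linarith only [h2, mul_nonneg_of_nonpos_of_nonpos (Mathlib.Tactic.Linarith.sub_nonpos_of_le (Mathlib.Tactic.Linarith.natCast_nonneg ℝ w)) (Mathlib.Tactic.Linarith.sub_nonpos_of_le h2)]) ((h4 2 (by push_cast; linarith only [c1])).trans hQ3))
  · have a1 : (Q : ℝ) ^ (-(Real.log w ^ 4)⁻¹) ≤ 1 / Real.exp (Real.log w ^ 2) := by
      rw [Real.rpow_def_of_pos hQ0, one_div, ← Real.exp_neg, Real.exp_le_exp, mul_neg, neg_le_neg_iff,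
        ← div_eq_mul_inv, le_div_iff₀ (by positivity), ← pow_add]
      exact (Real.le_log_iff_exp_le hQ0).2 hQ1
    have hl0 := Real.log_natCast_nonneg (2 ^ (28 * w) + 2 ^ (28 * w) + h)
    have hb' : ((2 ^ (28 * w) + 2 ^ (28 * w) + h : ℕ) : ℝ) ≤ 3 * (2 ^ (28 * w) : ℕ) := by
      exact_mod_cast (by omega)
    have a2 : √((2 ^ (28 * w) + 2 ^ (28 * w) + h : ℕ) : ℝ) ≤ 2 ^ (15 * w) := by
      rw [Real.sqrt_le_left (by positivity), ← pow_mul]
      exact_mod_cast hb.trans (Nat.pow_le_pow_right two_pos (by omega))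
    have a3 : ((2 ^ (4 * w) : ℕ) : ℝ) ^ 2 * 2 ^ (15 * w)
        ≤ (2 ^ (28 * w) : ℕ) / Real.exp (Real.log w ^ 2) := by
      rw [le_div_iff₀ (Real.exp_pos _)]
      refine (mul_le_mul_of_nonneg_left h3 (by positivity)).trans ?_
      push_cast
      rw [← pow_mul, ← pow_add, ← pow_add]
      exact pow_le_pow_right₀ one_le_two (by omega)
    generalize ((2 ^ (28 * w) + 2 ^ (28 * w) + h : ℕ) : ℝ) = b at *
    have hx0 : (0 : ℝ) ≤ (2 ^ (28 * w) : ℕ) := Nat.cast_nonneg _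
    generalize ((2 ^ (28 * w) : ℕ) : ℝ) = x at *
    have hE := Real.exp_pos (Real.log w ^ 2)
    generalize Real.exp (Real.log w ^ 2) = E at *
    calc _ ≤ 2 * (3 * x) / E + 140 * (3 * x) * (22 * w) ^ 4 * (1 / E)
          + ((2 ^ (4 * w) : ℕ) : ℝ) ^ 2 * (2 * 2 ^ (15 * w) * (21 * w)) := by
          clear * - b Q w x E hx0 hb' hE hQ3 hl0 h2 hl' a1 hQ0 hw a2
          gcongr; linarith only [h2, hl']
      _ = x / E * (6 + 420 * 22 ^ 4 * w ^ 4)
          + ((2 ^ (4 * w) : ℕ) : ℝ) ^ 2 * 2 ^ (15 * w) * (42 * w) := by ring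
      _ ≤ x / E * (6 * w ^ 4 + 420 * 22 ^ 4 * w ^ 4) + x / E * (42 * w ^ 4) := by
          clear * - x E w h2 hx0 hE a3 hw
          gcongr
          · exact le_mul_of_one_le_right (by norm_num) (one_le_pow₀ (by linarith only [h2]))
          · exact le_self_pow₀ (by linarith only [h2]) (by norm_num)
      _ = x / E * w ^ 4 * (48 + 420 * 22 ^ 4) := by ring
      _ ≤ x / E * w ^ 4 * w := by gcongr; linarith only [h2]
      _ = _ := by ring

lemma num_cover {k P π w ℓ ly ε : ℝ} (hk : 0 < k) (hP : 1 ≤ P) (hε : 0 < ε) (c1 : 10 ^ 8 ≤ ℓ)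
    (c9 : ℓ ^ 6 ≤ w) (c8 : 105840 * k * P / ε ≤ ℓ) (cy : k * 2 ^ 23 * 370440 / ε ≤ ly)
    (cπ : π ≤ 42 * w / ℓ) (hπ : 0 ≤ π) {L : ℝ} (hL0 : 0 ≤ L) (hL : 1 + L ≤ 2 * ℓ) :
    k * (2 ^ 23 / ly * (21 * π) + 3 * (√(21 * w) * (2 * P * (1 + L))
      + (ℓ ^ 3)⁻¹ * (21 * w * (1 + ℓ)))) ≤ ε * w / (210 * ℓ) := by
  have hℓ : 0 < ℓ := by linarith only [c1]
  have hw : 0 < w := lt_of_lt_of_le (by positivity) c9
  have a1 : √(21 * w) ≤ 5 * w / ℓ ^ 3 := by
    rw [Real.sqrt_le_left (by positivity), div_pow, le_div_iff₀ (by positivity), ← pow_mul,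
      show 3 * 2 = 6 from rfl]
    linarith only [c9, hw, mul_le_mul_of_nonneg_left c9 hw.le, mul_self_nonneg w]
  rw [div_le_iff₀ hε] at c8
  calc _ ≤ k * (2 ^ 23 / (k * 2 ^ 23 * 370440 / ε) * (21 * (42 * w / ℓ))
        + 3 * (5 * w / ℓ ^ 3 * (2 * P * (2 * ℓ)) + (ℓ ^ 3)⁻¹ * (21 * w * (2 * ℓ * P)))) := by
        gcongr; linarith only [hP, c1, mul_nonneg_of_nonpos_of_nonpos (Mathlib.Tactic.Linarith.sub_nonpos_of_le hP) (Mathlib.Tactic.Linarith.sub_nonpos_of_le c1)]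
    _ = ε * w / (420 * ℓ) + (105840 * k * P) * (186 / 105840 * w / ℓ ^ 2) := by field_simp; ring
    _ ≤ ε * w / (420 * ℓ) + (ℓ * ε) * (1 / 420 * w / ℓ ^ 2) := by gcongr _ + ?_ * (?_ * _ / _); norm_num
    _ = _ := by field_simp; ring

theorem sieve_step {r m₀ J k a y s w Q p₁ : ℕ} {ε : ℝ} (hr : r.Prime) (hε : 0 < ε)
    (hJ : 2 * 10 ^ 10 * (m₀ + 1) = J) (hk : 2 ^ J = k) (ha : 72 * k * J = a) (hw : 4 * a * s = w)
    (hy : 1 < y) (cy : k * 2 ^ 23 * 370440 / ε ≤ Real.log y)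
    (c1 : 10 ^ 8 ≤ Real.log w) (c2 : 105 * a ≤ Real.log w)
    (c3 : (36 * a) ^ (k + 1) * (4 ^ (k + 1) * (6 * (k + 1) + 3)) ≤ Real.log w)
    (c4 : 3 * 4 ^ k * primorial y * k ≤ Real.log w) (c5 : (r * primorial y ^ k : ℕ) ≤ Real.log w)
    (c6 : ((10 * k) ^ 2 : ℕ) ≤ Real.log w) (c8 : 105840 * k * primorial y / ε ≤ Real.log w)
    (c9 : Real.log w ^ 200 ≤ w) (cπ : ((21 * w).primeCounting : ℝ) ≤ 42 * w / Real.log w)
    (cθ : ∀ h ≤ 2 ^ (28 * w), ((2 ^ (28 * w) : ℕ) : ℝ) / 2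
      ≤ ∑ n ∈ Ioc (2 ^ (28 * w) + h) (2 ^ (28 * w) + 2 ^ (28 * w) + h), th n)
    (hQ1 : Real.exp (Real.log w ^ 6) ≤ Q) (hQ2 : Q ≤ Real.exp (2 * Real.log w ^ 6))
    (hp₁ : p₁.Prime) (hyp : y < p₁)
    (hSW : ∀ f : ℕ, 1 < f → f ≤ Q → Squarefree f → ¬ p₁ ∣ f → ∀ χ : DirichletCharacter ℂ f,
      χ.IsPrimitive → ∀ X : ℕ, Real.log Q ^ 26 ≤ Real.log X → Real.log X ≤ Q →
        ‖∑ n ∈ range (X + 1), χ n * ArithmeticFunction.vonMangoldt n‖ ≤ X / Q ^ 3)
    (J' : Finset ℕ) (hJ' : J' ⊆ Icc 1 (21 * w))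
    (hJ'' : ∀ j ∈ J', ∀ i : Fin k, j ≠ r * primorial y ^ (i.1 + 1)) :
    ∃ n ∈ Ioc (2 ^ (28 * w)) (2 ^ (28 * w) + 2 ^ (28 * w)), ∃ d : ℕ → ℕ,
      m₀ ≤ #{i : Fin k | (n + primorial y ^ (i.1 + 1)).Prime} ∧ (∀ j, d j ∣ r * n + j) ∧
      (∀ j q, q.Prime → q ∣ d j → q ≤ w) ∧
      ∑ j ∈ J', (if ∀ p : SP (w ^ 3) (2 ^ (a * s)) p₁, ¬ p.1 ∣ r * n + j then (d j : ℝ)⁻¹ else 0)
        ≤ ε / 2 := by
  obtain ⟨h1, h2, h3, h4⟩ := num_basic c1 c9
  have hℓw : Real.log w ≤ w := by simpa using h1 1 (by norm_num)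
  have hℓ : 0 < Real.log w := by linarith only [c1]
  have hw8 : 10 ^ 8 ≤ w := by exact_mod_cast h2
  have hJ4 : 4 ≤ J := by omega
  have hk1 : 1 ≤ k := hk ▸ Nat.one_le_two_pow
  have hka : 288 * k ≤ a := by clear * - k a J m₀ ha hk1 hJ; nlinarith only [hJ, ha, hk1]
  have hka' : (288 * k : ℝ) ≤ a := by exact_mod_cast hka
  have hk1' : (1 : ℝ) ≤ k := by exact_mod_cast hk1
  have ha0 : (1 : ℝ) ≤ a := by linarith only [hka', hk1']
  have hP2 : 2 ≤ primorial y := hy.trans_le le_primorial_self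
  have hP1 : (1 : ℝ) ≤ primorial y := by exact_mod_cast (by omega)
  have hD : r * primorial y ^ k ≤ w := by exact_mod_cast c5.trans hℓw
  have hh : ∀ i : Fin k, r * primorial y ^ (i.1 + 1) ≤ w := fun i =>
    (Nat.mul_le_mul_left _ (Nat.pow_le_pow_right (by omega) i.2)).trans hD
  have hh' : ∀ i : Fin k, primorial y ^ (i.1 + 1) ≤ w := fun i =>
    (Nat.le_mul_of_pos_left _ hr.pos).trans (hh i)
  have hyw : y ≤ w := le_primorial_self.trans ((Nat.le_self_pow (by omega) _).trans (hh' ⟨0, hk1⟩))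
  have hrw : r ≤ w := (Nat.le_mul_of_pos_right _ (by positivity)).trans hD
  have hw3 : 21 * w ≤ w ^ 3 := by
    rw [pow_succ]; exact Nat.mul_le_mul_right _ (by nlinarith only [hw8])
  have hlZ : Real.log ((w ^ 3 : ℕ) : ℝ) = 3 * Real.log w := by
    rw [Nat.cast_pow, Real.log_pow]; rfl
  have l2 := Real.log_two_gt_d9
  have l2' := Real.log_two_lt_d9
  obtain ⟨u, hu⟩ : ∃ u, u = s * Real.log 2 := ⟨_, rfl⟩
  have hwu : 4 * a * u = w * Real.log 2 := by rw [hu, ← hw]; push_cast; ring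
  have hu18 : 18 * Real.log w ≤ u := by
    clear * - a w u h1 hwu h2 c2 l2 ha0 hℓ
    refine le_of_mul_le_mul_left ?_ (by positivity : (0 : ℝ) < 4 * a)
    have := h1 2 (by norm_num)
    nlinarith only [hwu, this, c2, l2, hℓ, h2]
  have hlz : ∀ m : ℕ, Real.log ((2 ^ (m * s) : ℕ) : ℝ) = m * u := fun m => by
    rw [log_two_pow, hu]; push_cast; ring
  have hZs : ∀ m, 1 ≤ m → w ^ 3 ≤ 2 ^ (m * s) := fun m hm => by
    have : (1 : ℝ) ≤ m := by exact_mod_cast hm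
    rw [← Nat.cast_le (α := ℝ), ← Real.log_le_log_iff (by positivity) (by positivity), hlZ, hlz]
    nlinarith only [this, hu18, hℓ]
  have hja : ∀ j < J, 2 ^ j ≤ a := fun j hj =>
    ((Nat.pow_le_pow_right two_pos hj.le).trans hk.le).trans (by omega)
  have hVj := fun j (hj : j < J) => VV_SP (zs := 2 ^ (a * s)) p₁ (by linarith only [hlZ, c1])
    (hZs (2 ^ j) Nat.one_le_two_pow) (Nat.pow_le_pow_right two_pos (Nat.mul_le_mul_right _ (hja j hj)))
  have hVa := VV_SP (zs := 2 ^ (a * s)) p₁ (by linarith only [hlZ, c1]) (hZs a (by omega)) le_rfl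
  rw [VV, filter_true_of_mem fun p _ => (mem_SP.1 p.2).2.1.2, hlz, hlZ] at hVa
  simp only [hlz, hlZ] at hVj
  have hx : w ≤ 2 ^ (28 * w) :=
    (Nat.lt_two_pow_self.le).trans (Nat.pow_le_pow_right two_pos (by omega))
  have hE := Real.exp_pos (Real.log w ^ 2)
  have hl21 : 1 + Real.log ((21 * w : ℕ) : ℝ) ≤ 2 * Real.log w := by
    clear * - w hw8 c1
    rw [Nat.cast_mul, Real.log_mul (by norm_num) (by positivity)]
    linarith only [Real.log_le_sub_one_of_pos (by norm_num : (0 : ℝ) < (21 : ℕ)), c1,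
      (by norm_num : ((21 : ℕ) : ℝ) = 21)]
  obtain ⟨W, b, d, b1, b2, b3, b4, b5, b6, b7⟩ := cover
    (pr := (Subtype.val : SP (w ^ 3) (2 ^ (a * s)) p₁ → ℕ)) (η := (Real.log w ^ 3)⁻¹)
    (κ := (Real.log w ^ 4)⁻¹) (k := k) (F := 2 ^ (4 * w))
    (E := k * ((2 ^ (28 * w) : ℕ) * w ^ 5 / Real.exp (Real.log w ^ 2))) (H := 21 * w)
    (by positivity) (by positivity) (by
      clear * - w c1 hy hyw l2 l2'
      rw [one_div]; exact inv_anti₀ two_pos (le_trans (by linarith only [c1, l2, l2']) (le_self_pow₀ (by linarith only [c1, l2, l2'])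
        (by norm_num)))) (le_of_eq (by field_simp)) (by
      rw [inv_mul_le_iff₀ (by positivity)]; nlinarith only [c1, sq_nonneg (Real.log w)]) hy hyw
    (by omega) le_rfl hr hp₁ hyp (fun p => by
      clear * - w a s p₁ p k c6 hℓw r m₀ J y hw3
      obtain ⟨a1, ⟨a2, -⟩, -⟩ := mem_SP.1 p.2
      have : (10 * k) ^ 2 ≤ w := by exact_mod_cast c6.trans hℓw
      exact ⟨by omega, a1, by omega⟩)
    (fun f => ∑ i : Fin k, Psi (2 ^ (28 * w) + primorial y ^ (i.1 + 1))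
      (2 ^ (28 * w) + 2 ^ (28 * w) + primorial y ^ (i.1 + 1)) f)
    (fun f => sum_nonneg fun _ _ => Psi_nonneg _ _ _) (by positivity) (by
      clear * - w k y p₁ Q c1 c9 hh' hQ1 hQ2 hSW
      simp_rw [sum_mul]
      rw [sum_comm]
      simpa using sum_le_card_nsmul _ _ _ fun i (_ : i ∈ univ) => (bv' c1 c9 (hh' i) hQ1 hQ2 hSW).2)
  have hW : W ≤ 2 ^ (2 * w) := by
    rw [pow_mul]; exact (Nat.le_of_dvd (primorial_pos _) b1).trans (primorial_le_four_pow w)
  have hR : (2 ^ (2 * a * s)) ^ 2 = 2 ^ w := by rw [← pow_mul, ← hw]; ring_nf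
  have hVw : ∏ p : SP (w ^ 3) (2 ^ (a * s)) p₁, (1 + (p.1 : ℝ)⁻¹) ≤ w := hVa.2.trans (by
    clear * - a u w c1 hwu h2 l2'
    rw [← mul_div_assoc, div_le_iff₀ (by positivity)]; nlinarith only [hwu, l2', h2, c1])
  have hV0 : 0 ≤ ∏ p : SP (w ^ 3) (2 ^ (a * s)) p₁, (1 + (p.1 : ℝ)⁻¹) :=
    prod_nonneg fun _ _ => by clear * - w a s p₁; positivity
  have h4k : (4 : ℝ) ^ k ≤ w := le_trans (by
    clear * - k y hP1 hk1' hP2 c4 hℓw
    nlinarith only [mul_le_mul hP1 hk1' zero_le_one (by positivity), (by positivity : (0 : ℝ) < 4 ^ k)])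
      (c4.trans hℓw)
  obtain ⟨n, hn, c1, c2, c3⟩ := core (pr := (Subtype.val : SP (w ^ 3) (2 ^ (a * s)) p₁ → ℕ))
    (x := 2 ^ (28 * w)) (H := 21 * w) (F := 2 ^ (4 * w)) (R₁ := 2 ^ (2 * a * s)) (m₀ := m₀)
    (z := fun j => 2 ^ (2 ^ j * s)) (u := u) (v := u / (3 * Real.log w)) (a := a)
    (ε' := 4 ^ (k + 1) * (6 * (k + 1) + 3) * ((w ^ 3 : ℕ) : ℝ)⁻¹) (ε := ε / 2)
    (Λ := 29 * w * Real.log 2) (fun p => (mem_SP.1 p.2).2.2) Subtype.val_injective
    (fun p => ⟨hw3.trans_lt (mem_SP.1 p.2).2.1.1, (mem_SP.1 p.2).2.1.2.trans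
      (Nat.pow_le_pow_right two_pos (by rw [← hw, mul_assoc]; omega))⟩)
    (fun p h => by
      obtain ⟨-, ⟨a2, -⟩, a3⟩ := mem_SP.1 p.2
      have := a3.dvd_primorial_iff.1 (h.trans b1)
      omega) ((squarefree_primorial w).squarefree_of_dvd b1)
    (fun i : Fin k => primorial y ^ (i.1 + 1))
    (fun i j h => Fin.ext (Nat.succ_injective (Nat.pow_right_injective hP2 h))) hr.pos (by omega)
    (fun i => (hh i).trans (by omega)) (fun i => b2 i) (Fintype.card_fin k) hk.le hJ4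
    (by linarith only [hu18, hℓ]) (by rw [le_div_iff₀ (by positivity)]; linarith only [hu18])
    (by exact_mod_cast ha.le) (fun j hj => le_of_eq_of_le (by push_cast; ring) (hVj j hj).1)
    (fun j hj => (hVj j hj).2.trans_eq (by push_cast; ring))
    (fun j hj => (LL_SP (Nat.two_pow_pos _) (Or.inl le_rfl)).trans (by
      clear * - j s u hlz w hu18 c1
      rw [hlz]; push_cast
      nlinarith only [one_le_pow₀ (n := j) (one_le_two (α := ℝ)), hu18, c1]))
    (Nat.one_lt_two_pow (by rintro h; rw [mul_assoc] at h hw; omega))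
    (by rw [hlz]; push_cast; exact le_rfl) (le_of_eq_of_le (by ring) hVa.1) (hVa.2.trans_eq (by ring))
    ((LL_SP (Nat.two_pow_pos _) (Or.inr le_rfl)).trans (by
      clear * - a s u hlz w ha0 hu18 c1
      rw [hlz, hlz]; push_cast; nlinarith only [ha0, hu18, c1]))
    (mul_le_mul_of_nonneg_left ((sum_coe_sort _ fun p : ℕ => ((p : ℝ)⁻¹) ^ 2).trans_le
      (sum_sq_SP (by positivity) _ _)) (by positivity))
    (by
      rw [← mul_assoc, ← div_eq_mul_inv, div_le_one (by positivity)]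
      exact c3.trans (hℓw.trans (by exact_mod_cast (by omega))))
    (by
      clear * - k w a s p₁ W hR h4k hVw hw8 hW h4 hka' hk1' c2 h3 r m₀ J y
      rw [hR]
      calc _ ≤ w * w ^ (7 * (k + 1)) * ((2 ^ w : ℕ) : ℝ) ^ 4 * (2 ^ (2 * w) : ℕ) := by gcongr
        _ ≤ 2 ^ w * ((2 ^ w : ℕ) : ℝ) ^ 4 * (2 ^ (2 * w) : ℕ) := by
          rw [← pow_succ']
          gcongr
          exact (h4 _ (by push_cast; linarith only [hka', hk1', c2])).trans h3
        _ ≤ _ := by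
          push_cast
          rw [← pow_mul, ← pow_add, ← pow_add]
          exact pow_le_pow_right₀ one_le_two (by omega))
    (by clear * - W a s w hR hW; rw [hR, ← pow_mul, show 4 * w = 2 * w + w * 2 by ring, pow_add]; gcongr)
    (Nat.pow_le_pow_right two_pos (by omega)) (fun i => cθ _ ((hh' i).trans hx))
    (by
      clear * - k w a s p₁ y W hVw b7 hw8 hE c4 hℓw h4 hka' hk1' c2
      calc _ ≤ 4 ^ k * (w : ℝ) ^ (12 * k + 2) * (3 * (primorial y *
            (k * ((2 ^ (28 * w) : ℕ) * w ^ 5 / Real.exp (Real.log w ^ 2))))) := by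
            gcongr
            exact sum_nonneg fun _ _ => mul_nonneg (sum_nonneg fun _ _ => Psi_nonneg _ _ _)
              (beta_nonneg _ _ _)
        _ = (2 ^ (28 * w) : ℕ) * ((3 * 4 ^ k * primorial y * k) * (w : ℝ) ^ (12 * k + 7)
            / Real.exp (Real.log w ^ 2)) := by ring
        _ ≤ _ := mul_le_of_le_one_right (by positivity) ((div_le_one hE).2 (le_trans (by
            rw [pow_succ' _ (12 * k + 7)]; gcongr; exact c4.trans hℓw)
            (h4 (12 * k + 7 + 1) (by push_cast; linarith only [hka', hk1', c2])))))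
    (fun i => (bv' c1 c9 (hh' i) hQ1 hQ2 hSW).1) (by positivity) (fun j => (d j : ℝ)⁻¹)
    (fun j => by clear * - d j J' hJ' hJ''; positivity) J' (fun j hj => ⟨(mem_Icc.1 (hJ' hj)).2, hJ'' j hj⟩) (by positivity)
    (by
      clear * - k y w ε hk1 hP1 hε c1 h1 c8 cy cπ hl21 J' d a u hJ' b6 hwu hw8 l2 ha0
      have := num_cover (by positivity) hP1 hε c1 (h1 6 (by norm_num)) c8 cy cπ (Nat.cast_nonneg _)
        (Real.log_natCast_nonneg _) hl21
      push_cast at b6 this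
      refine ((mul_le_mul_of_nonneg_left ((sum_le_sum_of_subset_of_nonneg hJ'
        fun _ _ _ => by positivity).trans b6) (by positivity)).trans this).trans ?_
      calc _ ≤ ε * (4 * a * u) / (144 * Real.log w) := by
            rw [hwu, div_le_div_iff₀ (by positivity) (by positivity)]
            nlinarith only [l2, (by positivity : 0 < ε * w * Real.log w)]
        _ = _ := by field_simp; ring)
    (by
      clear * - W w b1 hℓ b3 k J a ha m₀ hJ u hu18 hk1 hJ4 hwu c1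
      have hφ : (0 : ℝ) < W.totient := by
        exact_mod_cast Nat.totient_pos.2 (Nat.pos_of_dvd_of_pos b1 (primorial_pos _))
      have a1 : (W.totient : ℝ) ≤ 18 * W / Real.log w := by rwa [le_div_iff₀' hℓ]
      have a2 : (72 * k * J : ℝ) = a := by exact_mod_cast ha
      have a3 : (2 * 10 ^ 10 * (m₀ + 1) : ℝ) = J := by exact_mod_cast hJ
      have a4 : 0 < (k : ℝ) * J * u * W.totient * (m₀ + 1) := by
        have : 0 < u := by linarith only [hu18, hℓ]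
        positivity
      calc _ = k * J * u * W.totient * (m₀ + 1) * (41472 * 29 * 4 * 72) := by
            rw [mul_assoc 29, ← hwu, ← a2]; ring
        _ < k * J * u * W.totient * (m₀ + 1) * (2 * 10 ^ 10 / 54) := by gcongr; norm_num
        _ = k * J * J * u / 54 * W.totient := by rw [← a3]; ring
        _ ≤ k * J * J * u / 54 * (18 * W / Real.log w) := by
            gcongr; have : 0 < u := by linarith only [hu18, hℓ]
            positivity
        _ = _ := by field_simp; ring)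
  exact ⟨n, hn, d, c2, fun j => b4 j n c1, b5, c3⟩

end Pool.Agent.Work.MP_52820d_nt
end
end
end

-- merged part: Pool.Agent.Work.MP_52820d_nt.Main
section
-- merged part: Pool.Agent.Work.MP_52820d_nt.Fact
section
/-!
# The increments of `log τ(m!)`
-/

noncomputable section

open Finset
open scoped ArithmeticFunction.sigma Nat

namespace Pool.Agent.Work.MP_52820d_nt

/-- `log τ(m!) - log τ((m-1)!)` -/
def step (m : ℕ) : ℝ := Real.log (σ 0 m !) - Real.log (σ 0 (m - 1)!)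

lemma log_sigma_eq {n : ℕ} (hn : n ≠ 0) {S : Finset ℕ} (hS : n.primeFactors ⊆ S) :
    Real.log (σ 0 n) = ∑ p ∈ S, Real.log (n.factorization p + 1) := by
  rw [ArithmeticFunction.sigma_zero_apply, Nat.card_divisors hn, Nat.cast_prod,
    Real.log_prod (fun _ _ => by positivity)]
  push_cast
  refine sum_subset hS fun p _ hp => ?_
  rw [← Nat.support_factorization, Finsupp.notMem_support_iff] at hp
  simp [hp]

lemma step_eq {m : ℕ} (hm : m ≠ 0) : step m = ∑ p ∈ m.primeFactors,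
    (Real.log (((m - 1)!.factorization p + m.factorization p : ℕ) + 1)
      - Real.log ((m - 1)!.factorization p + 1)) := by
  have e : m ! = (m - 1)! * m := by rw [mul_comm, Nat.mul_factorial_pred hm]
  have h1 : (m - 1)!.primeFactors ⊆ (m)!.primeFactors :=
    Nat.primeFactors_mono (e ▸ dvd_mul_right _ _) (Nat.factorial_ne_zero _)
  have h2 : m.primeFactors ⊆ (m)!.primeFactors :=
    Nat.primeFactors_mono (Nat.dvd_factorial (Nat.pos_of_ne_zero hm) le_rfl) (Nat.factorial_ne_zero _)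
  rw [step, log_sigma_eq (Nat.factorial_ne_zero _) Subset.rfl,
    log_sigma_eq (Nat.factorial_ne_zero _) h1, ← sum_sub_distrib]
  have h3 : ∀ p, (m)!.factorization p = (m - 1)!.factorization p + m.factorization p := fun p => by
    rw [e, Nat.factorization_mul (Nat.factorial_ne_zero _) hm]; rfl
  simp_rw [h3]
  refine (sum_subset h2 fun p _ hp => ?_).symm
  rw [← Nat.support_factorization, Finsupp.notMem_support_iff] at hp
  simp [hp]

lemma term_nonneg (v e : ℕ) : 0 ≤ Real.log (((v + e : ℕ) : ℝ) + 1) - Real.log ((v : ℝ) + 1) := by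
  rw [sub_nonneg]
  exact Real.log_le_log (by positivity) (by push_cast; linarith only [(Nat.cast_nonneg e : (0 : ℝ) ≤ e)])

lemma step_nonneg {m : ℕ} (hm : m ≠ 0) : 0 ≤ step m := by
  rw [step_eq hm]; exact sum_nonneg fun p _ => term_nonneg _ _

lemma fact_val {p c : ℕ} (hp : p.Prime) (hc : c ≠ 0) :
    (p * c - 1)!.factorization p + (c.factorization p + 1) = (c)!.factorization p + c ∧
      (p * c).factorization p = c.factorization p + 1 := by
  have hm : p * c ≠ 0 := mul_ne_zero hp.ne_zero hc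
  have h1 : (p * c).factorization p = c.factorization p + 1 := by
    rw [Nat.factorization_mul hp.ne_zero hc, Finsupp.add_apply, hp.factorization_self, add_comm]
  refine ⟨?_, h1⟩
  rw [← Nat.factorization_factorial_mul hp, ← h1, ← Nat.mul_factorial_pred hm,
    Nat.factorization_mul hm (Nat.factorial_ne_zero _), Finsupp.add_apply, add_comm]

lemma step_ge {r p : ℕ} (hp : p.Prime) (hr : 0 < r) (hrp : r < p) :
    Real.log (r + 1) - Real.log r ≤ step (p * r) := by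
  have hm : p * r ≠ 0 := mul_ne_zero hp.ne_zero hr.ne'
  rw [step_eq hm]
  refine le_trans (le_of_eq ?_) (single_le_sum (fun q _ => term_nonneg _ _)
    (Nat.mem_primeFactors.2 ⟨hp, dvd_mul_right _ _, hm⟩))
  obtain ⟨h1, h2⟩ := fact_val hp hr.ne'
  rw [Nat.factorization_factorial_eq_zero_of_lt hrp,
    Nat.factorization_eq_zero_of_lt hrp] at h1
  have h3 : (((p * r - 1)!.factorization p : ℕ) : ℝ) + 1 = r := by
    exact_mod_cast (by omega : (p * r - 1)!.factorization p + 1 = r)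
  rw [h2, Nat.factorization_eq_zero_of_lt hrp, h1, zero_add, h3]

lemma step_le {m : ℕ} (hm : m ≠ 0) :
    step m ≤ ∑ p ∈ m.primeFactors, (m.factorization p : ℝ) * (p / m) := by
  rw [step_eq hm]
  refine sum_le_sum fun p hp0 => ?_
  obtain ⟨hp, ⟨c, rfl⟩, -⟩ := Nat.mem_primeFactors.1 hp0
  have hc : c ≠ 0 := right_ne_zero_of_mul hm
  obtain ⟨h1, -⟩ := fact_val hp hc
  have h2 : c.factorization p ≤ (c)!.factorization p :=
    (Nat.factorization_le_iff_dvd hc (Nat.factorial_ne_zero _)).2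
      (Nat.dvd_factorial (Nat.pos_of_ne_zero hc) le_rfl) p
  set v := (p * c - 1)!.factorization p
  set e := (p * c).factorization p
  have h3 : (c : ℝ) ≤ v + 1 := by exact_mod_cast (by omega : c ≤ v + 1)
  have hc' : (0 : ℝ) < c := by exact_mod_cast Nat.pos_of_ne_zero hc
  have hp' : (0 : ℝ) < p := by exact_mod_cast hp.pos
  rw [← Real.log_div (by positivity) (by positivity)]
  refine (Real.log_le_sub_one_of_pos (by positivity)).trans ?_
  calc _ = (e : ℝ) * (1 / (v + 1)) := by push_cast; field_simp; ring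
    _ ≤ e * (1 / c) := by gcongr
    _ = _ := by push_cast; field_simp

open Classical in
lemma step_le_of {m Z d : ℕ} (hZ : 0 < Z) (hm : Z * Z ≤ m) (hd : d ∣ m)
    (hdp : ∀ p, p.Prime → p ∣ d → p ≤ Z) :
    step m ≤ 2 * Real.log m / Z + if ∃ p, p.Prime ∧ p ∣ m ∧ m < Z * p then (d : ℝ)⁻¹ else 0 := by
  have hm0 : m ≠ 0 := by have := Nat.mul_pos hZ hZ; omega
  have hm' : (0 : ℝ) < m := by exact_mod_cast Nat.pos_of_ne_zero hm0
  have hZ' : (0 : ℝ) < Z := by exact_mod_cast hZ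
  refine (step_le hm0).trans ?_
  rw [← sum_filter_add_sum_filter_not _ (fun p => Z * p ≤ m)]
  refine add_le_add ?_ ?_
  · rw [Real.log_nat_eq_sum_factorization, Finsupp.sum, Nat.support_factorization, mul_sum, sum_div]
    refine le_trans (sum_le_sum fun p hp => ?_) (sum_le_sum_of_subset_of_nonneg
      (filter_subset (fun p => Z * p ≤ m) _) fun p _ _ => by
        have := Real.log_natCast_nonneg p; positivity)
    obtain ⟨hp1, hp2⟩ := mem_filter.1 hp
    have a1 : (p : ℝ) / m ≤ 1 / Z := by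
      rw [div_le_div_iff₀ hm' hZ', one_mul, mul_comm]; exact_mod_cast hp2
    have a2 : Real.log 2 ≤ Real.log p :=
      Real.log_le_log (by norm_num) (by exact_mod_cast (Nat.prime_of_mem_primeFactors hp1).two_le)
    have a3 : 1 ≤ 2 * Real.log p := by linarith only [a2, Real.log_two_gt_d9]
    calc _ ≤ (m.factorization p : ℝ) * (2 * Real.log p / Z) :=
          mul_le_mul_of_nonneg_left (a1.trans (by gcongr)) (Nat.cast_nonneg _)
      _ = _ := by ring
  · split_ifs with h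
    · obtain ⟨p, hp, ⟨c, rfl⟩, h2⟩ := h
      have hcZ : c < Z := by rw [mul_comm Z] at h2; exact lt_of_mul_lt_mul_left h2 (Nat.zero_le _)
      have hc : c ≠ 0 := right_ne_zero_of_mul hm0
      have hZp : Z < p := by by_contra h; nlinarith only [hZ, h, hm, h2]
      rw [sum_eq_single p]
      · rw [(fact_val hp hc).2, Nat.factorization_eq_zero_of_lt (hcZ.trans hZp)]
        have hdc : d ∣ c := (Nat.Coprime.symm ((Nat.Prime.coprime_iff_not_dvd hp).2
          fun h => (hdp p hp h).not_gt hZp)).dvd_of_dvd_mul_left hd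
        have hp' : (0 : ℝ) < p := by exact_mod_cast hp.pos
        have a1 : (d : ℝ) ≤ c := by exact_mod_cast Nat.le_of_dvd (Nat.pos_of_ne_zero hc) hdc
        have a2 : (0 : ℝ) < d := by exact_mod_cast Nat.pos_of_dvd_of_pos hdc (Nat.pos_of_ne_zero hc)
        calc _ = (c : ℝ)⁻¹ := by push_cast; field_simp
          _ ≤ _ := inv_anti₀ a2 a1
      · intro q hq hqp
        obtain ⟨hq1, hq2⟩ := mem_filter.1 hq
        obtain ⟨hq, hq3, -⟩ := Nat.mem_primeFactors.1 hq1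
        rcases (Nat.Prime.dvd_mul hq).1 hq3 with h | h
        · exact absurd ((Nat.prime_dvd_prime_iff_eq hq hp).1 h) hqp
        · have := Nat.le_of_dvd (Nat.pos_of_ne_zero hc) h
          exact absurd (by nlinarith only [hZ, hcZ, this, hm, hq2]) hq2
      · intro h
        exact absurd (mem_filter.2 ⟨Nat.mem_primeFactors.2 ⟨hp, dvd_mul_right _ _, hm0⟩,
          h2.not_ge⟩) h
    · refine (sum_eq_zero fun p hp => ?_).le
      obtain ⟨hp1, hp2⟩ := mem_filter.1 hp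
      obtain ⟨hq, hq3, -⟩ := Nat.mem_primeFactors.1 hp1
      exact absurd ⟨p, hq, hq3, not_le.1 hp2⟩ h

lemma log_ratio (n L : ℕ) :
    Real.log ((σ 0 (n + L)! : ℝ) / (σ 0 n ! : ℝ)) = ∑ j ∈ Icc 1 L, step (n + j) := by
  have h0 : ∀ m : ℕ, (σ 0 m ! : ℝ) ≠ 0 := fun m => by
    simp [ArithmeticFunction.sigma_eq_zero, Nat.factorial_ne_zero]
  rw [Real.log_div (h0 _) (h0 _)]
  induction L with
  | zero => simp
  | succ L ih => rw [sum_Icc_succ_top (by omega), ← ih, step]; simp [← add_assoc]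

/-- sliding the window across a cluster -/
lemma slide {t ε : ℝ} (hεt : ε < t) {N D H : ℕ} {C : Finset ℕ} (hC : C ⊆ Icc 1 D)
    (hD : D ≤ ⌊Real.log N⌋₊) (hH : D + ⌊Real.log (N + D : ℕ)⌋₊ ≤ H)
    (h1 : t ≤ ∑ j ∈ C, step (N + j)) (h2 : ∀ j ∈ C, step (N + j) ≤ ε)
    (h3 : ∑ j ∈ Icc 1 H \ C, step (N + j) ≤ ε) :
    ∃ n : ℕ, t ≤ ∑ j ∈ Icc 1 ⌊Real.log n⌋₊, step (n + j) ∧
      ∑ j ∈ Icc 1 ⌊Real.log n⌋₊, step (n + j) ≤ t + ε := by
  set a : ℕ → ℝ := fun s => ∑ j ∈ Icc 1 ⌊Real.log (N + s : ℕ)⌋₊, step (N + s + j) with ha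
  have hnn : ∀ j, 1 ≤ j → 0 ≤ step (N + j) := fun j hj => step_nonneg (by omega)
  have a0 : t ≤ a 0 := by
    refine h1.trans (sum_le_sum_of_subset_of_nonneg (hC.trans (Icc_subset_Icc_right hD))
      fun j hj _ => hnn j (mem_Icc.1 hj).1)
  have aD : a D < t := by
    refine lt_of_le_of_lt (le_trans ?_ h3) hεt
    have e : a D = ∑ j ∈ (Icc 1 ⌊Real.log (N + D : ℕ)⌋₊).image (D + ·), step (N + j) := by
      rw [sum_image (fun _ _ _ _ h => by simpa using h)]; simp only [ha, add_assoc]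
    rw [e]
    refine sum_le_sum_of_subset_of_nonneg (fun j hj => ?_)
      fun j hj _ => hnn j (mem_Icc.1 (mem_sdiff.1 hj).1).1
    obtain ⟨i, hi, rfl⟩ := mem_image.1 hj
    rw [mem_Icc] at hi
    refine mem_sdiff.2 ⟨mem_Icc.2 ⟨by omega, by omega⟩, fun h => ?_⟩
    have := mem_Icc.1 (hC h); omega
  have as : ∀ s < D, a s ≤ a (s + 1) + ε := fun s hs => by
    have b1 : step (N + (s + 1)) ≤ ε := by
      by_cases h : s + 1 ∈ C
      · exact h2 _ h
      · exact le_trans (single_le_sum (f := fun j => step (N + j))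
          (fun j hj => hnn j (mem_Icc.1 (mem_sdiff.1 hj).1).1)
          (mem_sdiff.2 ⟨mem_Icc.2 ⟨by omega, by omega⟩, h⟩)) h3
    have b2 : ⌊Real.log (N + s : ℕ)⌋₊ ≤ ⌊Real.log (N + (s + 1) : ℕ)⌋₊ := by
      refine Nat.floor_le_floor ?_
      rcases Nat.eq_zero_or_pos (N + s) with h | h
      · rw [h]; simpa using Real.log_natCast_nonneg (N + (s + 1))
      · exact Real.log_le_log (by exact_mod_cast h) (by exact_mod_cast (by omega))
    have b3 : ∀ L, ∑ j ∈ Icc 1 L, step (N + s + j)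
        ≤ ∑ j ∈ Icc 1 L, step (N + (s + 1) + j) + step (N + (s + 1)) := fun L => by
      have b4 : ∀ L, ∑ j ∈ Icc 1 (L + 1), step (N + s + j)
          = ∑ j ∈ Icc 1 L, step (N + (s + 1) + j) + step (N + (s + 1)) := fun L => by
        induction L with
        | zero => simp [add_assoc]
        | succ L ih =>
          rw [sum_Icc_succ_top (by omega), ih, sum_Icc_succ_top (by omega),
            show N + s + (L + 1 + 1) = N + (s + 1) + (L + 1) by ring]; ring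
      rw [← b4, sum_Icc_succ_top (by omega)]
      linarith only [step_nonneg (m := N + s + (L + 1)) (by omega)]
    refine (b3 _).trans (add_le_add (sum_le_sum_of_subset_of_nonneg (Icc_subset_Icc_right b2)
      fun j hj _ => step_nonneg (by have := (mem_Icc.1 hj).1; omega)) b1)
  classical
  have hex : ∃ s, a s < t := ⟨D, aD⟩
  have hs := Nat.find_spec hex
  have hsD := Nat.find_min' hex aD
  have hs0 : Nat.find hex ≠ 0 := fun h => by rw [h] at hs; linarith only [a0, hs]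
  obtain ⟨s, hs'⟩ := Nat.exists_eq_succ_of_ne_zero hs0
  have h4 := Nat.find_min hex (m := s) (by omega)
  rw [hs'] at hs
  exact ⟨N + s, not_lt.1 h4, by linarith only [hs, as, hex, hsD, hs', as s (by omega)]⟩

end Pool.Agent.Work.MP_52820d_nt
end
end

-- merged part: Pool.Agent.Work.MP_52820d_nt.Main
section
/-!
# Density of `log (τ((n + ⌊log n⌋)!) / τ(n!))` in `(0, ∞)`
-/

noncomputable section

open Finset Filter

namespace Pool.Agent.Work.MP_52820d_nt

open Pool.Agent.Lib.ANT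

lemma final_step {t ε : ℝ} (hεt : ε < t) {r m₀ k P w n z p₁ : ℕ} {d : ℕ → ℕ} (hr : 0 < r)
    (hP : 2 ≤ P) (hD : 2 * (r * P ^ k) ≤ w) (hw : 10 ≤ w) (hz : z ≤ 2 ^ w)
    (hn : n ∈ Ioc (2 ^ (28 * w)) (2 ^ (28 * w) + 2 ^ (28 * w)))
    (ht : t ≤ m₀ * (Real.log (r + 1) - Real.log r)) (hε1 : (r : ℝ)⁻¹ ≤ ε / 2)
    (hε2 : 882 / (w : ℝ) ≤ ε / 2) (h1 : m₀ ≤ #{i : Fin k | (n + P ^ (i.1 + 1)).Prime})
    (h2 : ∀ j, d j ∣ r * n + j) (h3 : ∀ j q, q.Prime → q ∣ d j → q ≤ w)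
    (h4 : ∑ j ∈ Icc 1 (21 * w) \ univ.image (fun i : Fin k => r * P ^ (i.1 + 1)),
      (if ∀ p : SP (w ^ 3) z p₁, ¬ p.1 ∣ r * n + j then (d j : ℝ)⁻¹ else 0) ≤ ε / 2) :
    ∃ n : ℕ, t ≤ ∑ j ∈ Icc 1 ⌊Real.log n⌋₊, step (n + j) ∧
      ∑ j ∈ Icc 1 ⌊Real.log n⌋₊, step (n + j) ≤ t + ε := by
  classical
  obtain ⟨hn1, hn2⟩ := mem_Ioc.1 hn
  have hw2 : w < 2 ^ w := Nat.lt_two_pow_self
  have hrD : r ≤ r * P ^ k := Nat.le_mul_of_pos_right _ (by positivity)
  have hnN : n ≤ r * n := Nat.le_mul_of_pos_left _ hr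
  have hw' : (10 : ℝ) ≤ w := by exact_mod_cast hw
  have e28 : ∀ m ≤ 28, (2 ^ w) ^ m ≤ 2 ^ (28 * w) := fun m hm => by
    rw [← pow_mul]; exact Nat.pow_le_pow_right two_pos (by nlinarith only [hm])
  have hwx : 21 * w ≤ 2 ^ (28 * w) := le_trans
    (by rw [pow_succ]; exact Nat.mul_le_mul_right _ (by nlinarith only [hw])) ((Nat.pow_le_pow_left hw2.le 3).trans (e28 3 (by norm_num)))
  have hlog : ∀ j ≤ 21 * w, Real.log ((r * n + j : ℕ) : ℝ) ≤ 29 * w * Real.log 2 := fun j hj => by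
    have : r * n + j ≤ 2 ^ (29 * w) := by
      rw [show 29 * w = w + 28 * w by ring, pow_add]
      nlinarith only [hn2, hwx, hj, hD, hw2, hrD, hw, Nat.mul_le_mul_left r hn2]
    simpa using (Lib.LargeSieve.log_nat_mono this).trans_eq (log_two_pow _)
  have hZ : ∀ j, w ^ 3 * w ^ 3 ≤ r * n + j := fun j => by
    have := (Nat.pow_le_pow_left hw2.le (3 + 3)).trans (e28 _ (by norm_num))
    rw [← pow_add]; omega
  have hst : ∀ j ≤ 21 * w, 2 * Real.log ((r * n + j : ℕ) : ℝ) / (w ^ 3 : ℕ) ≤ 42 / w ^ 2 :=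
    fun j hj => by
      rw [div_le_div_iff₀ (by positivity) (by positivity)]
      push_cast [-Nat.cast_add, -Nat.cast_mul]
      nlinarith only [hw', hlog, hj, hw, mul_le_mul_of_nonneg_right (hlog j hj) (sq_nonneg (w : ℝ)), Real.log_two_lt_d9,
        (by positivity : (0 : ℝ) ≤ w ^ 3)]
  have hw3 : w ≤ w ^ 3 := Nat.le_self_pow (by norm_num) _
  have hinj : Function.Injective fun i : Fin k => r * P ^ (i.1 + 1) := fun i j h =>
    Fin.ext (Nat.succ_injective (Nat.pow_right_injective hP (Nat.eq_of_mul_eq_mul_left hr h)))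
  have hle : ∀ i : Fin k, r * P ^ (i.1 + 1) ≤ r * P ^ k := fun i =>
    Nat.mul_le_mul_left _ (Nat.pow_le_pow_right (by omega) i.2)
  refine slide hεt (N := r * n) (D := r * P ^ k) (H := 21 * w)
    (C := univ.image fun i : Fin k => r * P ^ (i.1 + 1)) (fun j hj => ?_) ?_ ?_ ?_
    (fun j hj => ?_) ?_
  · obtain ⟨i, -, rfl⟩ := mem_image.1 hj
    exact mem_Icc.2 ⟨Nat.pos_of_ne_zero (by positivity), hle i⟩
  · refine le_trans (by omega : _ ≤ w) (Nat.le_floor (le_trans ?_ ((log_two_pow (28 * w)).ge.trans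
      (Lib.LargeSieve.log_nat_mono (hn1.le.trans hnN)))))
    push_cast; linarith only [hw', Real.log_two_gt_d9, mul_nonneg_of_nonpos_of_nonpos (Mathlib.Tactic.Linarith.sub_nonpos_of_le (Mathlib.Tactic.Linarith.natCast_nonneg ℝ w)) (le_of_lt (Mathlib.Tactic.Linarith.sub_neg_of_lt Real.log_two_gt_d9))]
  · have h5 := (Nat.floor_le (Real.log_natCast_nonneg _)).trans (hlog (r * P ^ k) (by omega))
    have h6 : (2 * (r * P ^ k : ℕ) : ℝ) ≤ w := by exact_mod_cast hD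
    rw [← Nat.cast_le (α := ℝ), Nat.cast_add, Nat.cast_mul 21]
    push_cast [-Nat.cast_add, -Nat.cast_mul]
    linarith only [hw', h5, h6, Real.log_two_lt_d9, mul_nonneg_of_nonpos_of_nonpos (Mathlib.Tactic.Linarith.sub_nonpos_of_le (Mathlib.Tactic.Linarith.natCast_nonneg ℝ w)) (le_of_lt (Mathlib.Tactic.Linarith.sub_neg_of_lt Real.log_two_lt_d9))]
  · rw [sum_image fun i _ j _ h => hinj h]
    have h5 : 0 ≤ Real.log (r + 1) - Real.log r :=
      sub_nonneg.2 (Real.log_le_log (by positivity) (by linarith only []))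
    refine ht.trans (le_trans ?_ (sum_le_sum_of_subset_of_nonneg
      (filter_subset (fun i : Fin k => (n + P ^ (i.1 + 1)).Prime) _)
        fun i _ _ => step_nonneg (by positivity)))
    refine le_trans (by rw [nsmul_eq_mul]; gcongr) (card_nsmul_le_sum _ _ _ fun i hi => ?_)
    rw [← mul_add, mul_comm]
    exact step_ge (mem_filter.1 hi).2 hr (by omega)
  · obtain ⟨i, -, rfl⟩ := mem_image.1 hj
    refine (step_le_of (by positivity) (hZ _) (d := r) (by rw [← mul_add]; exact dvd_mul_right _ _)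
      fun p _ h => (Nat.le_of_dvd hr h).trans (by omega)).trans ?_
    have h5 := hst _ ((hle i).trans (by omega : _ ≤ 21 * w))
    have h6 : (42 : ℝ) / w ^ 2 ≤ 882 / w := by
      rw [div_le_div_iff₀ (by positivity) (by positivity)]; linarith only [hw', mul_nonneg_of_nonpos_of_nonpos (Mathlib.Tactic.Linarith.sub_nonpos_of_le (Mathlib.Tactic.Linarith.natCast_nonneg ℝ w)) (Mathlib.Tactic.Linarith.sub_nonpos_of_le hw')]
    have h7 : (0 : ℝ) ≤ (r : ℝ)⁻¹ := by positivity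
    split_ifs <;> linarith only [hε1, hε2, h5, h6, h7]
  · refine (sum_le_sum (g := fun j => 42 / (w : ℝ) ^ 2 +
      if ∀ p : SP (w ^ 3) z p₁, ¬ p.1 ∣ r * n + j then (d j : ℝ)⁻¹ else 0) fun j hj => ?_).trans ?_
    · refine (step_le_of (by positivity) (hZ _) (h2 j)
        fun q hq h => (h3 j q hq h).trans hw3).trans
          (add_le_add (hst _ (mem_Icc.1 (mem_sdiff.1 hj).1).2) ?_)
      split_ifs with a1 a2
      · rfl
      · refine absurd (fun p hp => ?_) a2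
        obtain ⟨q, hq, ⟨c, hc⟩, a3⟩ := a1
        obtain ⟨-, ⟨b1, b2⟩, b3⟩ := mem_SP.1 p.2
        rw [hc] at hp a3
        rcases (Nat.Prime.dvd_mul b3).1 hp with h | h
        · rw [← (Nat.prime_dvd_prime_iff_eq b3 hq).1 h] at hc a3
          have := Nat.mul_le_mul (Nat.pow_le_pow_left hw2.le 3) (b2.trans hz)
          have := e28 4 (by norm_num)
          rw [pow_succ] at this
          omega
        · have hc0 : 0 < c := Nat.pos_of_ne_zero (by rintro rfl; omega)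
          have := Nat.le_of_dvd hc0 h
          rw [mul_comm] at a3
          have := lt_of_mul_lt_mul_right' a3
          omega
      · positivity
      · rfl
    · rw [sum_add_distrib, sum_const, nsmul_eq_mul]
      have h5 : (#(Icc 1 (21 * w) \ univ.image fun i : Fin k => r * P ^ (i.1 + 1)) : ℝ) ≤ 21 * w := by
        exact_mod_cast (card_le_card sdiff_subset).trans (by simp)
      have h6 : 21 * w * (42 / (w : ℝ) ^ 2) = 882 / w := by field_simp; norm_num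
      linarith only [hε2, h4, h6, h5, hw, mul_le_mul_of_nonneg_right h5 (by positivity : 0 ≤ 42 / (w : ℝ) ^ 2)]

theorem main_step {t ε : ℝ} (hε : 0 < ε) (hεt : ε < t) :
    ∃ n : ℕ, t ≤ ∑ j ∈ Icc 1 ⌊Real.log n⌋₊, step (n + j) ∧
      ∑ j ∈ Icc 1 ⌊Real.log n⌋₊, step (n + j) ≤ t + ε := by
  have hlog : Tendsto (fun w : ℕ => Real.log w) atTop atTop :=
    Real.tendsto_log_atTop.comp tendsto_natCast_atTop_atTop
  obtain ⟨r, hr1, hr⟩ := Nat.exists_infinite_primes ⌈2 / ε⌉₊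
  have hr0 : (0 : ℝ) < r := by exact_mod_cast hr.pos
  obtain ⟨m₀, hm⟩ := exists_nat_ge (t / (Real.log (r + 1) - Real.log r))
  rw [div_le_iff₀ (sub_pos.2 (Real.log_lt_log hr0 (by linarith only [])))] at hm
  obtain ⟨J, hJ⟩ : ∃ J, 2 * 10 ^ 10 * (m₀ + 1) = J := ⟨_, rfl⟩
  obtain ⟨k, hk⟩ : ∃ k, 2 ^ J = k := ⟨_, rfl⟩
  obtain ⟨a, ha⟩ : ∃ a, 72 * k * J = a := ⟨_, rfl⟩
  have ha0 : 0 < a := by rw [← ha, ← hk, ← hJ]; positivity
  obtain ⟨y, cy, hy⟩ := ((hlog.eventually_ge_atTop (k * 2 ^ 23 * 370440 / ε)).and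
    (eventually_gt_atTop 1)).exists
  have hQ : Tendsto (fun w : ℕ => ⌈Real.exp (Real.log w ^ 6)⌉₊) atTop atTop :=
    tendsto_nat_ceil_atTop.comp (Real.tendsto_exp_atTop.comp
      ((tendsto_pow_atTop (by norm_num)).comp hlog))
  have hx : Tendsto (fun w : ℕ => 2 ^ (28 * w)) atTop atTop :=
    (tendsto_pow_atTop_atTop_of_one_lt one_lt_two).comp (tendsto_id.const_mul_atTop' (by norm_num))
  have c9 : ∀ᶠ w : ℕ in atTop, Real.log w ^ 200 ≤ w := by
    filter_upwards [tendsto_natCast_atTop_atTop.eventually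
      ((Real.isLittleO_pow_log_id_atTop (n := 200)).bound one_pos)] with w hw
    exact (le_abs_self _).trans (by simpa using hw)
  obtain ⟨s, c1, c2, c3, c4, c5, c6, c8, c9, cπ, cθ, ⟨p₁, hp₁, hyp, hSW⟩, d1, d2⟩ :=
    ((tendsto_id.const_mul_atTop' (by positivity : 0 < 4 * a)).eventually
      ((hlog.eventually_ge_atTop _).and ((hlog.eventually_ge_atTop _).and
      ((hlog.eventually_ge_atTop _).and ((hlog.eventually_ge_atTop _).and
      ((hlog.eventually_ge_atTop _).and ((hlog.eventually_ge_atTop _).and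
      ((hlog.eventually_ge_atTop _).and (c9.and (ev_pi.and ((hx.eventually ev_theta).and
      ((hQ.eventually (weak_siegel_walfisz y)).and
      ((eventually_ge_atTop (2 * (r * primorial y ^ k))).and
      (tendsto_natCast_atTop_atTop.eventually_ge_atTop (1764 / ε))))))))))))))).exists
  obtain ⟨w, hw⟩ : ∃ w, 4 * a * s = w := ⟨_, rfl⟩
  simp only [id, hw] at c1 c2 c3 c4 c5 c6 c8 c9 cπ cθ hSW d1 d2
  obtain ⟨n, hn, d, e1, e2, e3, e4⟩ := sieve_step hr hε hJ hk ha hw hy cy c1 c2 c3 c4 c5 c6 c8 c9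
    cπ cθ (Nat.le_ceil _) ((Nat.ceil_lt_add_one (Real.exp_pos _).le).le.trans (by
      have : 1 ≤ Real.log w ^ 6 := one_le_pow₀ (by linarith only [c1])
      rw [two_mul, Real.exp_add]
      (refine le_of_not_gt fun h_nl => ?_; linarith only [h_nl, this, Real.add_one_le_exp (Real.log w ^ 6), mul_nonneg_of_nonpos_of_nonpos (Mathlib.Tactic.Linarith.sub_nonpos_of_le (mul_self_nonneg (Real.exp (Real.log ↑w ^ (6 : ℕ))))) (Mathlib.Tactic.Linarith.sub_nonpos_of_le this), mul_nonneg_of_nonpos_of_nonpos (Mathlib.Tactic.Linarith.sub_nonpos_of_le (mul_self_nonneg (Real.exp (Real.log ↑w ^ (6 : ℕ))))) (Mathlib.Tactic.Linarith.sub_nonpos_of_le (Real.add_one_le_exp (Real.log ↑w ^ (6 : ℕ)))), mul_nonneg_of_nonpos_of_nonpos (Mathlib.Tactic.Linarith.sub_nonpos_of_le this) (le_of_lt (Mathlib.Tactic.Linarith.sub_neg_of_lt h_nl)), mul_nonneg_of_nonpos_of_nonpos (le_of_lt (Mathlib.Tactic.Linarith.sub_neg_of_lt h_nl)) (Mathlib.Tactic.Linarith.sub_nonpos_of_le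 (Real.add_one_le_exp (Real.log ↑w ^ (6 : ℕ))))]))) hp₁ hyp hSW _ sdiff_subset
    fun j hj i h => (mem_sdiff.1 hj).2 (mem_image.2 ⟨i, mem_univ _, h.symm⟩)
  have hw8 : 10 ^ 8 ≤ w := by exact_mod_cast (num_basic c1 c9).2.1
  refine final_step hεt hr.pos (hy.trans_le le_primorial_self) d1 (by omega)
    (Nat.pow_le_pow_right two_pos (by rw [← hw, mul_assoc]; omega)) hn hm ?_ ?_ e1 e2 e3 e4
  · rw [← inv_div]
    exact inv_anti₀ (by positivity) ((Nat.le_ceil _).trans (by exact_mod_cast hr1))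
  · rw [div_le_iff₀ (by positivity)]
    rw [div_le_iff₀ hε] at d2
    linarith only [d2]

end Pool.Agent.Work.MP_52820d_nt
end
end
end
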