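import Pool.Agent.Lib.ANT.MultiSieve
import Pool.Agent.Lib.ANT.SieveClasses
import Pool.Agent.Lib.LargeSieve.Bilinear

/-!
# The sieve sums over integers and over primes in a residue class
-/

noncomputable section

open Finset

namespace Pool.Agent.Work.MP_52820d_nt

open Pool.Agent.Lib.ANT Pool.Agent.Lib.LargeSieve

lemma crt_fin {α : Type*} (s : Finset α) (q c : α → ℕ) (W b : ℕ)
    (hW : ∀ p ∈ s, Nat.Coprime W (q p))
    (hq : ∀ p ∈ s, ∀ p' ∈ s, p ≠ p' → Nat.Coprime (q p) (q p')) :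
    (∃ a, ∀ n, (n ≡ b [MOD W] ∧ ∀ p ∈ s, n ≡ c p [MOD q p]) ↔ n ≡ a [MOD W * ∏ p ∈ s, q p]) ∧
      (W * ∏ p ∈ s, q p).totient = W.totient * ∏ p ∈ s, (q p).totient := by
  classical
  induction s using Finset.induction_on with
  | empty => exact ⟨⟨b, fun n => by simp⟩, by simp⟩
  | insert p s hp ih =>
    obtain ⟨⟨a, ha⟩, h2⟩ := ih (fun p' h => hW p' (mem_insert_of_mem h))
      fun p' h p'' h' => hq p' (mem_insert_of_mem h) p'' (mem_insert_of_mem h')
    have hc : Nat.Coprime (W * ∏ p ∈ s, q p) (q p) :=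
      Nat.Coprime.mul_left (hW p (mem_insert_self _ _)) (Nat.Coprime.prod_left fun p' h =>
        hq p' (mem_insert_of_mem h) p (mem_insert_self _ _) fun e => hp (e ▸ h))
    rw [prod_insert hp, prod_insert hp, mul_comm (q p), ← mul_assoc]
    refine ⟨⟨Nat.chineseRemainder hc a (c p), fun n => ?_⟩, by rw [Nat.totient_mul hc, h2]; ring⟩
    obtain ⟨k1, k2⟩ := (Nat.chineseRemainder hc a (c p)).2
    rw [← Nat.modEq_and_modEq_iff_modEq_mul hc, forall_mem_insert]
    exact ⟨fun h => ⟨((ha n).1 ⟨h.1, h.2.2⟩).trans k1.symm, h.2.1.trans k2.symm⟩,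
      fun h => ⟨((ha n).2 (h.1.trans k1)).1, h.2.trans k2, ((ha n).2 (h.1.trans k1)).2⟩⟩

lemma exists_root {p A : ℕ} (hp : p.Prime) (hA : ¬ p ∣ A) (B : ℕ) :
    ∃ c, ∀ n, p ∣ A * n + B ↔ n ≡ c [MOD p] := by
  have : Fact p.Prime := ⟨hp⟩
  have hA' : (A : ZMod p) ≠ 0 := by rwa [Ne, ZMod.natCast_eq_zero_iff]
  refine ⟨(-(B : ZMod p) / A).val, fun n => ?_⟩
  rw [← ZMod.natCast_eq_zero_iff, ← ZMod.natCast_eq_natCast_iff, ZMod.natCast_zmod_val,
    eq_div_iff hA', Nat.cast_add, Nat.cast_mul, add_eq_zero_iff_eq_neg, mul_comm]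

variable {α ι : Type*} [Fintype α] [DecidableEq α] [Fintype ι] [DecidableEq ι] {pr : α → ℕ}

omit [DecidableEq α] [Fintype ι] [DecidableEq ι] in
lemma exists_class (hpr : ∀ p, (pr p).Prime) (hinj : Function.Injective pr) {W : ℕ}
    (hW : ∀ p, ¬ pr p ∣ W) (A B : ι → ℕ) (hA : ∀ i p, ¬ pr p ∣ A i) (b : ℕ) (d : α → Option ι) :
    (∃ a, ∀ n, (n ≡ b [MOD W] ∧ ∀ p i, d p = some i → pr p ∣ A i * n + B i)
      ↔ n ≡ a [MOD W * barO pr d]) ∧ ((W * barO pr d).totient : ℝ)
        = W.totient * ∏ p, if (d p).isSome then (pr p : ℝ) - 1 else 1 := by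
  have h1 : ∀ p, ∃ c, ∀ n, (∀ i, d p = some i → pr p ∣ A i * n + B i)
      ↔ n ≡ c [MOD if (d p).isSome then pr p else 1] := fun p => by
    cases h : d p with
    | none => exact ⟨0, fun n => by simp [Nat.modEq_one]⟩
    | some i =>
      obtain ⟨c, hc⟩ := exists_root (hpr p) (hA i p) (B i)
      exact ⟨c, fun n => by simpa using hc n⟩
  choose c hc using h1
  obtain ⟨⟨a, ha⟩, h2⟩ := crt_fin univ (fun p => if (d p).isSome then pr p else 1) c W b
    (fun p _ => by
      split_ifs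
      · exact ((Nat.Prime.coprime_iff_not_dvd (hpr p)).2 (hW p)).symm
      · simp) (fun p _ p' _ h => by
      split_ifs
      · exact (Nat.coprime_primes (hpr p) (hpr p')).2 fun e => h (hinj e)
      all_goals simp)
  refine ⟨⟨a, fun n => ?_⟩, ?_⟩
  · rw [barO, ← ha]; simp only [hc, mem_univ, true_imp_iff]
  · rw [barO, h2, Nat.cast_mul, Nat.cast_prod]
    congr 1
    refine prod_congr rfl fun p _ => ?_
    split_ifs
    · rw [Nat.totient_prime (hpr p), Nat.cast_sub (hpr p).one_le, Nat.cast_one]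
    · simp

omit [DecidableEq ι] in
lemma sum_prod_isSome (f g : α → ℝ) :
    ∑ d : α → Option ι, ∏ p, (if (d p).isSome then f p else g p)
      = ∏ p, (g p + Fintype.card ι * f p) := by
  rw [← Fintype.prod_sum fun p (u : Option ι) => if u.isSome then f p else g p]
  simp

omit [DecidableEq α] in
lemma prod_one_add_mul_le (c : ℕ) :
    ∏ p, (1 + c * (pr p : ℝ)⁻¹) ≤ (∏ p, (1 + (pr p : ℝ)⁻¹)) ^ c := by
  rw [← prod_pow]
  exact prod_le_prod (fun _ _ => by positivity) fun p _ =>
    one_add_mul_le_pow (by have : (0 : ℝ) ≤ (pr p : ℝ)⁻¹ := by positivity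
                           linarith) c

omit [DecidableEq α] [Fintype ι] [DecidableEq ι] in
lemma inv_barO (d : α → Option ι) :
    ((barO pr d : ℕ) : ℝ)⁻¹ = ∏ p, if (d p).isSome then (pr p : ℝ)⁻¹ else 1 := by
  rw [barO, Nat.cast_prod, ← prod_inv_distrib]
  exact prod_congr rfl fun p _ => by split_ifs <;> simp

omit [DecidableEq α] [Fintype ι] [DecidableEq ι] in
lemma barO_pos (hpr : ∀ p, (pr p).Prime) (d : α → Option ι) : 0 < barO pr d :=
  prod_pos fun p _ => by have := (hpr p).pos; split_ifs <;> omega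

omit [DecidableEq ι] in
lemma sum_five_le (hpr : ∀ p, (pr p).Prime) (R : ℕ) :
    ∑ d : α → Option ι with barO pr d ≤ R, (∏ p, if (d p).isSome then 5 else 1 : ℝ) * 1
      ≤ R * (∏ p, (1 + (pr p : ℝ)⁻¹)) ^ (5 * Fintype.card ι) := by
  calc _ ≤ ∑ d : α → Option ι with barO pr d ≤ R,
        R * ∏ p, if (d p).isSome then 5 * (pr p : ℝ)⁻¹ else 1 := by
        refine sum_le_sum fun d hd => ?_
        have h1 : (barO pr d : ℝ) ≤ R := by exact_mod_cast (mem_filter.1 hd).2
        have h2 : (0 : ℝ) < barO pr d := by exact_mod_cast barO_pos hpr d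
        have e : ∏ p, (if (d p).isSome then 5 * (pr p : ℝ)⁻¹ else 1)
            = (∏ p, if (d p).isSome then 5 else 1 : ℝ) * ((barO pr d : ℕ) : ℝ)⁻¹ := by
          rw [inv_barO, ← prod_mul_distrib]
          exact prod_congr rfl fun p _ => by split_ifs <;> simp
        rw [e, mul_left_comm]
        refine mul_le_mul_of_nonneg_left ?_ (prod_nonneg fun _ _ => by split_ifs <;> norm_num)
        rw [← div_eq_mul_inv, le_div_iff₀ h2]; linarith
    _ ≤ ∑ d : α → Option ι, R * ∏ p, if (d p).isSome then 5 * (pr p : ℝ)⁻¹ else 1 :=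
        sum_le_sum_of_subset_of_nonneg (filter_subset _ _) fun d _ _ =>
          mul_nonneg (by positivity) (prod_nonneg fun _ _ => by split_ifs <;> positivity)
    _ ≤ _ := by
        rw [← mul_sum, sum_prod_isSome]
        refine mul_le_mul_of_nonneg_left (le_trans (le_of_eq ?_) (prod_one_add_mul_le _))
          (by positivity)
        exact prod_congr rfl fun p _ => by push_cast; ring

/-- sieve sum over all integers of a residue class -/
lemma sum_int_le (hpr : ∀ p, (pr p).Prime) (hinj : Function.Injective pr) {W : ℕ} (hW0 : 0 < W)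
    (hW : ∀ p, ¬ pr p ∣ W) (A B : ι → ℕ) (hA : ∀ i p, ¬ pr p ∣ A i)
    (hAB : ∀ n p i j, pr p ∣ A i * n + B i → pr p ∣ A j * n + B j → i = j) (b x : ℕ)
    (Y : (ι → α → Bool) → ℝ) {Ym : ℝ} (hY : ∀ T, |Y T| ≤ Ym) (R : ℕ)
    (hR : ∀ T, Y T ≠ 0 → ∏ i, bar pr (T i) ≤ R)
    {ε : ℝ} (hε : 4 ^ Fintype.card ι * (6 * Fintype.card ι + 3) * ∑ p, ((pr p : ℝ)⁻¹) ^ 2 ≤ ε)
    (hε1 : ε ≤ 1) :
    ∑ n ∈ Ioc x (x + x) with n ≡ b [MOD W],
        sieveFn pr Y (fun i p => decide (pr p ∣ A i * n + B i)) ^ 2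
      ≤ x / W * ∑ T, Y T ^ 2 * ∏ i, ((bar pr (T i) : ℕ) : ℝ)⁻¹
        + Ym ^ 2 * ((∏ p, (1 + (pr p : ℝ)⁻¹)) ^ (7 * Fintype.card ι) * R ^ 2
          + x / W * (∏ p, (1 + (pr p : ℝ)⁻¹)) ^ Fintype.card ι * (2 * ε)) := by
  have H := multi_sieve pr (fun p => (hpr p).two_le) ((Ioc x (x + x)).filter (· ≡ b [MOD W]))
    (fun _ => 1) (fun n i p => decide (pr p ∣ A i * n + B i))
    (fun n _ p i j h h' => hAB n p i j (by simpa using h) (by simpa using h'))
    (fun p => (pr p : ℝ)⁻¹) (fun p => by simp) Y hY R hR (x / W) (fun _ => 1) (fun d _ => ?_) hε hε1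
  · simp only [one_mul] at H
    rw [abs_of_nonneg (by positivity : (0 : ℝ) ≤ x / W)] at H
    have h1 := sum_five_le (ι := ι) hpr (R ^ 2)
    have h2 : 0 ≤ ∏ p, (1 + (pr p : ℝ)⁻¹) := prod_nonneg fun _ _ => by positivity
    have h3 := mul_le_mul_of_nonneg_left (mul_le_mul_of_nonneg_left h1
      (sq_nonneg ((∏ p, (1 + (pr p : ℝ)⁻¹)) ^ Fintype.card ι))) (sq_nonneg Ym)
    have h4 := (le_abs_self _).trans H
    have e : ((∏ p, (1 + (pr p : ℝ)⁻¹)) ^ Fintype.card ι) ^ 2 *
        (((R ^ 2 : ℕ) : ℝ) * (∏ p, (1 + (pr p : ℝ)⁻¹)) ^ (5 * Fintype.card ι))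
        = (∏ p, (1 + (pr p : ℝ)⁻¹)) ^ (7 * Fintype.card ι) * R ^ 2 := by push_cast; ring
    rw [e] at h3
    linarith only [h3, h4]
  · obtain ⟨⟨a, ha⟩, -⟩ := exists_class hpr hinj hW A B hA b d
    have h := abs_card_modEq_sub_le x x (W * barO pr d) a (Nat.mul_pos hW0 (barO_pos hpr d))
    rw [filter_filter, sum_const, nsmul_eq_mul, mul_one, ← inv_barO]
    simp only [decide_eq_true_eq, ha]
    rwa [Nat.cast_mul, ← div_div, div_eq_mul_inv] at h

/-- `log n` on primes -/
def th (n : ℕ) : ℝ := if n.Prime then Real.log n else 0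

open Classical in
/-- sum over the primitive characters mod `f` of the character sums over the primes of `(a, b]` -/
def Psi (a b f : ℕ) : ℝ :=
  ∑ χ : DirichletCharacter ℂ f with χ.IsPrimitive, ‖∑ n ∈ Ioc a b, th n * χ n‖

lemma Psi_nonneg (a b f : ℕ) : 0 ≤ Psi a b f := sum_nonneg fun _ _ => norm_nonneg _

open Classical in
lemma th_AP {q c a : ℕ} (hq : 0 < q) (hc : Nat.Coprime c q) (hqa : q ≤ a) (b : ℕ) :
    |∑ n ∈ Ioc a b with n ≡ c [MOD q], th n - (∑ n ∈ Ioc a b, th n) / q.totient|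
      ≤ (∑ f ∈ q.divisors with 1 < f, Psi a b f) / q.totient := by
  have hcop : ∀ n ∈ Ioc a b, n.Prime → Nat.Coprime n q := fun n hn hp =>
    (Nat.coprime_of_lt_prime hq.ne' (hqa.trans_lt (mem_Ioc.1 hn).1) hp)
  have e1 : ∑ n ∈ Ioc a b with n ≡ c [MOD q], th n - (∑ n ∈ Ioc a b, th n) / q.totient
      = ∑ n ∈ Ioc a b, th n * kap q c n := by
    rw [sum_filter, sum_div, ← sum_sub_distrib]
    refine sum_congr rfl fun n hn => ?_
    by_cases hp : n.Prime
    · rw [kap, if_pos (hcop n hn hp)]; split_ifs <;> ring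
    · simp [th, hp]
  have e2 : ((∑ n ∈ Ioc a b, th n * kap q c n : ℝ) : ℂ) = (1 / (q.totient : ℂ)) *
      ∑ χ : DirichletCharacter ℂ q with χ ≠ 1,
        (starRingEnd ℂ) (χ c) * ∑ n ∈ Ioc a b, th n * χ n := by
    push_cast
    simp_rw [kap_eq hq hc, mul_sum]
    rw [sum_comm]
    exact sum_congr rfl fun _ _ => sum_congr rfl fun _ _ => by ring
  have : NeZero q := ⟨hq.ne'⟩
  rw [e1, ← Real.norm_eq_abs, ← Complex.norm_real, e2, norm_mul, norm_div, norm_one,
    Complex.norm_natCast, one_div, mul_comm, ← div_eq_mul_inv]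
  gcongr
  refine (norm_sum_le _ _).trans ?_
  simp only [Psi]
  rw [sum_sigma']
  refine sum_le_of_injOn _ _ _ _ (fun χ : DirichletCharacter ℂ q =>
      (⟨χ.conductor, χ.primitiveCharacter⟩ : Σ f : ℕ, DirichletCharacter ℂ f)) ?_ ?_
    (fun _ _ => by positivity) ?_
  · intro χ _ χ' _ h
    apply MulChar.ext
    intro u
    have h1 := congrArg (fun x : (Σ f : ℕ, DirichletCharacter ℂ f) =>
      x.2 (((u : ZMod q).val : ℤ) : ZMod x.1)) h
    have hc : IsCoprime (((u : ZMod q).val : ℕ) : ℤ) q :=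
      Nat.isCoprime_iff_coprime.2 (ZMod.val_coe_unit_coprime u)
    simp only at h1
    rw [χ.primitiveCharacter_apply_of_isCoprime hc,
      χ'.primitiveCharacter_apply_of_isCoprime hc] at h1
    simpa using h1
  · intro χ hχ
    simp only [mem_sigma, mem_filter, Nat.mem_divisors, mem_univ, true_and] at hχ ⊢
    refine ⟨⟨⟨χ.conductor_dvd_level, hq.ne'⟩, ?_⟩, χ.primitiveCharacter_isPrimitive⟩
    have h0 := χ.conductor_ne_zero
    have h1 : χ.conductor ≠ 1 := fun h => hχ (DirichletCharacter.eq_one_iff_conductor_eq_one.2 h)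
    omega
  · intro χ _
    rw [norm_mul, Complex.norm_conj]
    refine (mul_le_of_le_one_left (norm_nonneg _) (χ.norm_le_one _)).trans (le_of_eq ?_)
    refine congrArg _ (sum_congr rfl fun n hn => ?_)
    by_cases hp : n.Prime
    · have := χ.primitiveCharacter_apply_of_isCoprime (a := n)
        (Nat.isCoprime_iff_coprime.2 (hcop n hn hp))
      simp only [Int.cast_natCast] at this
      simp only [this]
    · simp [th, hp]

open Classical in
/-- the weight with which the conductor `f` enters the error term -/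
def beta (pr : α → ℕ) (k W f : ℕ) : ℝ :=
  if Squarefree f ∧ ∀ q ∈ f.primeFactors, q ∣ W ∨ ∃ p, pr p = q then
    ∏ p with pr p ∣ f, 10 * k * (pr p : ℝ)⁻¹ else 0

omit [DecidableEq α] in
lemma beta_nonneg (k W f : ℕ) : 0 ≤ beta pr k W f := by
  unfold beta; split_ifs
  · exact prod_nonneg fun _ _ => by positivity
  · exact le_rfl

omit [DecidableEq ι] in
lemma sum_dvd_le (hpr : ∀ p, (pr p).Prime) (hinj : Function.Injective pr) {W : ℕ}
    (hWs : Squarefree W) (hW : ∀ p, ¬ pr p ∣ W) {k : ℕ} (hk : Fintype.card ι ≤ k) (f : ℕ) :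
    ∑ d : α → Option ι with f ∣ W * barO pr d, ∏ p, (if (d p).isSome then 10 * (pr p : ℝ)⁻¹ else 1)
      ≤ (∏ p, (1 + (pr p : ℝ)⁻¹)) ^ (10 * k) * beta pr k W f := by
  have hk' : (Fintype.card ι : ℝ) ≤ k := by exact_mod_cast hk
  have hdvd : ∀ (d : α → Option ι) q, q.Prime → q ∣ barO pr d → ∃ p, (d p).isSome ∧ pr p = q := by
    intro d q hq h
    obtain ⟨p, -, hp⟩ := (Prime.dvd_finsetProd_iff hq.prime _).1 h
    split_ifs at hp with h'
    · exact ⟨p, h', ((Nat.prime_dvd_prime_iff_eq hq (hpr p)).1 hp).symm⟩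
    · exact absurd (Nat.dvd_one.1 hp) hq.ne_one
  unfold beta
  split_ifs with h
  · calc _ ≤ ∑ d : α → Option ι, ∏ p,
          (if (d p).isSome then 10 * (pr p : ℝ)⁻¹ else if pr p ∣ f then 0 else 1) := by
          refine le_trans (le_of_eq (sum_congr rfl fun d hd => prod_congr rfl fun p _ => ?_))
            (sum_le_sum_of_subset_of_nonneg (filter_subset _ _) fun d _ _ =>
              prod_nonneg fun _ _ => by split_ifs <;> positivity)
          split_ifs with h1 h2
          · rfl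
          · rcases (Nat.Prime.dvd_mul (hpr p)).1 (h2.trans (mem_filter.1 hd).2) with h3 | h3
            · exact absurd h3 (hW p)
            · obtain ⟨p', h4, h5⟩ := hdvd d _ (hpr p) h3
              exact absurd (hinj h5 ▸ h4) h1
          · rfl
      _ ≤ (∏ p, (1 + ((10 * k : ℕ) : ℝ) * (pr p : ℝ)⁻¹)) *
          ∏ p with pr p ∣ f, 10 * k * (pr p : ℝ)⁻¹ := by
          rw [sum_prod_isSome, prod_filter, ← prod_mul_distrib]
          refine prod_le_prod (fun _ _ => by split_ifs <;> positivity) fun p _ => ?_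
          have h0 : (0 : ℝ) ≤ (pr p : ℝ)⁻¹ := by positivity
          have h1 : (Fintype.card ι : ℝ) * (10 * (pr p : ℝ)⁻¹) ≤ 10 * k * (pr p : ℝ)⁻¹ := by nlinarith only [hk', h0]
          have h2 : 0 ≤ 10 * k * (pr p : ℝ)⁻¹ := by positivity
          push_cast
          split_ifs <;> nlinarith only [h1, h2]
      _ ≤ _ := mul_le_mul_of_nonneg_right (prod_one_add_mul_le _)
          (prod_nonneg fun _ _ => by positivity)
  · rw [mul_zero, sum_eq_zero]
    intro d hd
    have hd' := (mem_filter.1 hd).2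
    refine absurd ⟨Squarefree.squarefree_of_dvd hd' ?_, fun q hq => ?_⟩ h
    · rw [Nat.squarefree_mul_iff]
      refine ⟨Nat.Coprime.prod_right fun p _ => ?_, hWs, ?_⟩
      · split_ifs
        · exact ((Nat.Prime.coprime_iff_not_dvd (hpr p)).2 (hW p)).symm
        · simp
      · refine Finset.squarefree_prod_of_pairwise_isCoprime (fun p _ p' _ h => ?_) fun p _ => ?_
        · refine Nat.coprime_iff_isRelPrime.1 ?_
          beta_reduce
          split_ifs
          · exact (Nat.coprime_primes (hpr p) (hpr p')).2 fun e => h (hinj e)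
          all_goals simp
        · split_ifs
          · exact (hpr p).squarefree
          · exact squarefree_one
    · have hq' := Nat.prime_of_mem_primeFactors hq
      rcases (Nat.Prime.dvd_mul hq').1 ((Nat.dvd_of_mem_primeFactors hq).trans hd') with h3 | h3
      · exact Or.inl h3
      · obtain ⟨p, -, hp⟩ := hdvd d q hq' h3
        exact Or.inr ⟨p, hp⟩

/-- sieve sum over the integers `n` of a residue class with `n + h` prime -/
lemma le_sum_prime (hpr : ∀ p, (pr p).Prime) (hinj : Function.Injective pr) {W : ℕ}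
    (hWs : Squarefree W) (hW : ∀ p, ¬ pr p ∣ W) (B : ι → ℕ) (h : ℕ)
    (hB : ∀ n p i j, pr p ∣ n + B i → pr p ∣ n + B j → i = j)
    (hBh : ∀ n p i, pr p ∣ n + B i → ¬ pr p ∣ n + h) (b x : ℕ) (hb : Nat.Coprime (b + h) W)
    (Y : (ι → α → Bool) → ℝ) {Ym : ℝ} (hY : ∀ T, |Y T| ≤ Ym) (R : ℕ)
    (hR : ∀ T, Y T ≠ 0 → ∏ i, bar pr (T i) ≤ R) {F : ℕ} (hF : W * R ^ 2 ≤ F) (hFx : F ≤ x)
    {k : ℕ} (hk : Fintype.card ι ≤ k)
    {ε : ℝ} (hε : 4 ^ Fintype.card ι * (6 * Fintype.card ι + 3) * ∑ p, ((pr p : ℝ)⁻¹) ^ 2 ≤ ε)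
    (hε1 : ε ≤ 1) :
    (∑ n ∈ Ioc (x + h) (x + x + h), th n) / W.totient *
        (∑ T, Y T ^ 2 * ∏ i, ((bar pr (T i) : ℕ) : ℝ)⁻¹
          - Ym ^ 2 * (∏ p, (1 + (pr p : ℝ)⁻¹)) ^ Fintype.card ι * (2 * ε))
      - Ym ^ 2 * (∏ p, (1 + (pr p : ℝ)⁻¹)) ^ (12 * k) *
          (∑ f ∈ Icc 2 F, Psi (x + h) (x + x + h) f * beta pr k W f) / W.totient
      ≤ ∑ n ∈ Ioc x (x + x) with n ≡ b [MOD W],
        th (n + h) * sieveFn pr Y (fun i p => decide (pr p ∣ n + B i)) ^ 2 := by
  have hW0 : 0 < W := Nat.pos_of_ne_zero hWs.ne_zero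
  have hφ : (0 : ℝ) < W.totient := by exact_mod_cast Nat.totient_pos.2 hW0
  have hp2 : ∀ p, (2 : ℝ) ≤ pr p := fun p => by exact_mod_cast (hpr p).two_le
  have hinv : ∀ p, ((pr p : ℝ) - 1)⁻¹ ≤ 2 * (pr p : ℝ)⁻¹ := fun p => by
    have := hp2 p
    rw [← div_eq_mul_inv, ← one_div, div_le_div_iff₀ (by linarith only [this]) (by linarith only [this])]; linarith only [this]
  set M := (∑ n ∈ Ioc (x + h) (x + x + h), th n) / W.totient with hM
  have hM0 : 0 ≤ M := div_nonneg (sum_nonneg fun n _ => by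
    unfold th; split_ifs; exacts [Real.log_natCast_nonneg _, le_rfl]) hφ.le
  set V := ∏ p, (1 + (pr p : ℝ)⁻¹) with hV
  have hV1 : 1 ≤ V := one_le_prod fun p _ => le_add_of_nonneg_right (by positivity)
  have H := multi_sieve pr (fun p => (hpr p).two_le) ((Ioc x (x + x)).filter (· ≡ b [MOD W]))
    (fun n => th (n + h)) (fun n i p => decide (pr p ∣ n + B i))
    (fun n _ p i j h h' => hB n p i j (by simpa using h) (by simpa using h'))
    (fun p => ((pr p : ℝ) - 1)⁻¹) (fun p => ?_) Y hY R hR M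
    (fun d => (∑ f ∈ (W * barO pr d).divisors with 1 < f, Psi (x + h) (x + x + h) f)
      / (W * barO pr d).totient) (fun d hd => ?_) hε hε1
  · rw [abs_of_nonneg hM0] at H
    have h1 : ∑ d : α → Option ι with barO pr d ≤ R ^ 2, (∏ p, if (d p).isSome then 5 else 1 : ℝ) *
        ((∑ f ∈ (W * barO pr d).divisors with 1 < f, Psi (x + h) (x + x + h) f)
          / (W * barO pr d).totient)
        ≤ V ^ (10 * k) * (∑ f ∈ Icc 2 F, Psi (x + h) (x + x + h) f * beta pr k W f) / W.totient := by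
      calc _ ≤ ∑ d : α → Option ι, (∑ f ∈ Icc 2 F with f ∣ W * barO pr d,
            Psi (x + h) (x + x + h) f * ∏ p, (if (d p).isSome then 10 * (pr p : ℝ)⁻¹ else 1))
            / W.totient := by
            refine le_trans (sum_le_sum fun d hd => ?_) (sum_le_sum_of_subset_of_nonneg
              (filter_subset (fun d => barO pr d ≤ R ^ 2) _) fun d _ _ => div_nonneg (sum_nonneg
                fun f _ => mul_nonneg (Psi_nonneg _ _ _) (prod_nonneg fun _ _ => by
                  split_ifs <;> positivity)) hφ.le)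
            rw [(exists_class hpr hinj hW (fun _ => 1) B (fun _ p => (hpr p).not_dvd_one) b d).2,
              ← sum_mul, mul_comm (W.totient : ℝ), ← div_div, ← mul_div_assoc, div_eq_mul_inv _
              (∏ p, _), ← prod_inv_distrib, mul_left_comm, ← prod_mul_distrib]
            gcongr with p
            · exact prod_nonneg fun p _ => mul_nonneg (by split_ifs <;> norm_num)
                (inv_nonneg.2 (by have := hp2 p; split_ifs <;> linarith only [this]))
            · exact sum_nonneg fun _ _ => Psi_nonneg _ _ _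
            · exact fun _ _ _ => Psi_nonneg _ _ _
            · intro f hf
              simp only [mem_filter, Nat.mem_divisors, mem_Icc] at hf hd ⊢
              exact ⟨⟨hf.2, (Nat.le_of_dvd (Nat.pos_of_ne_zero hf.1.2) hf.1.1).trans
                ((Nat.mul_le_mul_left _ hd.2).trans hF)⟩, hf.1.1⟩
            · exact fun p _ => mul_nonneg (by split_ifs <;> norm_num)
                (inv_nonneg.2 (by have := hp2 p; split_ifs <;> linarith only [this]))
            · split_ifs
              · linarith only [hinv p]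
              · simp
        _ ≤ _ := by
            rw [← sum_div, mul_sum]
            gcongr
            simp_rw [sum_filter]
            rw [sum_comm]
            refine sum_le_sum fun f _ => ?_
            rw [← sum_filter, ← mul_sum, mul_left_comm]
            exact mul_le_mul_of_nonneg_left (sum_dvd_le hpr hinj hWs hW hk f) (Psi_nonneg _ _ _)
    have h2 : (V ^ Fintype.card ι) ^ 2 ≤ V ^ (2 * k) := by
      rw [← pow_mul]; exact pow_le_pow_right₀ hV1 (by omega)
    have h3 := mul_le_mul_of_nonneg_left (mul_le_mul h2 h1 (sum_nonneg fun d _ => mul_nonneg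
      (prod_nonneg fun _ _ => by split_ifs <;> norm_num) (div_nonneg (sum_nonneg fun _ _ =>
        Psi_nonneg _ _ _) (Nat.cast_nonneg _))) (by positivity)) (sq_nonneg Ym)
    have h4 := (neg_le_abs _).trans H
    have e : Ym ^ 2 * (V ^ (2 * k) * (V ^ (10 * k) *
        (∑ f ∈ Icc 2 F, Psi (x + h) (x + x + h) f * beta pr k W f) / W.totient))
        = Ym ^ 2 * V ^ (12 * k) *
          (∑ f ∈ Icc 2 F, Psi (x + h) (x + x + h) f * beta pr k W f) / W.totient := by ring
    rw [e] at h3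
    linarith only [h3, h4]
  · have := hp2 p
    have h1 : ((pr p : ℝ) - 1)⁻¹ - (pr p : ℝ)⁻¹ = ((pr p : ℝ) - 1)⁻¹ * (pr p : ℝ)⁻¹ := by
      have : (pr p : ℝ) - 1 ≠ 0 := by linarith only [this]
      field_simp; ring
    have h2 : 0 ≤ ((pr p : ℝ) - 1)⁻¹ := inv_nonneg.2 (by linarith only [this])
    rw [h1, abs_of_nonneg (by positivity), sq, ← mul_assoc]
    exact mul_le_mul_of_nonneg_right (hinv p) (by positivity)
  · obtain ⟨⟨a, ha⟩, h2⟩ :=
      exists_class hpr hinj hW (fun _ => 1) B (fun _ p => (hpr p).not_dvd_one) b d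
    simp only [one_mul] at ha
    obtain ⟨a1, a2⟩ := (ha a).2 rfl
    have hc : Nat.Coprime (a + h) (W * barO pr d) := by
      refine Nat.Coprime.mul_right ?_ (Nat.Coprime.prod_right fun p _ => ?_)
      · rw [Nat.Coprime, (a1.add_right h).gcd_eq]; exact hb
      · split_ifs with h'
        · obtain ⟨i, hi⟩ := Option.isSome_iff_exists.1 h'
          exact ((Nat.Prime.coprime_iff_not_dvd (hpr p)).2 (hBh a p i (a2 p i hi))).symm
        · simp
    have h3 := th_AP (Nat.mul_pos hW0 (barO_pos hpr d)) hc (a := x + h)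
      (((Nat.mul_le_mul_left _ hd).trans hF).trans (by omega)) (x + x + h)
    refine le_of_eq_of_le (congrArg _ ?_) h3
    rw [filter_filter]
    simp only [decide_eq_true_eq, ha]
    congr 1
    · rw [← map_add_right_Ioc, filter_map, sum_map]
      refine sum_congr (filter_congr fun n _ => ?_) fun _ _ => rfl
      exact ⟨fun h' => h'.add_right h, fun h' => h'.add_right_cancel' h⟩
    · rw [h2, hM, ← div_div, div_eq_mul_inv _ (∏ p, _), ← prod_inv_distrib]
      exact congrArg _ (prod_congr rfl fun p _ => by split_ifs <;> simp)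

end Pool.Agent.Work.MP_52820d_nt
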