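import Pool.Agent.Work.MP_52820d_nt.Arith
import Pool.Agent.Lib.ANT.MeanValue

/-!
# The Bombieri–Vinogradov type error term
-/

noncomputable section

open Finset ArithmeticFunction

namespace Pool.Agent.Work.MP_52820d_nt

open Pool.Agent.Lib.ANT

open Classical in
/-- `∑*_χ |ψ(X, χ)|` -/
def Ps (X f : ℕ) : ℝ :=
  ∑ χ : DirichletCharacter ℂ f with χ.IsPrimitive, ‖∑ n ∈ range (X + 1), χ n * vonMangoldt n‖

lemma Ps_nonneg (X f : ℕ) : 0 ≤ Ps X f := sum_nonneg fun _ _ => norm_nonneg _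

/-- the saving factor -/
def sav (p₁ : ℕ) (κ : ℝ) (f : ℕ) : ℝ := if Squarefree f ∧ ¬ p₁ ∣ f then (f : ℝ) ^ (-κ) else 0

lemma sav_nonneg (p₁ : ℕ) (κ : ℝ) (f : ℕ) : 0 ≤ sav p₁ κ f := by
  unfold sav; split_ifs <;> positivity

lemma Psi_le {a b f : ℕ} (hab : a ≤ b) (hb : 1 ≤ b) (hf : 0 < f) :
    Psi a b f ≤ Ps a f + Ps b f + f * (2 * √b * Real.log b) := by
  classical
  have h1 : ∑ n ∈ Ioc a b with ¬ n.Prime, vonMangoldt n ≤ 2 * √b * Real.log b := by
    refine le_trans ?_ (Chebyshev.psi_sub_theta_le (x := b) (by exact_mod_cast hb))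
    rw [Chebyshev.psi_sub_theta_eq_sum_not_prime, Nat.floor_natCast]
    exact sum_le_sum_of_subset_of_nonneg (filter_subset_filter _ (Ioc_subset_Ioc_left (Nat.zero_le a)))
      fun _ _ _ => vonMangoldt_nonneg
  have h0 : 0 ≤ 2 * √b * Real.log b := by have := Real.log_natCast_nonneg b; positivity
  have h2 : ∀ χ : DirichletCharacter ℂ f, ‖∑ n ∈ Ioc a b, th n * χ n‖
      ≤ ‖∑ n ∈ range (a + 1), χ n * vonMangoldt n‖ + ‖∑ n ∈ range (b + 1), χ n * vonMangoldt n‖
        + 2 * √b * Real.log b := fun χ => by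
    have e : ∑ n ∈ Ioc a b, th n * χ n = ∑ n ∈ range (b + 1), χ n * vonMangoldt n
        - ∑ n ∈ range (a + 1), χ n * vonMangoldt n
        - ∑ n ∈ Ioc a b with ¬ n.Prime, χ n * vonMangoldt n := by
      rw [← sum_Ico_eq_sub _ (by omega), Ico_add_one_add_one_eq_Ioc, sum_filter, ← sum_sub_distrib]
      refine sum_congr rfl fun n _ => ?_
      by_cases h : n.Prime
      · simp [th, h, vonMangoldt_apply_prime h, mul_comm]
      · simp [th, h]
    rw [e]
    refine (norm_sub_le _ _).trans (add_le_add ((norm_sub_le _ _).trans (add_comm _ _).le)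
      ((norm_sum_le _ _).trans (le_trans (sum_le_sum fun n _ => ?_) h1)))
    rw [norm_mul, Complex.norm_real, Real.norm_of_nonneg vonMangoldt_nonneg]
    exact mul_le_of_le_one_left vonMangoldt_nonneg (χ.norm_le_one _)
  unfold Psi Ps
  refine (sum_le_sum fun χ _ => h2 χ).trans ?_
  rw [sum_add_distrib, sum_add_distrib, sum_const, nsmul_eq_mul]
  gcongr
  exact card_primitive_le f hf

lemma sum_Ps_le {X F Q p₁ : ℕ} {κ : ℝ} (hκ : 0 ≤ κ) (hF : F ^ 7 ≤ X) (hQ : 0 < Q)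
    (hSW : ∀ f : ℕ, 1 < f → f ≤ Q → Squarefree f → ¬ p₁ ∣ f → ∀ χ : DirichletCharacter ℂ f,
      χ.IsPrimitive → ‖∑ n ∈ range (X + 1), χ n * vonMangoldt n‖ ≤ X / Q ^ 3) :
    ∑ f ∈ Icc 2 F, Ps X f * sav p₁ κ f ≤ X / Q + 70 * X * (1 + Real.log X) ^ 4 * (Q : ℝ) ^ (-κ) := by
  classical
  have hQ' : (0 : ℝ) < Q := by exact_mod_cast hQ
  rw [← sum_filter_add_sum_filter_not _ (· ≤ Q)]
  refine add_le_add ?_ ?_
  · calc _ ≤ ∑ f ∈ Icc 2 F with f ≤ Q, (Q : ℝ) * (X / Q ^ 3) := by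
          refine sum_le_sum fun f hf => ?_
          simp only [mem_filter, mem_Icc] at hf
          unfold sav
          split_ifs with h
          · refine (mul_le_of_le_one_right (Ps_nonneg _ _) (Real.rpow_le_one_of_one_le_of_nonpos
              (by exact_mod_cast (by omega)) (by linarith))).trans ?_
            refine (sum_le_card_nsmul _ _ _ fun χ hχ =>
              hSW f hf.1.1 hf.2 h.1 h.2 χ (mem_filter.1 hχ).2).trans ?_
            rw [nsmul_eq_mul]
            gcongr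
            exact (card_primitive_le f (by omega)).trans hf.2
          · rw [mul_zero]; positivity
      _ ≤ Q * ((Q : ℝ) * (X / Q ^ 3)) := by
          rw [sum_const, nsmul_eq_mul]
          gcongr
          refine (card_le_card (t := Icc 1 Q) fun f hf => ?_).trans (by simp)
          simp only [mem_filter, mem_Icc] at hf ⊢; omega
      _ = _ := by field_simp
  · calc _ ≤ ∑ f ∈ Icc 2 F with ¬ f ≤ Q, Ps X f * (Q : ℝ) ^ (-κ) := by
          refine sum_le_sum fun f hf => mul_le_mul_of_nonneg_left ?_ (Ps_nonneg _ _)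
          unfold sav
          split_ifs
          · exact Real.rpow_le_rpow_of_nonpos hQ'
              (by exact_mod_cast (not_le.1 (mem_filter.1 hf).2).le) (by linarith)
          · positivity
      _ ≤ ∑ f ∈ Icc 2 F, Ps X f * (Q : ℝ) ^ (-κ) := sum_le_sum_of_subset_of_nonneg
          (filter_subset _ _) fun _ _ _ => mul_nonneg (Ps_nonneg _ _) (by positivity)
      _ ≤ _ := by
          rw [← sum_mul]
          exact mul_le_mul_of_nonneg_right (mean_value F X hF) (by positivity)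

lemma bv {a b F Q p₁ : ℕ} {κ : ℝ} (hκ : 0 ≤ κ) (hab : a ≤ b) (hb : 1 ≤ b) (hF : F ^ 7 ≤ a)
    (hQ : 0 < Q)
    (hSW : ∀ f : ℕ, 1 < f → f ≤ Q → Squarefree f → ¬ p₁ ∣ f → ∀ χ : DirichletCharacter ℂ f,
      χ.IsPrimitive → ∀ X : ℕ, Real.log Q ^ 26 ≤ Real.log X → Real.log X ≤ Q →
        ‖∑ n ∈ range (X + 1), χ n * vonMangoldt n‖ ≤ X / Q ^ 3)
    (h1 : Real.log Q ^ 26 ≤ Real.log a) (h2 : Real.log b ≤ Q) :
    ∑ f ∈ Icc 2 F, Psi a b f * sav p₁ κ f ≤ 2 * b / Q
      + 140 * b * (1 + Real.log b) ^ 4 * (Q : ℝ) ^ (-κ) + F ^ 2 * (2 * √b * Real.log b) := by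
  have hl : Real.log a ≤ Real.log b := Lib.LargeSieve.log_nat_mono hab
  have hl0 := Real.log_natCast_nonneg a
  have hab' : (a : ℝ) ≤ b := by exact_mod_cast hab
  have a1 := sum_Ps_le hκ hF hQ fun f b1 b2 b3 b4 χ b5 => hSW f b1 b2 b3 b4 χ b5 a h1 (hl.trans h2)
  have a2 := sum_Ps_le hκ (hF.trans hab) hQ fun f b1 b2 b3 b4 χ b5 =>
    hSW f b1 b2 b3 b4 χ b5 b (h1.trans hl) h2
  have a3 : (a : ℝ) / Q + 70 * a * (1 + Real.log a) ^ 4 * (Q : ℝ) ^ (-κ)
      ≤ b / Q + 70 * b * (1 + Real.log b) ^ 4 * (Q : ℝ) ^ (-κ) := by gcongr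
  have h0 : 0 ≤ 2 * √b * Real.log b := by have := Real.log_natCast_nonneg b; positivity
  have a4 : ∑ f ∈ Icc 2 F, f * (2 * √b * Real.log b) * sav p₁ κ f
      ≤ F ^ 2 * (2 * √b * Real.log b) := by
    refine (sum_le_card_nsmul _ _ (F * (2 * √b * Real.log b)) fun f hf => ?_).trans ?_
    · rw [mem_Icc] at hf
      refine (mul_le_of_le_one_right (by positivity) ?_).trans (by gcongr; exact hf.2)
      unfold sav
      split_ifs
      · exact Real.rpow_le_one_of_one_le_of_nonpos (by exact_mod_cast (by omega)) (by linarith)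
      · exact zero_le_one
    · rw [nsmul_eq_mul, sq, mul_assoc (F : ℝ)]
      exact mul_le_mul_of_nonneg_right (by simp) (by positivity)
  calc _ ≤ ∑ f ∈ Icc 2 F, (Ps a f + Ps b f + f * (2 * √b * Real.log b)) * sav p₁ κ f :=
        sum_le_sum fun f hf => mul_le_mul_of_nonneg_right
          (Psi_le hab hb (by have := (mem_Icc.1 hf).1; omega)) (sav_nonneg _ _ _)
    _ ≤ _ := by
        simp_rw [add_mul, sum_add_distrib]
        have : 2 * (b : ℝ) / Q = b / Q + b / Q := by ring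
        linarith

end Pool.Agent.Work.MP_52820d_nt
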