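import Pool.Agent.Lib.ANT.MultiSieve

/-!
# Choice of the Maynard weights
-/

noncomputable section

open Finset

namespace Pool.Agent.Work.MP_52820d_nt

open Pool.Agent.Lib.ANT

lemma sum_prod_mul_sum_le {κ β : Type*} [Fintype κ] [DecidableEq κ] [Fintype β]
    (f l : κ → β → ℝ) (e : κ → ℝ) (hf : ∀ i c, 0 ≤ f i c) (hl : ∀ i c, 0 ≤ l i c)
    (h : ∀ i, ∑ c, f i c * l i c ≤ e i * ∑ c, f i c) :
    ∑ x : κ → β, (∏ i, f i (x i)) * ∑ i, l i (x i) ≤ (∏ i, ∑ c, f i c) * ∑ i, e i := by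
  simp_rw [mul_sum]
  rw [sum_comm]
  refine sum_le_sum fun j _ => ?_
  have e1 : ∀ x : κ → β, (∏ i, f i (x i)) * l j (x j)
      = ∏ i, f i (x i) * if i = j then l i (x i) else 1 := fun x => by
    rw [prod_mul_distrib]; simp
  have e2 : (∏ i, ∑ c, f i c) * e j = ∏ i, (∑ c, f i c) * if i = j then e i else 1 := by
    rw [prod_mul_distrib]; simp
  simp_rw [e1]
  rw [← Fintype.prod_sum fun i c => f i c * if i = j then l i c else 1, e2]
  refine prod_le_prod (fun i _ => sum_nonneg fun c _ => mul_nonneg (hf _ _) ?_) fun i _ => ?_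
  · split_ifs
    · exact hl _ _
    · exact zero_le_one
  · split_ifs
    · rw [mul_comm]; exact h i
    · simp

lemma markov {β : Type*} [Fintype β] (w L : β → ℝ) (P : β → Prop) [DecidablePred P]
    (hw : ∀ x, 0 ≤ w x) (hL : ∀ x, 0 ≤ L x) {a : ℝ} (ha : 0 < a) (hP : ∀ x, L x ≤ a → P x)
    (h : ∑ x, w x * L x ≤ (∑ x, w x) * (a / 2)) :
    (∑ x, w x) / 2 ≤ ∑ x, w x * if P x then 1 else 0 := by
  have h1 : ∑ x, (w x * a - w x * L x) ≤ ∑ x, (w x * if P x then 1 else 0) * a := by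
    refine sum_le_sum fun x _ => ?_
    split_ifs with h'
    · nlinarith [mul_nonneg (hw x) (hL x)]
    · have := not_le.1 (mt (hP x) h')
      nlinarith [hw x]
  rw [sum_sub_distrib, ← sum_mul, ← sum_mul] at h1
  refine le_of_mul_le_mul_right ?_ ha
  linarith

lemma sq_sum_le (J : ℕ) (b : ℕ → ℝ) (h0 : ∀ j, 0 ≤ b j) (h1 : ∀ j, b j ≤ 1) :
    (∑ j ∈ range J, (1 / 2) ^ j * b j) ^ 2 ≤ 4 * ∑ j ∈ range J, (1 / 4) ^ j * b j := by
  induction J generalizing b with
  | zero => simp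
  | succ J ih =>
    have h2 := ih (fun j => b (j + 1)) (fun j => h0 _) (fun j => h1 _)
    have h3 : ∑ j ∈ range J, (1 / 2 : ℝ) ^ j * b (j + 1) ≤ 2 :=
      (sum_le_sum fun j _ => mul_le_of_le_one_right (by positivity) (h1 _)).trans
        (sum_geometric_two_le J)
    have h4 : 0 ≤ ∑ j ∈ range J, (1 / 2 : ℝ) ^ j * b (j + 1) :=
      sum_nonneg fun j _ => mul_nonneg (by positivity) (h0 _)
    rw [sum_range_succ', sum_range_succ']
    simp_rw [pow_succ', mul_assoc, ← mul_sum]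
    nlinarith [h0 0, h1 0]

variable {α : Type*} [Fintype α] [DecidableEq α] (pr : α → ℕ)

/-- reciprocal of the squarefree number `b` -/
def nu (b : α → Bool) : ℝ := ((bar pr b : ℕ) : ℝ)⁻¹

/-- indicator that `b` is `z`-smooth -/
def ind (z : ℕ) (b : α → Bool) : ℝ := if ∀ p, b p → pr p ≤ z then 1 else 0

/-- Euler product over the sieve primes up to `z` -/
def VV (z : ℕ) : ℝ := ∏ p with pr p ≤ z, (1 + (pr p : ℝ)⁻¹)

/-- logarithmic moment over the sieve primes up to `z` -/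
def LL (z : ℕ) : ℝ := ∑ p with pr p ≤ z, Real.log (pr p) / pr p

omit [DecidableEq α] in
lemma nu_nonneg (b : α → Bool) : 0 ≤ nu pr b := by unfold nu; positivity

omit [DecidableEq α] in
lemma ind_nonneg (z : ℕ) (b : α → Bool) : 0 ≤ ind pr z b := by unfold ind; split_ifs <;> simp

omit [DecidableEq α] in
lemma ind_le_one (z : ℕ) (b : α → Bool) : ind pr z b ≤ 1 := by unfold ind; split_ifs <;> simp

omit [DecidableEq α] in
lemma ind_mul_nu (z : ℕ) (b : α → Bool) : ind pr z b * nu pr b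
    = ∏ p, if b p then (if pr p ≤ z then (pr p : ℝ)⁻¹ else 0) else 1 := by
  rw [nu, inv_bar, ind]
  split_ifs with h
  · rw [one_mul]
    exact prod_congr rfl fun p _ => by
      split_ifs with h1 h2
      exacts [rfl, absurd (h p h1) h2, rfl]
  · push Not at h
    obtain ⟨p, h1, h2⟩ := h
    rw [zero_mul, prod_eq_zero (mem_univ p)]
    rw [if_pos h1, if_neg h2.not_ge]

omit [DecidableEq α] in
lemma prod_sum_eq_VV (z : ℕ) : ∏ p, ∑ c : Bool,
    (if c then (if pr p ≤ z then (pr p : ℝ)⁻¹ else 0) else 1) = VV pr z := by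
  rw [VV, prod_filter]
  exact prod_congr rfl fun p _ => by split_ifs <;> simp [add_comm]

lemma sum_ind_nu (z : ℕ) : ∑ b, ind pr z b * nu pr b = VV pr z := by
  simp_rw [ind_mul_nu]
  rw [← prod_sum_eq_VV, Fintype.prod_sum]

lemma sum_nu : ∑ b, nu pr b = ∏ p, (1 + (pr p : ℝ)⁻¹) := by
  simp_rw [nu, inv_bar]
  rw [← Fintype.prod_sum fun p (c : Bool) => if c then (pr p : ℝ)⁻¹ else 1]
  simp [add_comm]

variable {pr}

omit [DecidableEq α] in
lemma bar_pos (hpr : ∀ p, 2 ≤ pr p) (b : α → Bool) : 0 < bar pr b :=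
  prod_pos fun p _ => by have := hpr p; split_ifs <;> omega

lemma sum_ind_nu_log (hpr : ∀ p, 2 ≤ pr p) (z : ℕ) :
    ∑ b, ind pr z b * nu pr b * Real.log (bar pr b) ≤ VV pr z * LL pr z := by
  have e : ∀ b, Real.log (bar pr b) = ∑ p, if b p then Real.log (pr p) else 0 := fun b => by
    rw [bar, Nat.cast_prod, Real.log_prod fun p _ => by
      have := hpr p; split_ifs <;> positivity]
    exact sum_congr rfl fun p _ => by split_ifs <;> simp
  simp_rw [ind_mul_nu, e]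
  rw [← prod_sum_eq_VV, LL, sum_filter]
  refine sum_prod_mul_sum_le
    (fun p (c : Bool) => if c then (if pr p ≤ z then (pr p : ℝ)⁻¹ else 0) else 1)
    (fun p (c : Bool) => if c then Real.log (pr p) else 0) _ (fun p c => ?_) (fun p c => ?_)
    fun p => ?_
  · split_ifs <;> positivity
  · have := Real.log_natCast_nonneg (pr p)
    split_ifs <;> positivity
  · have := Real.log_natCast_nonneg (pr p)
    have h2 : 0 ≤ Real.log (pr p) / pr p * (pr p : ℝ)⁻¹ := by positivity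
    split_ifs
    · simp only [Fintype.sum_bool, if_true, Bool.false_eq_true, if_false]
      rw [div_eq_mul_inv] at h2 ⊢; nlinarith
    · simp

lemma VV_le_trunc (hpr : ∀ p, 2 ≤ pr p) {z R : ℕ} (hR : 1 < R) (h : LL pr z ≤ Real.log R / 2) :
    VV pr z / 2 ≤ ∑ b, ind pr z b * nu pr b * if bar pr b ≤ R then 1 else 0 := by
  rw [← sum_ind_nu]
  refine markov _ (fun b => Real.log (bar pr b)) _
    (fun b => mul_nonneg (ind_nonneg _ _ _) (nu_nonneg _ _)) (fun b => Real.log_natCast_nonneg _)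
    (a := Real.log R) (Real.log_pos (by exact_mod_cast hR)) (fun b hb => ?_) ?_
  · have := bar_pos hpr b
    exact_mod_cast (Real.log_le_log_iff (by positivity) (by positivity)).1 hb
  · rw [sum_ind_nu]
    exact (sum_ind_nu_log hpr z).trans (mul_le_mul_of_nonneg_left h
      (prod_nonneg fun _ _ => by positivity))

variable (pr)

/-- the one-dimensional weight -/
def gg (z : ℕ → ℕ) (J : ℕ) (b : α → Bool) : ℝ := ∑ j ∈ range J, (1 / 2) ^ j * ind pr (z j) b

/-- its second moment -/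
def gam (z : ℕ → ℕ) (J : ℕ) : ℝ := ∑ b, gg pr z J b ^ 2 * nu pr b

omit [DecidableEq α] in
lemma gg_nonneg (z : ℕ → ℕ) (J : ℕ) (b : α → Bool) : 0 ≤ gg pr z J b :=
  sum_nonneg fun _ _ => mul_nonneg (by positivity) (ind_nonneg _ _ _)

omit [DecidableEq α] in
lemma gg_le_two (z : ℕ → ℕ) (J : ℕ) (b : α → Bool) : gg pr z J b ≤ 2 :=
  (sum_le_sum fun _ _ => mul_le_of_le_one_right (by positivity) (ind_le_one _ _ _)).trans
    (sum_geometric_two_le J)

variable {pr}

lemma le_gam {z : ℕ → ℕ} {J : ℕ} (hJ : 0 < J) : VV pr (z 0) ≤ gam pr z J := by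
  rw [← sum_ind_nu]
  refine sum_le_sum fun b _ => mul_le_mul_of_nonneg_right ?_ (nu_nonneg _ _)
  have h : ind pr (z 0) b ≤ gg pr z J b := by
    have := single_le_sum (f := fun j => (1 / 2 : ℝ) ^ j * ind pr (z j) b)
      (fun _ _ => mul_nonneg (by positivity) (ind_nonneg _ _ _)) (mem_range.2 hJ)
    rwa [pow_zero, one_mul] at this
  unfold ind at h ⊢
  split_ifs at h ⊢
  · nlinarith
  · positivity

lemma gam_le {z : ℕ → ℕ} {J : ℕ} {v : ℝ} (hv : 0 ≤ v) (hV : ∀ j < J, VV pr (z j) ≤ 3 * 2 ^ j * v) :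
    gam pr z J ≤ 24 * v := by
  calc _ ≤ ∑ b, (4 * ∑ j ∈ range J, (1 / 4) ^ j * ind pr (z j) b) * nu pr b :=
        sum_le_sum fun b _ => mul_le_mul_of_nonneg_right
          (sq_sum_le J _ (fun _ => ind_nonneg _ _ _) fun _ => ind_le_one _ _ _) (nu_nonneg _ _)
    _ = 4 * ∑ j ∈ range J, (1 / 4) ^ j * VV pr (z j) := by
        simp_rw [mul_assoc, ← mul_sum, sum_mul, mul_assoc]
        rw [sum_comm]
        simp_rw [← mul_sum, sum_ind_nu]
    _ ≤ 4 * ∑ j ∈ range J, (1 / 2) ^ j * (3 * v) := by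
        refine mul_le_mul_of_nonneg_left (sum_le_sum fun j hj => ?_) (by norm_num)
        calc _ ≤ (1 / 4) ^ j * (3 * 2 ^ j * v) := by gcongr; exact hV j (mem_range.1 hj)
          _ = ((1 / 4) ^ j * 2 ^ j) * (3 * v) := by ring
          _ = _ := by rw [← mul_pow]; norm_num
    _ ≤ _ := by rw [← sum_mul]; nlinarith [sum_geometric_two_le J]

lemma gam_log_le (hpr : ∀ p, 2 ≤ pr p) {z : ℕ → ℕ} {J : ℕ} {v u : ℝ} (hv : 0 ≤ v)
    (hV : ∀ j < J, VV pr (z j) ≤ 3 * 2 ^ j * v) (hL : ∀ j < J, LL pr (z j) ≤ 2 * 2 ^ j * u) :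
    ∑ b, gg pr z J b ^ 2 * nu pr b * Real.log (bar pr b) ≤ 24 * J * v * u := by
  calc _ ≤ ∑ b, (4 * ∑ j ∈ range J, (1 / 4) ^ j * ind pr (z j) b) * nu pr b * Real.log (bar pr b) :=
        sum_le_sum fun b _ => mul_le_mul_of_nonneg_right (mul_le_mul_of_nonneg_right
          (sq_sum_le J _ (fun _ => ind_nonneg _ _ _) fun _ => ind_le_one _ _ _) (nu_nonneg _ _))
          (Real.log_natCast_nonneg _)
    _ = 4 * ∑ j ∈ range J, (1 / 4) ^ j *
          ∑ b, ind pr (z j) b * nu pr b * Real.log (bar pr b) := by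
        simp_rw [mul_assoc, ← mul_sum, sum_mul, mul_assoc]
        rw [sum_comm]
        simp_rw [← mul_sum]
    _ ≤ 4 * ∑ j ∈ range J, 6 * v * u := by
        refine mul_le_mul_of_nonneg_left (sum_le_sum fun j hj => ?_) (by norm_num)
        have h0 : 0 ≤ LL pr (z j) := sum_nonneg fun p _ => by
          have := Real.log_natCast_nonneg (pr p); positivity
        calc _ ≤ (1 / 4) ^ j * ((3 * 2 ^ j * v) * (2 * 2 ^ j * u)) := by
              gcongr
              exact (sum_ind_nu_log hpr _).trans (mul_le_mul (hV j (mem_range.1 hj))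
                (hL j (mem_range.1 hj)) h0 (by positivity))
          _ = ((1 / 4) ^ j * 2 ^ j * 2 ^ j) * (6 * v * u) := by ring
          _ = _ := by rw [← mul_pow, ← mul_pow]; norm_num
    _ = _ := by simp; ring

lemma le_gg_trunc (hpr : ∀ p, 2 ≤ pr p) {z : ℕ → ℕ} {J R : ℕ} {v : ℝ} (hR : 1 < R)
    (hV : ∀ j < J, 2 ^ j * v / 3 ≤ VV pr (z j)) (hL : ∀ j < J, LL pr (z j) ≤ Real.log R / 2) :
    J * v / 6 ≤ ∑ b, gg pr z J b * nu pr b * if bar pr b ≤ R then 1 else 0 := by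
  calc _ = ∑ j ∈ range J, v / 6 := by simp; ring
    _ ≤ ∑ j ∈ range J, (1 / 2) ^ j *
          ∑ b, ind pr (z j) b * nu pr b * if bar pr b ≤ R then 1 else 0 := by
        refine sum_le_sum fun j hj => ?_
        calc v / 6 = ((1 / 2) ^ j * 2 ^ j) * (v / 6) := by rw [← mul_pow]; norm_num
          _ = (1 / 2) ^ j * (2 ^ j * v / 3 / 2) := by ring
          _ ≤ _ := by
              gcongr
              exact le_trans (by gcongr; exact hV j (mem_range.1 hj))
                (VV_le_trunc hpr hR (hL j (mem_range.1 hj)))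
    _ = _ := by
        simp_rw [gg, sum_mul, mul_sum, mul_assoc]
        rw [sum_comm]

variable {ι : Type*} [Fintype ι] [DecidableEq ι] (pr)

/-- the multidimensional weight -/
def YY (g : (α → Bool) → ℝ) (R : ℕ) (T : ι → α → Bool) : ℝ :=
  (∏ i, g (T i)) * if ∏ i, bar pr (T i) ≤ R then 1 else 0

/-- the weight seen by the integers for which the `m`-th form is prime -/
def Ym (Y : (ι → α → Bool) → ℝ) (m : ι) (T : {i // i ≠ m} → α → Bool) : ℝ :=
  ∑ b, Y ((Equiv.funSplitAt m _).symm (b, T)) * nu pr b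

/-- the weight with one extra form -/
def Ye (Y : (ι → α → Bool) → ℝ) (R : ℕ) (G : ℝ) (T : Option ι → α → Bool) : ℝ :=
  Y (fun i => T (some i)) * (if bar pr (T none) ≤ R then 1 else 0) / G

variable {pr}

omit [DecidableEq α] [DecidableEq ι] in
lemma YY_nonneg {g : (α → Bool) → ℝ} (h0 : ∀ b, 0 ≤ g b) (R : ℕ) (T : ι → α → Bool) :
    0 ≤ YY pr g R T :=
  mul_nonneg (prod_nonneg fun _ _ => h0 _) (by split_ifs <;> simp)

omit [DecidableEq α] [DecidableEq ι] in
lemma YY_le {g : (α → Bool) → ℝ} (h0 : ∀ b, 0 ≤ g b) (R : ℕ) (T : ι → α → Bool) :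
    YY pr g R T ≤ ∏ i, g (T i) :=
  mul_le_of_le_one_right (prod_nonneg fun _ _ => h0 _) (by split_ifs <;> simp)

omit [DecidableEq α] [DecidableEq ι] in
lemma abs_YY_le {g : (α → Bool) → ℝ} (h0 : ∀ b, 0 ≤ g b) (h2 : ∀ b, g b ≤ 2) (R : ℕ)
    (T : ι → α → Bool) : |YY pr g R T| ≤ 2 ^ Fintype.card ι := by
  rw [abs_of_nonneg (YY_nonneg h0 R T)]
  refine (YY_le h0 R T).trans ((prod_le_prod (fun _ _ => h0 _) fun _ _ => h2 _).trans ?_)
  simp

omit [DecidableEq α] [DecidableEq ι] in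
lemma YY_supp {g : (α → Bool) → ℝ} {R : ℕ} (T : ι → α → Bool) (h : YY pr g R T ≠ 0) :
    ∏ i, bar pr (T i) ≤ R := by
  by_contra h'; exact h (by simp [YY, h'])

lemma sum_YY_sq_le {g : (α → Bool) → ℝ} (h0 : ∀ b, 0 ≤ g b) (R : ℕ) :
    ∑ T : ι → α → Bool, YY pr g R T ^ 2 * ∏ i, nu pr (T i)
      ≤ (∑ b, g b ^ 2 * nu pr b) ^ Fintype.card ι := by
  rw [← card_univ, ← prod_const, Fintype.prod_sum fun (_ : ι) b => g b ^ 2 * nu pr b]
  refine sum_le_sum fun T _ => ?_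
  rw [prod_mul_distrib, prod_pow]
  exact mul_le_mul_of_nonneg_right (pow_le_pow_left₀ (YY_nonneg h0 R T) (YY_le h0 R T) 2)
    (prod_nonneg fun _ _ => nu_nonneg _ _)

omit [Fintype α] [DecidableEq α] in
lemma prod_split {M : Type*} [CommMonoid M] (m : ι) (b : α → Bool) (T : {i // i ≠ m} → α → Bool)
    (f : ι → (α → Bool) → M) :
    ∏ i, f i ((Equiv.funSplitAt m _).symm (b, T) i) = f m b * ∏ i : {i // i ≠ m}, f i (T i) := by
  rw [Fintype.prod_eq_mul_prod_subtype_ne _ m]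
  congr 1
  · simp
  · exact prod_congr rfl fun i _ => by simp [i.2]

lemma sieveFn_Ym (Y : (ι → α → Bool) → ℝ) (m : ι) (D : ι → α → Bool) (hD : ∀ p, D m p = false) :
    sieveFn pr Y D = sieveFn pr (Ym pr Y m) (fun i => D i) := by
  rw [sieveFn, sieveFn, ← (Equiv.funSplitAt m (α → Bool)).symm.sum_comp, Fintype.sum_prod_type,
    sum_comm]
  refine sum_congr rfl fun T _ => ?_
  rw [Ym, sum_mul]
  refine sum_congr rfl fun b _ => ?_
  rw [prod_split m b T fun i c => ∏ p, if c p then ((pr p : ℝ)⁻¹ - if D i p then 1 else 0) else 1,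
    nu, inv_bar, mul_assoc]
  simp [hD]

omit [Fintype ι] in
lemma abs_Ym_le {Y : (ι → α → Bool) → ℝ} {B : ℝ} (hY : ∀ T, |Y T| ≤ B) (m : ι)
    (T : {i // i ≠ m} → α → Bool) : |Ym pr Y m T| ≤ B * ∏ p, (1 + (pr p : ℝ)⁻¹) := by
  rw [← sum_nu, mul_sum]
  refine (abs_sum_le_sum_abs _ _).trans (sum_le_sum fun b _ => ?_)
  rw [abs_mul, abs_of_nonneg (nu_nonneg _ _)]
  exact mul_le_mul_of_nonneg_right (hY _) (nu_nonneg _ _)

lemma Ym_supp (hpr : ∀ p, 2 ≤ pr p) {Y : (ι → α → Bool) → ℝ} {R : ℕ}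
    (hR : ∀ T, Y T ≠ 0 → ∏ i, bar pr (T i) ≤ R) (m : ι) (T : {i // i ≠ m} → α → Bool)
    (h : Ym pr Y m T ≠ 0) : ∏ i, bar pr (T i) ≤ R := by
  obtain ⟨b, -, hb⟩ := exists_ne_zero_of_sum_ne_zero h
  have := hR _ (left_ne_zero_of_mul hb)
  rw [prod_split m b T fun _ c => bar pr c] at this
  exact le_trans (Nat.le_mul_of_pos_left _ (bar_pos hpr b)) this

lemma le_sum_Ym_sq (hpr : ∀ p, 2 ≤ pr p) {g : (α → Bool) → ℝ} (h0 : ∀ b, 0 ≤ g b) {R : ℕ}
    (hR : 1 < R) {A e : ℝ} (hA0 : 0 ≤ A) (he0 : 0 ≤ e)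
    (hA : A ≤ ∑ b, g b * nu pr b * if bar pr b ≤ R then 1 else 0)
    (he : ∑ b, g b ^ 2 * nu pr b * Real.log (bar pr b) ≤ e * ∑ b, g b ^ 2 * nu pr b)
    (he' : Fintype.card ι * e ≤ Real.log R / 2) (m : ι) :
    A ^ 2 * ((∑ b, g b ^ 2 * nu pr b) ^ (Fintype.card ι - 1) / 2)
      ≤ ∑ T, Ym pr (YY pr g (R ^ 2)) m T ^ 2 * ∏ i, nu pr (T i) := by
  have hw : ∀ b, 0 ≤ g b ^ 2 * nu pr b := fun b => mul_nonneg (sq_nonneg _) (nu_nonneg _ _)
  have hc : Fintype.card {i // i ≠ m} = Fintype.card ι - 1 := by simp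
  have h1 : ∑ T : {i // i ≠ m} → α → Bool, ∏ i, g (T i) ^ 2 * nu pr (T i)
      = (∑ b, g b ^ 2 * nu pr b) ^ (Fintype.card ι - 1) := by
    rw [← Fintype.prod_sum fun _ b => g b ^ 2 * nu pr b, prod_const, card_univ, hc]
  have h2 := markov (fun T : {i // i ≠ m} → α → Bool => ∏ i, g (T i) ^ 2 * nu pr (T i))
    (fun T => ∑ i, Real.log (bar pr (T i))) (fun T => ∏ i, bar pr (T i) ≤ R)
    (fun T => prod_nonneg fun _ _ => hw _) (fun T => sum_nonneg fun _ _ => Real.log_natCast_nonneg _)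
    (a := Real.log R) (Real.log_pos (by exact_mod_cast hR)) (fun T hT => by
      rw [← Real.log_prod fun i _ => by have := bar_pos hpr (T i); positivity,
        Real.log_le_log_iff (prod_pos fun i _ => by have := bar_pos hpr (T i); positivity)
          (by positivity)] at hT
      exact_mod_cast hT) (by
      refine (sum_prod_mul_sum_le (fun _ b => g b ^ 2 * nu pr b) (fun _ b => Real.log (bar pr b))
        (fun _ => e) (fun _ => hw) (fun _ _ => Real.log_natCast_nonneg _) fun _ => he).trans ?_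
      rw [Fintype.prod_sum]
      refine mul_le_mul_of_nonneg_left (le_trans ?_ he')
        (sum_nonneg fun _ _ => prod_nonneg fun _ _ => hw _)
      rw [sum_const, card_univ, hc, nsmul_eq_mul]
      gcongr; omega)
  rw [← h1]
  refine (mul_le_mul_of_nonneg_left h2 (sq_nonneg A)).trans ?_
  rw [mul_sum]
  refine sum_le_sum fun T _ => ?_
  have hν : 0 ≤ ∏ i, nu pr (T i) := prod_nonneg fun _ _ => nu_nonneg _ _
  have hg : 0 ≤ ∏ i, g (T i) := prod_nonneg fun _ _ => h0 _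
  split_ifs with h
  · have h3 : A * ∏ i, g (T i) ≤ Ym pr (YY pr g (R ^ 2)) m T := by
      refine (mul_le_mul_of_nonneg_right hA hg).trans ?_
      rw [sum_mul]
      refine sum_le_sum fun b _ => ?_
      split_ifs with hb
      · rw [YY, prod_split m b T fun _ c => g c, prod_split m b T fun _ c => bar pr c,
          if_pos (sq R ▸ Nat.mul_le_mul hb h)]
        exact le_of_eq (by ring)
      · simpa using mul_nonneg (YY_nonneg h0 _ _) (nu_nonneg _ _)
    rw [prod_mul_distrib, prod_pow, mul_one, ← mul_assoc, ← mul_pow]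
    exact mul_le_mul_of_nonneg_right (pow_le_pow_left₀ (mul_nonneg hA0 hg) h3 2) hν
  · simpa using mul_nonneg (sq_nonneg _) hν

lemma sum_option (F : (Option ι → α → Bool) → ℝ) :
    ∑ T, F T = ∑ T : ι → α → Bool, ∑ b : α → Bool, F fun o => Option.casesOn o b T := by
  rw [← (Equiv.piOptionEquivProd (β := fun _ : Option ι => α → Bool)).symm.sum_comp,
    Fintype.sum_prod_type, sum_comm]
  rfl

lemma sieveFn_Ye (Y : (ι → α → Bool) → ℝ) (R : ℕ) {G : ℝ} (hG : G ≠ 0)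
    (hG' : G = ∑ b, nu pr b * if bar pr b ≤ R then 1 else 0) (D : Option ι → α → Bool)
    (hD : ∀ p, D none p = false) :
    sieveFn pr (Ye pr Y R G) D = sieveFn pr Y (fun i => D (some i)) := by
  rw [sieveFn, sieveFn, sum_option]
  refine sum_congr rfl fun T _ => ?_
  simp only [Ye, Fintype.prod_option, hD, Bool.false_eq_true, if_false, sub_zero, ← inv_bar]
  rw [← mul_div_cancel_right₀ (Y T * _) hG]
  conv_rhs => enter [1, 2]; rw [hG']
  rw [mul_sum, sum_div]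
  exact sum_congr rfl fun b _ => by rw [nu]; ring

lemma sum_Ye_sq (Y : (ι → α → Bool) → ℝ) (R : ℕ) {G : ℝ} (hG : G ≠ 0)
    (hG' : G = ∑ b, nu pr b * if bar pr b ≤ R then 1 else 0) :
    ∑ T, Ye pr Y R G T ^ 2 * ∏ i, nu pr (T i) = (∑ T, Y T ^ 2 * ∏ i, nu pr (T i)) / G := by
  rw [sum_option, sum_div]
  refine sum_congr rfl fun T _ => ?_
  simp only [Ye, Fintype.prod_option]
  rw [← mul_div_mul_right _ _ hG]
  conv_rhs => enter [1, 2]; rw [hG']
  rw [mul_sum, sum_div]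
  exact sum_congr rfl fun b _ => by split_ifs <;> ring

omit [DecidableEq α] [DecidableEq ι] [Fintype ι] in
lemma abs_Ye_le {Y : (ι → α → Bool) → ℝ} {B : ℝ} (hY : ∀ T, |Y T| ≤ B) (R : ℕ) {G : ℝ}
    (hG : 0 < G) (T : Option ι → α → Bool) : |Ye pr Y R G T| ≤ B / G := by
  rw [Ye, abs_div, abs_of_pos hG, abs_mul]
  gcongr
  refine le_trans (mul_le_of_le_one_right (abs_nonneg _) ?_) (hY _)
  split_ifs <;> simp

omit [DecidableEq α] [DecidableEq ι] in
lemma Ye_supp {Y : (ι → α → Bool) → ℝ} {R : ℕ} (hR : ∀ T, Y T ≠ 0 → ∏ i, bar pr (T i) ≤ R)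
    {G : ℝ} (T : Option ι → α → Bool) (h : Ye pr Y R G T ≠ 0) : ∏ i, bar pr (T i) ≤ R ^ 2 := by
  rw [Ye, div_ne_zero_iff, mul_ne_zero_iff] at h
  rw [Fintype.prod_option, sq]
  refine Nat.mul_le_mul ?_ (hR _ h.1.1)
  by_contra h'; exact h.1.2 (if_neg h')

end Pool.Agent.Work.MP_52820d_nt
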