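import Pool.Agent.Work.MP_52820d_nt.BV
import Pool.Agent.Work.MP_52820d_nt.Weights

/-!
# The sieve argument: many prime values and few bad values
-/

noncomputable section

open Finset

namespace Pool.Agent.Work.MP_52820d_nt

open Pool.Agent.Lib.ANT

lemma eq_of_dvd {p m a b H : ℕ} (hp : H < p) (ha : a ≤ H) (hb : b ≤ H) (h1 : p ∣ m + a)
    (h2 : p ∣ m + b) : a = b :=
  Nat.ModEq.eq_of_lt_of_lt (Nat.ModEq.add_left_cancel' m
    ((Nat.modEq_zero_iff_dvd.2 h1).trans (Nat.modEq_zero_iff_dvd.2 h2).symm)) (by omega) (by omega)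

lemma th_nonneg (n : ℕ) : 0 ≤ th n := by
  unfold th; split_ifs; exacts [Real.log_natCast_nonneg _, le_rfl]

lemma eps_mono {m k : ℕ} (h : m ≤ k + 1) {s ε : ℝ} (hs : 0 ≤ s)
    (hε : 4 ^ (k + 1) * (6 * (k + 1) + 3) * s ≤ ε) : 4 ^ m * (6 * m + 3) * s ≤ ε := by
  refine le_trans ?_ hε
  have : (m : ℝ) ≤ k + 1 := by exact_mod_cast h
  gcongr; norm_num

lemma two_pow_sq (k : ℕ) : ((2 : ℝ) ^ k) ^ 2 = 4 ^ k := by
  rw [← pow_mul, mul_comm, pow_mul]; norm_num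

variable {α ι : Type*} [Fintype α] [DecidableEq α] [Fintype ι] [DecidableEq ι] {pr : α → ℕ}

lemma S1_le (hpr : ∀ p, (pr p).Prime) (hinj : Function.Injective pr) {W x H k R : ℕ} (b : ℕ)
    (hbig : ∀ p, H < pr p) (hW : ∀ p, ¬ pr p ∣ W) (hW0 : 0 < W) {h : ι → ℕ}
    (hh : Function.Injective h) (hhH : ∀ i, h i ≤ H) (hk : Fintype.card ι = k)
    {Y : (ι → α → Bool) → ℝ} (hY : ∀ T, |Y T| ≤ 2 ^ k) (hR : ∀ T, Y T ≠ 0 → ∏ i, bar pr (T i) ≤ R)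
    (hR1 : 1 ≤ R) {ε Γ V : ℝ} (hV : V = ∏ p, (1 + (pr p : ℝ)⁻¹))
    (hε : 4 ^ (k + 1) * (6 * (k + 1) + 3) * ∑ p, ((pr p : ℝ)⁻¹) ^ 2 ≤ ε) (hε1 : ε ≤ 1)
    (hY2 : ∑ T, Y T ^ 2 * ∏ i, nu pr (T i) ≤ Γ) (hΓ : 1 ≤ Γ) (e3 : 4 ^ k * V ^ k * (4 * ε) ≤ Γ)
    (e4 : 4 ^ k * V ^ (7 * (k + 1)) * R ^ 4 ≤ x / W) :
    ∑ n ∈ Ioc x (x + x) with n ≡ b [MOD W],
      sieveFn pr Y (fun i p => decide (pr p ∣ n + h i)) ^ 2 ≤ 3 * (x / W) * Γ := by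
  have := sum_int_le hpr hinj hW0 hW (fun _ => 1) h (fun _ p => (hpr p).not_dvd_one)
    (fun n p i j a b => hh (eq_of_dvd (hbig p) (hhH i) (hhH j) a b)) b x Y hY R hR
    (eps_mono (by omega) (sum_nonneg fun _ _ => sq_nonneg _) hε) hε1
  simp only [one_mul] at this
  rw [two_pow_sq, hk, ← hV] at this
  refine this.trans ?_
  have hV1 : 1 ≤ V := hV ▸ one_le_prod fun p _ => le_add_of_nonneg_right (by positivity)
  have hR' : (1 : ℝ) ≤ R := by exact_mod_cast hR1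
  have hX0 : (0 : ℝ) ≤ x / W := by positivity
  have a1 : 4 ^ k * V ^ (7 * k) * (R : ℝ) ^ 2 ≤ x / W := le_trans (by gcongr <;> omega) e4
  have a2 := mul_le_mul_of_nonneg_left hY2 hX0
  have a3 := mul_le_mul_of_nonneg_left e3 hX0
  have a4 := mul_le_mul_of_nonneg_left hΓ hX0
  simp only [nu] at a2
  linarith only [hX0, a1, a3, a4, a2]

lemma S3_le (hpr : ∀ p, (pr p).Prime) (hinj : Function.Injective pr) {W x H k R r j : ℕ} (b : ℕ)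
    (hbig : ∀ p, H < pr p) (hW : ∀ p, ¬ pr p ∣ W) (hW0 : 0 < W) {h : ι → ℕ}
    (hh : Function.Injective h) (hr : 0 < r) (hrH : r ≤ H) (hhH : ∀ i, r * h i ≤ H)
    (hj : j ≤ H ∧ ∀ i, j ≠ r * h i) (hk : Fintype.card ι = k)
    {Y : (ι → α → Bool) → ℝ} (hY : ∀ T, |Y T| ≤ 2 ^ k) (hR : ∀ T, Y T ≠ 0 → ∏ i, bar pr (T i) ≤ R)
    {ε Γ V G : ℝ} (hV : V = ∏ p, (1 + (pr p : ℝ)⁻¹))
    (hG : G = ∑ b, nu pr b * if bar pr b ≤ R then 1 else 0) (hGV : V / 2 ≤ G) (hG1 : 1 ≤ G)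
    (hε : 4 ^ (k + 1) * (6 * (k + 1) + 3) * ∑ p, ((pr p : ℝ)⁻¹) ^ 2 ≤ ε) (hε1 : ε ≤ 1)
    (hY2 : ∑ T, Y T ^ 2 * ∏ i, nu pr (T i) ≤ Γ) (hΓ : 1 ≤ Γ) (e3 : 4 ^ k * V ^ k * (4 * ε) ≤ Γ)
    (e4 : 4 ^ k * V ^ (7 * (k + 1)) * R ^ 4 ≤ x / W) :
    ∑ n ∈ Ioc x (x + x) with n ≡ b [MOD W], (if ∀ p, ¬ pr p ∣ r * n + j then 1 else 0) *
      sieveFn pr Y (fun i p => decide (pr p ∣ n + h i)) ^ 2 ≤ 3 * (x / W) * Γ / G := by
  have hG0 : 0 < G := by linarith only [hG1]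
  have hhH' : ∀ i, h i ≤ H := fun i => (Nat.le_mul_of_pos_left _ hr).trans (hhH i)
  have hs0 : 0 ≤ ∑ p, ((pr p : ℝ)⁻¹) ^ 2 := sum_nonneg fun _ _ => sq_nonneg _
  have := sum_int_le hpr hinj hW0 hW (fun o : Option ι => Option.casesOn o r fun _ => 1)
    (fun o => Option.casesOn o j h) (fun o p => by
      cases o
      exacts [Nat.not_dvd_of_pos_of_lt hr (hrH.trans_lt (hbig p)), (hpr p).not_dvd_one])
    (fun n p o o' a b => by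
      have k1 : ∀ i, pr p ∣ r * n + j → pr p ∣ 1 * n + h i → False := fun i a b =>
        hj.2 i (eq_of_dvd (hbig p) hj.1 (hhH i) a
          (by rw [← mul_add]; exact (one_mul n ▸ b).mul_left r))
      cases o <;> cases o'
      exacts [rfl, (k1 _ a b).elim, (k1 _ b a).elim,
        congrArg _ (hh (eq_of_dvd (hbig p) (hhH' _) (hhH' _) a b))])
    b x (Ye pr Y R G) (abs_Ye_le hY _ hG0) (R ^ 2) (Ye_supp hR)
    (eps_mono (by simp [hk]) hs0 hε) hε1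
  refine le_trans (sum_le_sum fun n _ => ?_) (this.trans ?_)
  · split_ifs with h'
    · rw [sieveFn_Ye Y _ hG0.ne' hG _ fun p => by simpa using h' p]
      simp
    · rw [zero_mul]; positivity
  · have a0 := sum_Ye_sq (pr := pr) Y R hG0.ne' hG
    simp only [nu] at a0 hY2
    rw [a0, div_pow, two_pow_sq, Fintype.card_option, hk, le_div_iff₀ hG0, ← hV]
    have hV0 : 0 ≤ V := hV ▸ prod_nonneg fun p _ => by positivity
    have hε0 : 0 ≤ ε := le_trans (by clear * - k α pr hε; positivity) hε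
    have hX0 : (0 : ℝ) ≤ x / W := by positivity
    generalize (x : ℝ) / W = X at *
    generalize ∑ T, Y T ^ 2 * ∏ i, ((bar pr (T i) : ℕ) : ℝ)⁻¹ = s at *
    have a2 := mul_le_mul_of_nonneg_left hY2 hX0
    have a3 := mul_le_mul_of_nonneg_left e3 hX0
    have a4 := mul_le_mul_of_nonneg_left hΓ hX0
    have a5 : 4 ^ k * (V ^ (7 * (k + 1)) * ((R ^ 2 : ℕ) : ℝ) ^ 2) / G ≤ X := by
      clear * - k V R G X hV0 hG1 e4
      refine (div_le_self (by positivity) hG1).trans (le_of_eq_of_le ?_ e4)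
      push_cast; ring
    have a6 : X * (4 ^ k * V ^ k * (2 * ε)) * (V / G) ≤ X * (4 ^ k * V ^ k * (2 * ε)) * 2 := by
      clear * - X k V ε G hG0 hGV hX0 hV0 hε0
      gcongr; rw [div_le_iff₀ hG0]; linarith only [hGV]
    calc _ = X * s + 4 ^ k * (V ^ (7 * (k + 1)) * ((R ^ 2 : ℕ) : ℝ) ^ 2) / G +
          X * (4 ^ k * V ^ k * (2 * ε)) * (V / G) := by field_simp; ring
      _ ≤ _ := by linarith only [a2, a3, a4, a5, a6]

lemma le_S2 (hpr : ∀ p, (pr p).Prime) (hinj : Function.Injective pr) {W x H k R F b : ℕ}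
    (hbig : ∀ p, H < pr p ∧ pr p ≤ x) (hW : ∀ p, ¬ pr p ∣ W) (hWs : Squarefree W) {h : ι → ℕ}
    (hh : Function.Injective h) (hhH : ∀ i, h i ≤ H) (hk : Fintype.card ι = k + 1) (m : ι)
    (hb : Nat.Coprime (b + h m) W) {Y : (ι → α → Bool) → ℝ} (hY : ∀ T, |Y T| ≤ 2 ^ (k + 1))
    (hR : ∀ T, Y T ≠ 0 → ∏ i, bar pr (T i) ≤ R) (hF : W * R ^ 2 ≤ F) (hFx : F ≤ x)
    {ε Θ V : ℝ} (hV : V = ∏ p, (1 + (pr p : ℝ)⁻¹))
    (hε : 4 ^ (k + 1) * (6 * (k + 1) + 3) * ∑ p, ((pr p : ℝ)⁻¹) ^ 2 ≤ ε) (hε1 : ε ≤ 1)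
    (hθ : (x : ℝ) / 2 ≤ ∑ n ∈ Ioc (x + h m) (x + x + h m), th n) (hΘ : 0 ≤ Θ)
    (a1 : 2 * Θ ≤ ∑ T, Ym pr Y m T ^ 2 * ∏ i, nu pr (T i))
    (a2 : 4 ^ (k + 1) * V ^ 2 * V ^ k * (2 * ε) ≤ Θ) :
    x / 2 / W.totient * Θ - 4 ^ (k + 1) * V ^ (12 * (k + 1) + 2) * (∑ f ∈ Icc 2 F,
        Psi (x + h m) (x + x + h m) f * beta pr (k + 1) W f) / W.totient
      ≤ ∑ n ∈ Ioc x (x + x) with n ≡ b [MOD W],
        th (n + h m) * sieveFn pr Y (fun i p => decide (pr p ∣ n + h i)) ^ 2 := by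
  have hc' : Fintype.card {i // i ≠ m} = k := by simp [hk]
  have := le_sum_prime hpr hinj hWs hW (fun i : {i // i ≠ m} => h i) (h m)
    (fun n p i j a b => Subtype.ext (hh (eq_of_dvd (hbig p).1 (hhH i) (hhH j) a b)))
    (fun n p i a b => i.2 (hh (eq_of_dvd (hbig p).1 (hhH i) (hhH m) a b))) b x hb
    (Ym pr Y m) (abs_Ym_le hY m) R (Ym_supp (fun p => (hpr p).two_le) hR m) hF hFx (k := k + 1)
    (by omega) (eps_mono (by omega) (sum_nonneg fun _ _ => sq_nonneg _) hε) hε1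
  refine le_trans ?_ (this.trans (le_of_eq (sum_congr rfl fun n hn => ?_)))
  · rw [hc', mul_pow, two_pow_sq, ← hV, mul_assoc (4 ^ (k + 1)) (V ^ 2) (V ^ (12 * _)), ← pow_add,
      add_comm 2]
    simp only [nu] at a1
    gcongr
    · exact div_nonneg (sum_nonneg fun _ _ => th_nonneg _) (Nat.cast_nonneg _)
    · linarith only [a2, a1]
  · by_cases hp : (n + h m).Prime
    · rw [sieveFn_Ym Y m _ fun p => ?_]
      have := (mem_Ioc.1 (mem_filter.1 hn).1).1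
      have := (hbig p).2
      simpa using fun h' => by have := (Nat.prime_dvd_prime_iff_eq (hpr p) hp).1 h'; omega
    · simp [th, hp]

lemma num1 {k : ℕ} {a v γ V J ε : ℝ} (ha : 1 ≤ a) (hv : 6 ≤ v) (hJ : 4 ≤ J) (hγ : v / 3 ≤ γ)
    (hV0 : 0 ≤ V) (hV : V ≤ 3 * a * v) (hε0 : 0 ≤ ε) (hε : (36 * a) ^ (k + 1 + 1) * ε ≤ 1) :
    ε ≤ 1 ∧ 4 ^ (k + 1) * V ^ (k + 1) * (4 * ε) ≤ γ ^ (k + 1) ∧
      4 ^ (k + 1) * V ^ 2 * V ^ k * (2 * ε) ≤ (J * v / 6) ^ 2 * γ ^ k / 4 := by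
  have hVγ : 4 * V ≤ 36 * a * γ := by nlinarith only [hγ, hV, ha]
  have hγ0 : 0 ≤ γ := by linarith
  have e1 : ε * (36 * a) ^ (k + 1) * (36 * a) ≤ 1 := by rw [mul_assoc, ← pow_succ]; linarith
  have e0 : 0 ≤ ε * (36 * a) ^ (k + 1) := by positivity
  refine ⟨by nlinarith only [hε, ha, hε0, mul_le_mul_of_nonneg_left (one_le_pow₀ (n := k + 1 + 1)
      (by linarith : 1 ≤ 36 * a)) hε0], ?_, ?_⟩
  · calc _ ≤ (36 * a * γ) ^ (k + 1) * (4 * ε) := by rw [← mul_pow]; gcongr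
      _ = ε * (36 * a) ^ (k + 1) * 4 * γ ^ (k + 1) := by rw [mul_pow]; ring
      _ ≤ 1 * γ ^ (k + 1) := by gcongr; nlinarith only [e1, ha, e0]
      _ = _ := one_mul _
  · calc _ = 8 * V ^ 2 * (4 * V) ^ k * ε := by rw [mul_pow]; ring
      _ ≤ 8 * (3 * a * v) ^ 2 * (36 * a * γ) ^ k * ε := by gcongr
      _ = ε * (36 * a) ^ (k + 1) * (36 * a) * ((4 * v / 6) ^ 2 * γ ^ k / 8) := by
          rw [mul_pow (36 * a)]; ring
      _ ≤ 1 * ((J * v / 6) ^ 2 * γ ^ k / 4) := by gcongr; norm_num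
      _ = _ := one_mul _

lemma num2 {k : ℕ} {K v γ J x W φ s m Λ E : ℝ} (hK : 1 ≤ K) (hv : 6 ≤ v) (hJ : 4 ≤ J) (hγ : 1 ≤ γ)
    (hγ2 : γ ≤ 24 * v) (hx : 0 < x) (hW : 0 < W) (hφ : 0 < φ) (hE : E ≤ x)
    (k2 : K * (x / 2 / φ * ((J * v / 6) ^ 2 * γ ^ k / 4)) - E / φ ≤ s)
    (k1 : s ≤ (m + 1) * Λ * (3 * (x / W) * γ ^ (k + 1))) :
    K * J ^ 2 * v * W ≤ 41472 * (m + 1) * Λ * φ := by
  have hA : 4 ≤ J * v / 6 := by nlinarith only [hv, hJ]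
  have k5 := div_le_div_of_nonneg_right hE hφ.le
  have k6 : 16 ≤ K * ((J * v / 6) ^ 2 * γ ^ k) := by
    calc (16 : ℝ) = 1 * (4 ^ 2 * 1) := by norm_num
      _ ≤ _ := by gcongr; exact one_le_pow₀ hγ
  have k7 : J ^ 2 * v * γ ^ (k + 1) / 864 ≤ (J * v / 6) ^ 2 * γ ^ k := by
    calc _ ≤ J ^ 2 * v * (γ ^ k * (24 * v)) / 864 := by rw [pow_succ γ]; gcongr
      _ = _ := by ring
  have k8 : x / φ * (K * (J ^ 2 * v * γ ^ (k + 1) / 864) / 16)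
      ≤ (m + 1) * Λ * (3 * (x / W) * γ ^ (k + 1)) := by
    have b1 : 0 ≤ x / φ := by positivity
    have b2 := mul_le_mul_of_nonneg_left k6 b1
    have b3 := mul_le_mul_of_nonneg_left (mul_le_mul_of_nonneg_left k7 (by linarith only [hK] : 0 ≤ K)) b1
    rw [div_right_comm] at k2
    linarith only [k2, k1, k5, b2, b3]
  refine le_of_mul_le_mul_right ?_ (by positivity : 0 < x * γ ^ (k + 1) / (13824 * φ * W))
  calc _ = x / φ * (K * (J ^ 2 * v * γ ^ (k + 1) / 864) / 16) := by field_simp; ring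
    _ ≤ _ := k8
    _ = _ := by field_simp; ring

theorem core (hpr : ∀ p, (pr p).Prime) (hinj : Function.Injective pr) {W b x r H F k J R₁ m₀ : ℕ}
    (hbig : ∀ p, H < pr p ∧ pr p ≤ x) (hW : ∀ p, ¬ pr p ∣ W) (hWs : Squarefree W)
    (h : ι → ℕ) (hh : Function.Injective h) (hr : 0 < r) (hrH : r ≤ H) (hhH : ∀ i, r * h i ≤ H)
    (hb : ∀ i, Nat.Coprime (b + h i) W) (hk : Fintype.card ι = k) (hJk : 2 ^ J ≤ k) (hJ : 4 ≤ J)
    {z : ℕ → ℕ} {u v a ε' ε Λ : ℝ} (hu : 0 ≤ u) (hv : 6 ≤ v) (ha : 72 * k * J ≤ a)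
    (hV1 : ∀ j < J, 2 ^ j * v / 3 ≤ VV pr (z j)) (hV2 : ∀ j < J, VV pr (z j) ≤ 3 * 2 ^ j * v)
    (hL : ∀ j < J, LL pr (z j) ≤ 2 * 2 ^ j * u) (hR₁ : 1 < R₁) (hR : 2 * a * u ≤ Real.log R₁)
    (hV3 : a * v / 3 ≤ ∏ p, (1 + (pr p : ℝ)⁻¹)) (hV4 : ∏ p, (1 + (pr p : ℝ)⁻¹) ≤ 3 * a * v)
    (hL' : LL pr x ≤ Real.log R₁)
    (hε : 4 ^ (k + 1) * (6 * (k + 1) + 3) * ∑ p, ((pr p : ℝ)⁻¹) ^ 2 ≤ ε')
    (hε1 : (36 * a) ^ (k + 1) * ε' ≤ 1)
    (hx : 4 ^ k * (∏ p, (1 + (pr p : ℝ)⁻¹)) ^ (7 * (k + 1)) * (R₁ ^ 2 : ℕ) ^ 4 * W ≤ x)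
    (hF : W * (R₁ ^ 2) ^ 2 ≤ F) (hFx : F ≤ x)
    (hθ : ∀ i, (x : ℝ) / 2 ≤ ∑ n ∈ Ioc (x + h i) (x + x + h i), th n)
    (hErr : 4 ^ k * (∏ p, (1 + (pr p : ℝ)⁻¹)) ^ (12 * k + 2) *
      ∑ f ∈ Icc 2 F, (∑ i, Psi (x + h i) (x + x + h i) f) * beta pr k W f ≤ x)
    (hΛ : ∀ i, Real.log (x + x + h i : ℕ) ≤ Λ) (hΛ0 : 0 ≤ Λ)
    (c : ℕ → ℝ) (hc0 : ∀ j, 0 ≤ c j) (J' : Finset ℕ) (hJ' : ∀ j ∈ J', j ≤ H ∧ ∀ i, j ≠ r * h i)
    (hε0 : 0 < ε) (hc : k * ∑ j ∈ J', c j ≤ ε * (a * v / 6))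
    (hmain : 41472 * (m₀ + 1) * Λ * W.totient < k * J ^ 2 * v * W) :
    ∃ n ∈ Ioc x (x + x), n ≡ b [MOD W] ∧ m₀ ≤ #{i | (n + h i).Prime} ∧
      ∑ j ∈ J', (if ∀ p, ¬ pr p ∣ r * n + j then c j else 0) ≤ ε := by
  have hp2 : ∀ p, 2 ≤ pr p := fun p => (hpr p).two_le
  have hW0 : 0 < W := Nat.pos_of_ne_zero hWs.ne_zero
  have hW' : (0 : ℝ) < W := by exact_mod_cast hW0
  have hφ : (0 : ℝ) < W.totient := by exact_mod_cast Nat.totient_pos.2 hW0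
  obtain ⟨k, rfl⟩ : ∃ k', k = k' + 1 := Nat.exists_eq_succ_of_ne_zero
    (by have := Nat.two_pow_pos J; omega)
  have hJ4 : (4 : ℝ) ≤ J := by exact_mod_cast hJ
  have hk1 : (1 : ℝ) ≤ (k + 1 : ℕ) := by simp
  have hka : ((k + 1 : ℕ) : ℝ) ≤ a := le_trans (by nlinarith only [hJ4, hk1]) ha
  have ha1 : 1 ≤ a := hk1.trans hka
  obtain ⟨V, hV⟩ : ∃ V, V = ∏ p, (1 + (pr p : ℝ)⁻¹) := ⟨_, rfl⟩
  obtain ⟨G, hG⟩ : ∃ G, G = ∑ b, nu pr b * if bar pr b ≤ R₁ ^ 2 then 1 else 0 := ⟨_, rfl⟩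
  rw [← hV] at hV3 hV4 hx hErr
  have hs0 : 0 ≤ ∑ p, ((pr p : ℝ)⁻¹) ^ 2 := sum_nonneg fun _ _ => sq_nonneg _
  have hγ1 : v / 3 ≤ gam pr z J := by simpa using (hV1 0 (by omega)).trans (le_gam (by omega))
  have hγ3 : 1 ≤ gam pr z J := by linarith only [hγ1, hv]
  have hV1' : 2 ≤ V := by nlinarith only [hV3, ha1, hv]
  have hGV : V / 2 ≤ G := by
    have := VV_le_trunc hp2 (z := x) (R := R₁ ^ 2) (Nat.one_lt_pow two_ne_zero hR₁)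
      (by rw [Nat.cast_pow, Real.log_pow]; push_cast; linarith only [hL'])
    rw [VV, filter_true_of_mem fun p _ => (hbig p).2, ← hV] at this
    exact this.trans (hG ▸ sum_le_sum fun b _ => mul_le_mul_of_nonneg_right
      (mul_le_of_le_one_left (nu_nonneg _ _) (ind_le_one _ _ _)) (by split_ifs <;> norm_num))
  have hG1 : 1 ≤ G := by linarith only [hGV, hV1']
  obtain ⟨e2, e3, e5⟩ := num1 ha1 hv hJ4 hγ1 (by positivity) hV4 (le_trans (by clear * - k α pr hε hε1; positivity) hε) hε1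
  have hγk : 1 ≤ gam pr z J ^ (k + 1) := one_le_pow₀ hγ3
  have e4 := (le_div_iff₀ hW').2 hx
  have hYb : ∀ T : ι → α → Bool, |YY pr (gg pr z J) (R₁ ^ 2) T| ≤ 2 ^ (k + 1) := fun T =>
    hk ▸ abs_YY_le (gg_nonneg _ _ _) (gg_le_two _ _ _) _ T
  have hY2 : ∑ T : ι → α → Bool, YY pr (gg pr z J) (R₁ ^ 2) T ^ 2 * ∏ i, nu pr (T i)
      ≤ gam pr z J ^ (k + 1) := hk ▸ sum_YY_sq_le (gg_nonneg _ _ _) _
  have hhH' : ∀ i, h i ≤ H := fun i => (Nat.le_mul_of_pos_left _ hr).trans (hhH i)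
  have S1 := S1_le hpr hinj b (fun p => (hbig p).1) hW hW0 hh hhH' hk hYb YY_supp
    (Nat.one_le_pow _ _ (by omega)) hV hε e2 hY2 hγk e3 e4
  have S3 := fun j (hj : j ∈ J') => S3_le hpr hinj b (fun p => (hbig p).1) hW hW0 hh hr hrH hhH
    (hJ' j hj) hk hYb YY_supp hV hG hGV hG1 hε e2 hY2 hγk e3 e4
  have S2 := fun m => le_S2 hpr hinj hbig hW hWs hh hhH' hk m (hb m) hYb YY_supp hF hFx hV
    (by exact_mod_cast eps_mono (m := k + 1) (by omega) hs0 hε) e2 (hθ m) (by positivity) (by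
      clear * - J v α pr z ι m R₁ hp2 hR₁ u hJ hv hu hV1 hL k hJk a hka hR hV2 hγ1 hk ha e5
      have a1 := le_sum_Ym_sq hp2 (gg_nonneg pr z J) hR₁ (A := J * v / 6) (e := 72 * J * u)
        (by positivity) (by positivity) (le_gg_trunc hp2 hR₁ hV1 fun j hj => (hL j hj).trans (by
          have b1 : (2 : ℝ) * 2 ^ j ≤ (k + 1 : ℕ) := by
            rw [← pow_succ']
            exact_mod_cast (Nat.pow_le_pow_right two_pos hj).trans hJk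
          linarith only [mul_le_mul_of_nonneg_right (b1.trans hka) hu, hR]))
        ((gam_log_le hp2 (by positivity) hV2 hL).trans (le_of_eq_of_le (by ring)
          (mul_le_mul_of_nonneg_left hγ1 (by positivity : 0 ≤ 72 * J * u))))
        (by rw [hk]; linarith only [mul_le_mul_of_nonneg_right ha hu, hR]) m
      rw [hk, Nat.add_sub_cancel] at a1
      exact le_of_eq_of_le (by rw [gam]; ring) a1) e5
  set S := (Ioc x (x + x)).filter (· ≡ b [MOD W]) with hS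
  have hν : ∀ n, 0 ≤ sieveFn pr (YY pr (gg pr z J) (R₁ ^ 2))
    (fun i p => decide (pr p ∣ n + h i)) ^ 2 := fun _ => sq_nonneg _
  generalize hν' : (fun n => sieveFn pr (YY pr (gg pr z J) (R₁ ^ 2))
    (fun i p => decide (pr p ∣ n + h i)) ^ 2) = ν
  simp only [congrFun hν'] at S1 S2 S3 hν
  by_contra! hcon
  have key : ∀ n ∈ S, ∑ i, th (n + h i) * ν n ≤ m₀ * Λ * ν n + (k + 1 : ℕ) * Λ / ε *
      ∑ j ∈ J', c j * ((if ∀ p, ¬ pr p ∣ r * n + j then 1 else 0) * ν n) := fun n hn => by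
    clear * - x n W b ι h ν m₀ Λ k ε J' c α pr r hn hΛ hc0 hk hε0 hΛ0 hcon H F J R₁ hν
    obtain ⟨hn1, hn2⟩ := mem_filter.1 hn
    have a1 : ∑ i, th (n + h i) ≤ #{i | (n + h i).Prime} * Λ := by
      simp only [th]
      rw [← sum_filter, ← nsmul_eq_mul]
      exact sum_le_card_nsmul _ _ _ fun i _ => (Lib.LargeSieve.log_nat_mono
        (Nat.add_le_add_right (mem_Ioc.1 hn1).2 _)).trans (hΛ i)
    simp_rw [← mul_assoc, ← sum_mul, mul_ite, mul_one, mul_zero]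
    rw [← mul_assoc, ← add_mul]
    refine mul_le_mul_of_nonneg_right (a1.trans ?_) (hν n)
    have a2 : 0 ≤ ∑ j ∈ J', (if ∀ p, ¬ pr p ∣ r * n + j then c j else 0) :=
      sum_nonneg fun j _ => by split_ifs; exacts [hc0 j, le_rfl]
    by_cases a3 : m₀ ≤ #{i | (n + h i).Prime}
    · have a4 : (#{i | (n + h i).Prime} : ℝ) ≤ (k + 1 : ℕ) := by
        exact_mod_cast (card_le_univ _).trans hk.le
      calc _ ≤ (k + 1 : ℕ) * Λ / ε * ε := by rw [div_mul_cancel₀ _ hε0.ne']; gcongr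
        _ ≤ _ := le_add_of_nonneg_of_le (by positivity)
          (mul_le_mul_of_nonneg_left (hcon n hn1 hn2 a3).le (by positivity))
    · exact le_add_of_le_of_nonneg (by gcongr; omega) (by clear * - k Λ ε J' α pr r n c hΛ0 hε0 a2; positivity)
  have k1 := sum_le_sum key
  rw [sum_comm, sum_add_distrib, ← mul_sum, ← mul_sum, sum_comm (s := S)] at k1
  simp_rw [← mul_sum] at k1
  have k2 := sum_le_sum fun m (_ : m ∈ univ) => S2 m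
  rw [sum_sub_distrib, sum_const, card_univ, hk, ← sum_div, ← mul_sum, sum_comm, nsmul_eq_mul] at k2
  simp_rw [← sum_mul] at k2
  have k3 : (k + 1 : ℕ) * Λ / ε * ∑ j ∈ J', c j * ∑ n ∈ S,
      (if ∀ p, ¬ pr p ∣ r * n + j then 1 else 0) * ν n
        ≤ Λ * (3 * (x / W) * gam pr z J ^ (k + 1)) := by
    clear * - k Λ ε J' c S α pr r ν x W z J G S3 hc0 hΛ0 hε0 hG1 hγ3 hW0 a v hc V hV3 hGV
    calc _ ≤ (k + 1 : ℕ) * Λ / ε * ∑ j ∈ J', c j * (3 * (x / W) * gam pr z J ^ (k + 1) / G) := by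
          gcongr with j hj
          exacts [hc0 j, S3 j hj]
      _ = Λ * (3 * (x / W) * gam pr z J ^ (k + 1)) *
          (((k + 1 : ℕ) * ∑ j ∈ J', c j) / (ε * G)) := by clear * - k Λ ε J' c x W α pr z J G hG1 hγ3 hW0 hε0; rw [← sum_mul]; field_simp
      _ ≤ _ := mul_le_of_le_one_right (by clear * - Λ x W α pr z J k hΛ0 hW0 hγ3 hGV hV3 hc hε0; positivity) (by
          rw [div_le_one (by positivity)]
          exact hc.trans (mul_le_mul_of_nonneg_left (by linarith only [hV3, hGV]) hε0.le))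
  have k4 := mul_le_mul_of_nonneg_left S1 (by positivity : 0 ≤ m₀ * Λ)
  exact hmain.not_ge (num2 hk1 hv hJ4 hγ3 (gam_le (by positivity) hV2)
    (lt_of_lt_of_le (by positivity) hx) hW' hφ hErr k2 (by linarith only [k1, k3, k4]))

end Pool.Agent.Work.MP_52820d_nt
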