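import Pool.Agent.Work.MP_52820d_nt.Main

/-!
# Density of `τ((n + ⌊f n⌋)!) / τ(n!)` for every `f → ∞` with `f ≤ log` (no monotonicity)
-/

noncomputable section

open Finset Filter

namespace Pool.Agent.Work.MP_52820d_nt

open Pool.Agent.Lib.ANT

lemma final_cluster {t ε : ℝ} {r m₀ k P w n z p₁ : ℕ} {d : ℕ → ℕ} (hr : 0 < r)
    (hP : 2 ≤ P) (hD : 2 * (r * P ^ k) ≤ w) (hw : 10 ≤ w) (hz : z ≤ 2 ^ w)
    (hn : n ∈ Ioc (2 ^ (28 * w)) (2 ^ (28 * w) + 2 ^ (28 * w)))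
    (ht : t ≤ m₀ * (Real.log (r + 1) - Real.log r)) (hε1 : (r : ℝ)⁻¹ ≤ ε / 2)
    (hε2 : 882 / (w : ℝ) ≤ ε / 2) (h1 : m₀ ≤ #{i : Fin k | (n + P ^ (i.1 + 1)).Prime})
    (h2 : ∀ j, d j ∣ r * n + j) (h3 : ∀ j q, q.Prime → q ∣ d j → q ≤ w)
    (h4 : ∑ j ∈ Icc 1 (21 * w) \ univ.image (fun i : Fin k => r * P ^ (i.1 + 1)),
      (if ∀ p : SP (w ^ 3) z p₁, ¬ p.1 ∣ r * n + j then (d j : ℝ)⁻¹ else 0) ≤ ε / 2) :
    ∃ (H : ℕ) (C : Finset ℕ), C ⊆ Icc 1 (r * P ^ k) ∧
      r * P ^ k + ⌊Real.log (r * n + r * P ^ k : ℕ)⌋₊ ≤ H ∧ t ≤ ∑ j ∈ C, step (r * n + j) ∧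
      (∀ j ∈ C, step (r * n + j) ≤ ε) ∧ ∑ j ∈ Icc 1 H \ C, step (r * n + j) ≤ ε := by
  classical
  obtain ⟨hn1, hn2⟩ := mem_Ioc.1 hn
  have hw2 : w < 2 ^ w := Nat.lt_two_pow_self
  have hrD : r ≤ r * P ^ k := Nat.le_mul_of_pos_right _ (by positivity)
  have hnN : n ≤ r * n := Nat.le_mul_of_pos_left _ hr
  have hw' : (10 : ℝ) ≤ w := by exact_mod_cast hw
  have e28 : ∀ m ≤ 28, (2 ^ w) ^ m ≤ 2 ^ (28 * w) := fun m hm => by
    rw [← pow_mul]; exact Nat.pow_le_pow_right two_pos (by nlinarith only [hm])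
  have hwx : 21 * w ≤ 2 ^ (28 * w) := le_trans
    (by rw [pow_succ]; exact Nat.mul_le_mul_right _ (by nlinarith only [hw])) ((Nat.pow_le_pow_left hw2.le 3).trans (e28 3 (by norm_num)))
  have hlog : ∀ j ≤ 21 * w, Real.log ((r * n + j : ℕ) : ℝ) ≤ 29 * w * Real.log 2 := fun j hj => by
    have : r * n + j ≤ 2 ^ (29 * w) := by
      rw [show 29 * w = w + 28 * w by ring, pow_add]
      nlinarith only [hn2, hwx, hj, hD, hw2, hrD, hw, Nat.mul_le_mul_left r hn2]
    simpa using (Lib.LargeSieve.log_nat_mono this).trans_eq (log_two_pow _)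
  have hZ : ∀ j, w ^ 3 * w ^ 3 ≤ r * n + j := fun j => by
    have := (Nat.pow_le_pow_left hw2.le (3 + 3)).trans (e28 _ (by norm_num))
    rw [← pow_add]; omega
  have hst : ∀ j ≤ 21 * w, 2 * Real.log ((r * n + j : ℕ) : ℝ) / (w ^ 3 : ℕ) ≤ 42 / w ^ 2 :=
    fun j hj => by
      rw [div_le_div_iff₀ (by positivity) (by positivity)]
      push_cast [-Nat.cast_add, -Nat.cast_mul]
      nlinarith only [hw', hlog, hj, hw, mul_le_mul_of_nonneg_right (hlog j hj) (sq_nonneg (w : ℝ)), Real.log_two_lt_d9,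
        (by positivity : (0 : ℝ) ≤ w ^ 3)]
  have hw3 : w ≤ w ^ 3 := Nat.le_self_pow (by norm_num) _
  have hinj : Function.Injective fun i : Fin k => r * P ^ (i.1 + 1) := fun i j h =>
    Fin.ext (Nat.succ_injective (Nat.pow_right_injective hP (Nat.eq_of_mul_eq_mul_left hr h)))
  have hle : ∀ i : Fin k, r * P ^ (i.1 + 1) ≤ r * P ^ k := fun i =>
    Nat.mul_le_mul_left _ (Nat.pow_le_pow_right (by omega) i.2)
  refine ⟨21 * w, univ.image fun i : Fin k => r * P ^ (i.1 + 1), fun j hj => ?_, ?_, ?_,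
    fun j hj => ?_, ?_⟩
  · obtain ⟨i, -, rfl⟩ := mem_image.1 hj
    exact mem_Icc.2 ⟨Nat.pos_of_ne_zero (by positivity), hle i⟩
  · have h5 := (Nat.floor_le (Real.log_natCast_nonneg _)).trans (hlog (r * P ^ k) (by omega))
    have h6 : (2 * (r * P ^ k : ℕ) : ℝ) ≤ w := by exact_mod_cast hD
    rw [← Nat.cast_le (α := ℝ), Nat.cast_add, Nat.cast_mul 21]
    push_cast [-Nat.cast_add, -Nat.cast_mul]
    linarith only [hw', h5, h6, Real.log_two_lt_d9, mul_nonneg_of_nonpos_of_nonpos (Mathlib.Tactic.Linarith.sub_nonpos_of_le (Mathlib.Tactic.Linarith.natCast_nonneg ℝ w)) (le_of_lt (Mathlib.Tactic.Linarith.sub_neg_of_lt Real.log_two_lt_d9))]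
  · rw [sum_image fun i _ j _ h => hinj h]
    have h5 : 0 ≤ Real.log (r + 1) - Real.log r :=
      sub_nonneg.2 (Real.log_le_log (by positivity) (by linarith only []))
    refine ht.trans (le_trans ?_ (sum_le_sum_of_subset_of_nonneg
      (filter_subset (fun i : Fin k => (n + P ^ (i.1 + 1)).Prime) _)
        fun i _ _ => step_nonneg (by positivity)))
    refine le_trans (by rw [nsmul_eq_mul]; gcongr) (card_nsmul_le_sum _ _ _ fun i hi => ?_)
    rw [← mul_add, mul_comm]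
    exact step_ge (mem_filter.1 hi).2 hr (by omega)
  · obtain ⟨i, -, rfl⟩ := mem_image.1 hj
    refine (step_le_of (by positivity) (hZ _) (d := r) (by rw [← mul_add]; exact dvd_mul_right _ _)
      fun p _ h => (Nat.le_of_dvd hr h).trans (by omega)).trans ?_
    have h5 := hst _ ((hle i).trans (by omega : _ ≤ 21 * w))
    have h6 : (42 : ℝ) / w ^ 2 ≤ 882 / w := by
      rw [div_le_div_iff₀ (by positivity) (by positivity)]; linarith only [hw', mul_nonneg_of_nonpos_of_nonpos (Mathlib.Tactic.Linarith.sub_nonpos_of_le (Mathlib.Tactic.Linarith.natCast_nonneg ℝ w)) (Mathlib.Tactic.Linarith.sub_nonpos_of_le hw')]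
    have h7 : (0 : ℝ) ≤ (r : ℝ)⁻¹ := by positivity
    split_ifs <;> linarith only [hε1, hε2, h5, h6, h7]
  · refine (sum_le_sum (g := fun j => 42 / (w : ℝ) ^ 2 +
      if ∀ p : SP (w ^ 3) z p₁, ¬ p.1 ∣ r * n + j then (d j : ℝ)⁻¹ else 0) fun j hj => ?_).trans ?_
    · refine (step_le_of (by positivity) (hZ _) (h2 j)
        fun q hq h => (h3 j q hq h).trans hw3).trans
          (add_le_add (hst _ (mem_Icc.1 (mem_sdiff.1 hj).1).2) ?_)
      split_ifs with a1 a2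
      · rfl
      · refine absurd (fun p hp => ?_) a2
        obtain ⟨q, hq, ⟨c, hc⟩, a3⟩ := a1
        obtain ⟨-, ⟨b1, b2⟩, b3⟩ := mem_SP.1 p.2
        rw [hc] at hp a3
        rcases (Nat.Prime.dvd_mul b3).1 hp with h | h
        · rw [← (Nat.prime_dvd_prime_iff_eq b3 hq).1 h] at hc a3
          have := Nat.mul_le_mul (Nat.pow_le_pow_left hw2.le 3) (b2.trans hz)
          have := e28 4 (by norm_num)
          rw [pow_succ] at this
          omega
        · have hc0 : 0 < c := Nat.pos_of_ne_zero (by rintro rfl; omega)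
          have := Nat.le_of_dvd hc0 h
          rw [mul_comm] at a3
          have := lt_of_mul_lt_mul_right' a3
          omega
      · positivity
      · rfl
    · rw [sum_add_distrib, sum_const, nsmul_eq_mul]
      have h5 : (#(Icc 1 (21 * w) \ univ.image fun i : Fin k => r * P ^ (i.1 + 1)) : ℝ) ≤ 21 * w := by
        exact_mod_cast (card_le_card sdiff_subset).trans (by simp)
      have h6 : 21 * w * (42 / (w : ℝ) ^ 2) = 882 / w := by field_simp; norm_num
      linarith only [hε2, h4, h6, h5, hw, mul_le_mul_of_nonneg_right h5 (by positivity : 0 ≤ 42 / (w : ℝ) ^ 2)]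

theorem cluster (t : ℝ) {ε : ℝ} (hε : 0 < ε) : ∃ D : ℕ, ∀ M : ℕ, ∃ N, M ≤ N ∧
    ∃ (H : ℕ) (C : Finset ℕ), C ⊆ Icc 1 D ∧ D + ⌊Real.log (N + D : ℕ)⌋₊ ≤ H ∧
      t ≤ ∑ j ∈ C, step (N + j) ∧ (∀ j ∈ C, step (N + j) ≤ ε) ∧
      ∑ j ∈ Icc 1 H \ C, step (N + j) ≤ ε := by
  have hlog : Tendsto (fun w : ℕ => Real.log w) atTop atTop :=
    Real.tendsto_log_atTop.comp tendsto_natCast_atTop_atTop
  obtain ⟨r, hr1, hr⟩ := Nat.exists_infinite_primes ⌈2 / ε⌉₊
  have hr0 : (0 : ℝ) < r := by exact_mod_cast hr.pos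
  obtain ⟨m₀, hm⟩ := exists_nat_ge (t / (Real.log (r + 1) - Real.log r))
  rw [div_le_iff₀ (sub_pos.2 (Real.log_lt_log hr0 (by linarith only [])))] at hm
  obtain ⟨J, hJ⟩ : ∃ J, 2 * 10 ^ 10 * (m₀ + 1) = J := ⟨_, rfl⟩
  obtain ⟨k, hk⟩ : ∃ k, 2 ^ J = k := ⟨_, rfl⟩
  obtain ⟨a, ha⟩ : ∃ a, 72 * k * J = a := ⟨_, rfl⟩
  have ha0 : 0 < a := by rw [← ha, ← hk, ← hJ]; positivity
  obtain ⟨y, cy, hy⟩ := ((hlog.eventually_ge_atTop (k * 2 ^ 23 * 370440 / ε)).and
    (eventually_gt_atTop 1)).exists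
  refine ⟨r * primorial y ^ k, fun M => ?_⟩
  have hQ : Tendsto (fun w : ℕ => ⌈Real.exp (Real.log w ^ 6)⌉₊) atTop atTop :=
    tendsto_nat_ceil_atTop.comp (Real.tendsto_exp_atTop.comp
      ((tendsto_pow_atTop (by norm_num)).comp hlog))
  have hx : Tendsto (fun w : ℕ => 2 ^ (28 * w)) atTop atTop :=
    (tendsto_pow_atTop_atTop_of_one_lt one_lt_two).comp (tendsto_id.const_mul_atTop' (by norm_num))
  have c9 : ∀ᶠ w : ℕ in atTop, Real.log w ^ 200 ≤ w := by
    filter_upwards [tendsto_natCast_atTop_atTop.eventually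
      ((Real.isLittleO_pow_log_id_atTop (n := 200)).bound one_pos)] with w hw
    exact (le_abs_self _).trans (by simpa using hw)
  obtain ⟨s, c1, c2, c3, c4, c5, c6, c8, c9, cπ, cθ, ⟨p₁, hp₁, hyp, hSW⟩, d1, d2, d3⟩ :=
    ((tendsto_id.const_mul_atTop' (by positivity : 0 < 4 * a)).eventually
      ((hlog.eventually_ge_atTop _).and ((hlog.eventually_ge_atTop _).and
      ((hlog.eventually_ge_atTop _).and ((hlog.eventually_ge_atTop _).and
      ((hlog.eventually_ge_atTop _).and ((hlog.eventually_ge_atTop _).and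
      ((hlog.eventually_ge_atTop _).and (c9.and (ev_pi.and ((hx.eventually ev_theta).and
      ((hQ.eventually (weak_siegel_walfisz y)).and
      ((eventually_ge_atTop (2 * (r * primorial y ^ k))).and
      ((tendsto_natCast_atTop_atTop.eventually_ge_atTop (1764 / ε)).and
      (eventually_ge_atTop M))))))))))))))).exists
  obtain ⟨w, hw⟩ : ∃ w, 4 * a * s = w := ⟨_, rfl⟩
  simp only [id, hw] at c1 c2 c3 c4 c5 c6 c8 c9 cπ cθ hSW d1 d2 d3
  obtain ⟨n, hn, d, e1, e2, e3, e4⟩ := sieve_step hr hε hJ hk ha hw hy cy c1 c2 c3 c4 c5 c6 c8 c9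
    cπ cθ (Nat.le_ceil _) ((Nat.ceil_lt_add_one (Real.exp_pos _).le).le.trans (by
      have : 1 ≤ Real.log w ^ 6 := one_le_pow₀ (by linarith only [c1])
      rw [two_mul, Real.exp_add]
      (refine le_of_not_gt fun h_nl => ?_; linarith only [h_nl, this, Real.add_one_le_exp (Real.log w ^ 6), mul_nonneg_of_nonpos_of_nonpos (Mathlib.Tactic.Linarith.sub_nonpos_of_le (mul_self_nonneg (Real.exp (Real.log ↑w ^ (6 : ℕ))))) (Mathlib.Tactic.Linarith.sub_nonpos_of_le this), mul_nonneg_of_nonpos_of_nonpos (Mathlib.Tactic.Linarith.sub_nonpos_of_le (mul_self_nonneg (Real.exp (Real.log ↑w ^ (6 : ℕ))))) (Mathlib.Tactic.Linarith.sub_nonpos_of_le (Real.add_one_le_exp (Real.log ↑w ^ (6 : ℕ)))), mul_nonneg_of_nonpos_of_nonpos (Mathlib.Tactic.Linarith.sub_nonpos_of_le this) (le_of_lt (Mathlib.Tactic.Linarith.sub_neg_of_lt h_nl)), mul_nonneg_of_nonpos_of_nonpos (le_of_lt (Mathlib.Tactic.Linarith.sub_neg_of_lt h_nl)) (Mathlib.Tactic.Linarith.sub_nonpos_of_le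 (Real.add_one_le_exp (Real.log ↑w ^ (6 : ℕ))))]))) hp₁ hyp hSW _ sdiff_subset
    fun j hj i h => (mem_sdiff.1 hj).2 (mem_image.2 ⟨i, mem_univ _, h.symm⟩)
  have hw8 : 10 ^ 8 ≤ w := by exact_mod_cast (num_basic c1 c9).2.1
  have hMn : M ≤ r * n := by
    have b1 : 28 * w < 2 ^ (28 * w) := Nat.lt_two_pow_self
    have b2 := (mem_Ioc.1 hn).1
    have b3 : n ≤ r * n := Nat.le_mul_of_pos_left _ hr.pos
    omega
  refine ⟨r * n, hMn, final_cluster hr.pos (hy.trans_le le_primorial_self) d1 (by omega)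
    (Nat.pow_le_pow_right two_pos (by rw [← hw, mul_assoc]; omega)) hn hm ?_ ?_ e1 e2 e3 e4⟩
  · rw [← inv_div]
    exact inv_anti₀ (by positivity) ((Nat.le_ceil _).trans (by exact_mod_cast hr1))
  · rw [div_le_iff₀ (by positivity)]
    rw [div_le_iff₀ hε] at d2
    linarith only [d2]

/-- sliding a window of arbitrary admissible length across a cluster -/
lemma slide_gen {t ε : ℝ} (ht : 0 < t) {N D H : ℕ} {C : Finset ℕ} (L : ℕ → ℕ)
    (hC : C ⊆ Icc 1 D) (hD : ∀ s ≤ D, D ≤ L (N + s)) (hH : ∀ s ≤ D, s + L (N + s) ≤ H)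
    (h1 : t ≤ ∑ j ∈ C, step (N + j)) (h2 : ∀ j ∈ C, step (N + j) ≤ ε)
    (h3 : ∑ j ∈ Icc 1 H \ C, step (N + j) ≤ ε) :
    ∃ n : ℕ, N ≤ n ∧ t ≤ ∑ j ∈ Icc 1 (L n), step (n + j) ∧
      ∑ j ∈ Icc 1 (L n), step (n + j) ≤ t + 2 * ε := by
  classical
  have hnn : ∀ j, 1 ≤ j → 0 ≤ step (N + j) := fun j hj => step_nonneg (by omega)
  have hε : 0 ≤ ε := le_trans (sum_nonneg fun j hj => hnn j (mem_Icc.1 (mem_sdiff.1 hj).1).1) h3
  set c : ℕ → ℝ := fun s => ∑ j ∈ C with s < j, step (N + j) with hc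
  have c0 : t ≤ c 0 := by
    refine h1.trans_eq ?_
    simp only [hc]
    rw [filter_true_of_mem (p := fun j => 0 < j) fun j hj => (mem_Icc.1 (hC hj)).1]
  have cD : c D < t := by
    simp only [hc]
    rw [filter_false_of_mem fun j hj => not_lt.2 (mem_Icc.1 (hC hj)).2]
    simpa using ht
  have cs : ∀ s, c s ≤ c (s + 1) + ε := fun s => by
    by_cases h : s + 1 ∈ C
    · have e : C.filter (s < ·) = insert (s + 1) (C.filter (s + 1 < ·)) := by
        ext j
        simp only [mem_filter, mem_insert]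
        constructor
        · rintro ⟨a, b⟩
          rcases Nat.lt_or_ge (s + 1) j with h' | h'
          · exact Or.inr ⟨a, h'⟩
          · exact Or.inl (by omega)
        · rintro (rfl | ⟨a, b⟩)
          · exact ⟨h, by omega⟩
          · exact ⟨a, by omega⟩
      simp only [hc]
      rw [e, sum_insert (by simp), add_comm]
      exact add_le_add le_rfl (h2 _ h)
    · have e : C.filter (s < ·) = C.filter (s + 1 < ·) := by
        ext j
        simp only [mem_filter]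
        constructor
        · rintro ⟨a, b⟩
          refine ⟨a, lt_of_le_of_ne b fun h' => h (h' ▸ a)⟩
        · rintro ⟨a, b⟩
          exact ⟨a, by omega⟩
      simp only [hc]
      rw [e]; linarith only [hε]
  have key : ∀ s ≤ D, c s ≤ ∑ j ∈ Icc 1 (L (N + s)), step (N + s + j) ∧
      ∑ j ∈ Icc 1 (L (N + s)), step (N + s + j) ≤ c s + ε := fun s hs => by
    have e : ∑ j ∈ Icc 1 (L (N + s)), step (N + s + j)
        = ∑ j ∈ (Icc 1 (L (N + s))).image (s + ·), step (N + j) := by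
      rw [sum_image (fun _ _ _ _ h => by simpa using h)]; simp only [add_assoc]
    have hmem : ∀ j, j ∈ (Icc 1 (L (N + s))).image (s + ·) ↔ s < j ∧ j ≤ s + L (N + s) := fun j => by
      simp only [mem_image, mem_Icc]
      constructor
      · rintro ⟨i, hi, rfl⟩; omega
      · intro h; exact ⟨j - s, by omega, by omega⟩
    have d1 := hD s hs
    have d2 := hH s hs
    rw [e]
    constructor
    · refine sum_le_sum_of_subset_of_nonneg (fun j hj => ?_)
        fun j hj _ => hnn j (by have := (hmem j).1 hj; omega)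
      obtain ⟨a, b⟩ := mem_filter.1 hj
      have := mem_Icc.1 (hC a)
      exact (hmem j).2 ⟨b, by omega⟩
    · refine le_trans (sum_le_sum_of_subset_of_nonneg
        (t := C.filter (s < ·) ∪ (Icc 1 H \ C)) (fun j hj => ?_) fun j hj _ => hnn j ?_) ?_
      · obtain ⟨a, b⟩ := (hmem j).1 hj
        by_cases h : j ∈ C
        · exact mem_union_left _ (mem_filter.2 ⟨h, a⟩)
        · exact mem_union_right _ (mem_sdiff.2 ⟨mem_Icc.2 ⟨by omega, by omega⟩, h⟩)
      · rcases mem_union.1 hj with h | h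
        · exact (mem_Icc.1 (hC (mem_filter.1 h).1)).1
        · exact (mem_Icc.1 (mem_sdiff.1 h).1).1
      · rw [sum_union (disjoint_left.2 fun j a b => (mem_sdiff.1 b).2 (mem_filter.1 a).1)]
        exact add_le_add le_rfl h3
  have hex : ∃ s, c s < t := ⟨D, cD⟩
  have hs := Nat.find_spec hex
  have hsD := Nat.find_min' hex cD
  have hs0 : Nat.find hex ≠ 0 := fun h => by rw [h] at hs; linarith only [c0, hs]
  obtain ⟨s, hs'⟩ := Nat.exists_eq_succ_of_ne_zero hs0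
  have h4 := Nat.find_min hex (m := s) (by omega)
  rw [hs'] at hs
  obtain ⟨k1, k2⟩ := key s (by omega)
  exact ⟨N + s, by omega, (not_lt.1 h4).trans k1, by linarith only [hs, k2, cs, cs s]⟩

theorem main_gen (f : ℕ → ℝ) (hf : Tendsto f atTop atTop) (hl : ∀ᶠ n in atTop, f n ≤ Real.log n)
    {t ε : ℝ} (ht : 0 < t) (hε : 0 < ε) (N₀ : ℕ) :
    ∃ n : ℕ, N₀ ≤ n ∧ t ≤ ∑ j ∈ Icc 1 ⌊f n⌋₊, step (n + j) ∧
      ∑ j ∈ Icc 1 ⌊f n⌋₊, step (n + j) ≤ t + ε := by
  obtain ⟨D, hD⟩ := cluster t (half_pos hε)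
  obtain ⟨M, hM⟩ := eventually_atTop.1 ((hf.eventually_ge_atTop (D : ℝ)).and
    (hl.and ((eventually_ge_atTop N₀).and (eventually_ge_atTop 1))))
  obtain ⟨N, hN, H, C, h0, h1, h2, h3, h4⟩ := hD M
  obtain ⟨n, hn, k1, k2⟩ := slide_gen ht (fun n => ⌊f n⌋₊) h0
    (fun s _ => Nat.le_floor (hM _ (by omega)).1) (fun s hs => by
      obtain ⟨-, a, -, b⟩ := hM (N + s) (by omega)
      have : ⌊f (N + s)⌋₊ ≤ ⌊Real.log (N + D : ℕ)⌋₊ := Nat.floor_le_floor (a.trans
        (Real.log_le_log (by exact_mod_cast b) (by exact_mod_cast (by omega))))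
      omega) h2 h3 h4
  exact ⟨n, (hM n (by omega)).2.2.1, k1, by linarith only [k2]⟩

end Pool.Agent.Work.MP_52820d_nt
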